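import Pool.Agent.Lib.MP_8a3537_gt.SG.Spec

set_option linter.unusedVariables false

namespace Pool.Agent.Lib.MP8a3537.SG

open scoped BigOperators Pointwise ComplexOrder

namespace SCAM

lemma s_mono {x y : ℝ} (hx : 0 ≤ x) (hxy : x ≤ y) (hy : y ≤ 1) :
    (3 * x - x ^ 3) / 2 ≤ (3 * y - y ^ 3) / 2 := by
  have h1 : 0 ≤ (y - x) * (3 - x ^ 2 - x * y - y ^ 2) := by
    apply mul_nonneg (by linarith)
    nlinarith [mul_nonneg hx (le_trans hx hxy), mul_nonneg hx (sub_nonneg.2 hy),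
      mul_nonneg (le_trans hx hxy) (sub_nonneg.2 hy), mul_nonneg hx (sub_nonneg.2 hxy)]
  nlinarith [h1]

lemma s_nonneg {y : ℝ} (hy0 : 0 ≤ y) (hy : y ≤ 1) : 0 ≤ (3 * y - y ^ 3) / 2 := by
  have h := s_mono le_rfl hy0 hy
  simpa using h

lemma s_le_one {y : ℝ} (hy0 : 0 ≤ y) : (3 * y - y ^ 3) / 2 ≤ 1 := by
  have h1 : 0 ≤ (1 - y) ^ 2 * (2 + y) := mul_nonneg (sq_nonneg _) (by linarith)
  nlinarith [h1]

lemma sj_mono {x y : ℝ} (hx : 0 ≤ x) (hxy : x ≤ y) (hy : y ≤ 1) (j : ℕ) :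
    0 ≤ sj x j ∧ sj x j ≤ sj y j ∧ sj y j ≤ 1 := by
  induction j with
  | zero => exact ⟨hx, hxy, hy⟩
  | succ j ih =>
    obtain ⟨h1, h2, h3⟩ := ih
    refine ⟨?_, ?_, ?_⟩
    · show 0 ≤ (3 * sj x j - (sj x j) ^ 3) / 2
      exact s_nonneg h1 (h2.trans h3)
    · show (3 * sj x j - (sj x j) ^ 3) / 2 ≤ (3 * sj y j - (sj y j) ^ 3) / 2
      exact s_mono h1 h2 h3
    · show (3 * sj y j - (sj y j) ^ 3) / 2 ≤ 1
      exact s_le_one (h1.trans h2)

lemma sj_neg (x : ℝ) (j : ℕ) : sj (-x) j = - sj x j := by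
  induction j with
  | zero => rfl
  | succ j ih =>
    show (3 * sj (-x) j - (sj (-x) j) ^ 3) / 2 = - ((3 * sj x j - (sj x j) ^ 3) / 2)
    rw [ih]
    ring

lemma sj_ge {e : ℝ} (he : 0 ≤ e) (he1 : e ≤ 1) (j : ℕ) : e ≤ sj e j := by
  induction j with
  | zero => exact le_rfl
  | succ j ih =>
    obtain ⟨h1, -, h3⟩ := sj_mono he le_rfl he1 j
    show e ≤ (3 * sj e j - (sj e j) ^ 3) / 2
    have h4 : 0 ≤ sj e j * (1 - sj e j) * (1 + sj e j) :=
      mul_nonneg (mul_nonneg h1 (by linarith)) (by linarith)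
    nlinarith [h4]

lemma del_succ (e : ℝ) (j : ℕ) :
    del e (j + 1) = (del e j) ^ 2 * (2 + sj e j) / 2 := by
  show 1 - (3 * sj e j - (sj e j) ^ 3) / 2 = (1 - sj e j) ^ 2 * (2 + sj e j) / 2
  ring

end SCAM

open SCAM in
/-- **SCA**: the scalar iteration. -/
theorem specSCA : SpecSCA := by
  intro e he he1
  have he0 : 0 ≤ e := he.le
  have key : ∀ (x : ℝ) (j : ℕ), e ≤ x → x ≤ 1 → |sj x j - 1| ≤ del e j := by
    intro x j hx hx1
    obtain ⟨h1, h2, h3⟩ := sj_mono he0 hx hx1 j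
    rw [abs_sub_comm, abs_of_nonneg (by linarith)]
    show 1 - sj x j ≤ 1 - sj e j
    linarith
  have hd : ∀ j, 0 ≤ del e j ∧ del e j ≤ 1 := by
    intro j
    obtain ⟨h1, -, h3⟩ := sj_mono he0 le_rfl he1 j
    show 0 ≤ 1 - sj e j ∧ 1 - sj e j ≤ 1
    constructor <;> linarith
  refine ⟨?_, ?_, ?_⟩
  · intro x j hx hx1
    rcases lt_trichotomy x 0 with h | h | h
    · rw [abs_of_neg h] at hx hx1
      have h1 := key (-x) j hx hx1
      rw [sj_neg] at h1
      rw [sign_neg h]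
      have h2 : sj x j - ((-1 : SignType) : ℝ) = - (-sj x j - 1) := by
        rw [SignType.coe_neg_one]; ring
      rw [h2, abs_neg]
      exact h1
    · rw [h, abs_zero] at hx
      linarith
    · rw [abs_of_pos h] at hx hx1
      have h1 := key x j hx hx1
      rw [sign_pos h, SignType.coe_one]
      exact h1
  · intro j
    refine ⟨(hd j).1, (hd j).2, ?_⟩
    obtain ⟨h1, -, h3⟩ := sj_mono he0 le_rfl he1 j
    show 1 - (3 * sj e j - (sj e j) ^ 3) / 2 ≤ 1 - sj e j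
    have h4 : 0 ≤ sj e j * (1 - sj e j) * (1 + sj e j) :=
      mul_nonneg (mul_nonneg h1 (by linarith)) (by linarith)
    nlinarith [h4]
  · have hq0 : 0 ≤ 1 - e / 2 := by linarith
    have hq1 : 1 - e / 2 < 1 := by linarith
    have hstep : ∀ j, del e (j + 1) ≤ (1 - e / 2) * del e j := by
      intro j
      obtain ⟨h1, -, h3⟩ := sj_mono he0 le_rfl he1 j
      have h4 := sj_ge he0 he1 j
      have h5 : del e (j + 1) = del e j * ((1 - sj e j) * (2 + sj e j) / 2) := by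
        rw [del_succ]
        show (1 - sj e j) ^ 2 * (2 + sj e j) / 2
          = (1 - sj e j) * ((1 - sj e j) * (2 + sj e j) / 2)
        ring
      rw [h5, mul_comm]
      apply mul_le_mul_of_nonneg_right _ (hd j).1
      nlinarith [sq_nonneg (sj e j)]
    have hpow : ∀ j, del e j ≤ (1 - e / 2) ^ j := by
      intro j
      induction j with
      | zero => rw [pow_zero]; exact (hd 0).2
      | succ j ih =>
        calc del e (j + 1) ≤ (1 - e / 2) * del e j := hstep j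
          _ ≤ (1 - e / 2) * (1 - e / 2) ^ j := mul_le_mul_of_nonneg_left ih hq0
          _ = (1 - e / 2) ^ (j + 1) := by ring
    obtain ⟨j0, hj0⟩ := exists_pow_lt_of_lt_one (show (0 : ℝ) < 1 / 3 by norm_num) hq1
    refine ⟨j0, ?_⟩
    have hmain : ∀ i : ℕ, (3 / 2 : ℝ) * del e (j0 + i) ≤ (1 / 2 : ℝ) ^ (2 ^ i) := by
      intro i
      induction i with
      | zero =>
        have h1 := hpow j0
        rw [Nat.add_zero, pow_zero, pow_one]
        linarith
      | succ i ih =>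
        have h0 := (hd (j0 + i)).1
        obtain ⟨-, -, h3⟩ := sj_mono he0 le_rfl he1 (j0 + i)
        have h1 : (3 / 2 : ℝ) * del e (j0 + (i + 1)) ≤ ((3 / 2 : ℝ) * del e (j0 + i)) ^ 2 := by
          rw [← Nat.add_assoc, del_succ]
          nlinarith [sq_nonneg (del e (j0 + i)), mul_nonneg (sq_nonneg (del e (j0 + i)))
            (sub_nonneg.2 h3)]
        calc (3 / 2 : ℝ) * del e (j0 + (i + 1)) ≤ ((3 / 2 : ℝ) * del e (j0 + i)) ^ 2 := h1
          _ ≤ ((1 / 2 : ℝ) ^ (2 ^ i)) ^ 2 := by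
              apply pow_le_pow_left₀ _ ih
              positivity
          _ = (1 / 2 : ℝ) ^ (2 ^ (i + 1)) := by rw [← pow_mul, pow_succ 2 i]
    intro i
    have h0 := (hd (j0 + i)).1
    have h1 := hmain i
    linarith

end Pool.Agent.Lib.MP8a3537.SG
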