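import Pool.Agent.Lib.MP_8a3537_gt.SG.SpecN

/-!
# SGN: the iteration converges to the sign operator
-/

set_option linter.unusedVariables false

namespace Pool.Agent.Lib.MP8a3537.SG

open scoped BigOperators Pointwise ComplexOrder

namespace SGNM

lemma sj_cont (j : ℕ) : Continuous (fun x : ℝ => sj x j) := by
  induction j with
  | zero => exact continuous_id
  | succ j ih =>
    have : (fun x : ℝ => sj x (j + 1)) = fun x => (3 * sj x j - (sj x j) ^ 3) / 2 := rfl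
    rw [this]
    fun_prop

lemma it_comm {A : Type*} [Ring A] [Algebra ℂ A] (S X : A) (h : Commute S X) (j : ℕ) :
    Commute S (it X j) := by
  induction j with
  | zero => exact h
  | succ j ih =>
    show Commute S ((3 / 2 : ℂ) • it X j - (1 / 2 : ℂ) • (it X j) ^ 3)
    exact (ih.smul_right _).sub_right ((ih.pow_right 3).smul_right _)

lemma it_mul {A : Type*} [Ring A] [Algebra ℂ A] (S X : A) (hS : S * S = 1) (h : Commute S X)
    (j : ℕ) : it (S * X) j = S * it X j := by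
  induction j with
  | zero => rfl
  | succ j ih =>
    show (3 / 2 : ℂ) • it (S * X) j - (1 / 2 : ℂ) • (it (S * X) j) ^ 3
      = S * ((3 / 2 : ℂ) • it X j - (1 / 2 : ℂ) • (it X j) ^ 3)
    have h3 : (S * it X j) ^ 3 = S * (it X j) ^ 3 := by
      rw [(it_comm S X h j).mul_pow]
      congr 1
      rw [pow_succ, pow_two, hS, one_mul]
    rw [ih, h3, mul_sub, mul_smul_comm, mul_smul_comm]

variable {E : Type*} [NormedAddCommGroup E] [InnerProductSpace ℂ E] [CompleteSpace E]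

lemma it_cfc (X : E →L[ℂ] E) (hX : IsSelfAdjoint X) (j : ℕ) :
    it X j = cfc (fun x : ℝ => sj x j) X := by
  induction j with
  | zero =>
    show X = cfc (fun x : ℝ => x) X
    rw [cfc_id' ℝ X]
  | succ j ih =>
    show (3 / 2 : ℂ) • it X j - (1 / 2 : ℂ) • (it X j) ^ 3
      = cfc (fun x : ℝ => (3 * sj x j - (sj x j) ^ 3) / 2) X
    have hc : ContinuousOn (fun x : ℝ => sj x j) (spectrum ℝ X) := (sj_cont j).continuousOn
    have e1 : (fun x : ℝ => (3 * sj x j - (sj x j) ^ 3) / 2)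
        = fun x : ℝ => (3 / 2 : ℝ) • sj x j - (1 / 2 : ℝ) • (sj x j) ^ 3 := by
      funext x
      simp only [smul_eq_mul]
      ring
    rw [e1, cfc_sub (fun x : ℝ => (3 / 2 : ℝ) • sj x j) (fun x : ℝ => (1 / 2 : ℝ) • (sj x j) ^ 3) X
      (hc.const_smul (3 / 2 : ℝ)) (by exact (hc.pow 3).const_smul (1 / 2 : ℝ)),
      cfc_smul (3 / 2 : ℝ) (fun x : ℝ => sj x j) X hc,
      cfc_smul (1 / 2 : ℝ) (fun x : ℝ => (sj x j) ^ 3) X (hc.pow 3),
      cfc_pow (fun x : ℝ => sj x j) 3 X hc, ← ih]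
    have k1 : ∀ (r : ℝ) (Y : E →L[ℂ] E), ((r : ℝ) • Y) = ((r : ℂ) • Y) := fun r Y => by
      ext v
      simp
    rw [k1, k1]
    norm_num

theorem core (hSCA : SpecSCA) (A A' S : E →L[ℂ] E) (e : ℝ) (he : 0 < e) (he1 : e ≤ 1)
    (hA : IsSelfAdjoint A) (hA1 : ‖A‖ ≤ 1) (hAA' : A * A' = 1) (hA'A : A' * A = 1)
    (hA' : ‖A'‖ ≤ 1 / e)
    (hS : IsSelfAdjoint S ∧ S * S = 1 ∧ S * A = A * S ∧ (S * A).IsPositive) (j : ℕ) :
    ‖it A j - S‖ ≤ del e j := by
  obtain ⟨hS1, hS2, hS3, hS4⟩ := hS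
  obtain ⟨sc1, sc2, -⟩ := hSCA e he he1
  obtain ⟨X, hXdef⟩ : ∃ X : E →L[ℂ] E, X = S * A := ⟨_, rfl⟩
  rw [← hXdef] at hS4
  have hXsa : IsSelfAdjoint X := hS4.isSelfAdjoint
  have hcomm : Commute S X := by
    show S * X = X * S
    rw [hXdef, mul_assoc S A S, ← hS3]
  have hAX : A = S * X := by
    rw [hXdef, ← mul_assoc, hS2, one_mul]
  have hSn : ‖S‖ ≤ 1 := by
    have h1 : ‖S * S‖ = ‖S‖ * ‖S‖ := by
      have := CStarRing.norm_star_mul_self (x := S)
      rwa [hS1.star_eq] at this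
    rw [hS2] at h1
    have h2 : ‖(1 : E →L[ℂ] E)‖ ≤ 1 := ContinuousLinearMap.norm_id_le
    rw [h1] at h2
    nlinarith [norm_nonneg S]
  have hXn : ‖X‖ ≤ 1 := by
    rw [hXdef]
    calc ‖S * A‖ ≤ ‖S‖ * ‖A‖ := norm_mul_le _ _
      _ ≤ 1 * 1 := mul_le_mul hSn hA1 (norm_nonneg _) zero_le_one
      _ = 1 := one_mul 1
  obtain ⟨Y, hYdef⟩ : ∃ Y : E →L[ℂ] E, Y = A' * S := ⟨_, rfl⟩
  have hXY : X * Y = 1 := by
    rw [hXdef, hYdef, mul_assoc, ← mul_assoc A A' S, hAA', one_mul, hS2]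
  have hYX : Y * X = 1 := by
    rw [hXdef, hYdef, mul_assoc, ← mul_assoc S S A, hS2, one_mul, hA'A]
  have hYn : ‖Y‖ ≤ 1 / e := by
    rw [hYdef]
    calc ‖A' * S‖ ≤ ‖A'‖ * ‖S‖ := norm_mul_le _ _
      _ ≤ 1 / e * 1 := mul_le_mul hA' hSn (norm_nonneg _) (by positivity)
      _ = 1 / e := mul_one _
  have hspec : ∀ x ∈ spectrum ℝ X, e ≤ x ∧ x ≤ 1 := by
    intro x hx
    have h0 : 0 ≤ x := by
      have hX0 : 0 ≤ X := (ContinuousLinearMap.nonneg_iff_isPositive X).mpr hS4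
      exact spectrum_nonneg_of_nonneg hX0 hx
    have h1 : |x| ≤ 1 := by
      have := spectrum.norm_le_norm_mul_of_mem hx
      have h2 : ‖(1 : E →L[ℂ] E)‖ ≤ 1 := ContinuousLinearMap.norm_id_le
      rw [Real.norm_eq_abs] at this
      calc |x| ≤ ‖X‖ * ‖(1 : E →L[ℂ] E)‖ := this
        _ ≤ 1 * 1 := mul_le_mul hXn h2 (norm_nonneg _) zero_le_one
        _ = 1 := one_mul 1
    refine ⟨?_, (le_abs_self x).trans h1⟩
    by_contra hlt
    push Not at hlt
    -- `X - x` is invertible if `x < e`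
    apply hx
    -- algebraMap x - X = - X (1 - x Y)
    have hsmall : ‖(x : ℝ) • Y‖ < 1 := by
      rw [norm_smul, Real.norm_eq_abs, abs_of_nonneg h0]
      calc x * ‖Y‖ ≤ x * (1 / e) := mul_le_mul_of_nonneg_left hYn h0
        _ < e * (1 / e) := mul_lt_mul_of_pos_right hlt (by positivity)
        _ = 1 := by field_simp
    have hu : IsUnit (1 - (x : ℝ) • Y) := isUnit_one_sub_of_norm_lt_one hsmall
    have hXu : IsUnit X := ⟨⟨X, Y, hXY, hYX⟩, rfl⟩
    have e1 : algebraMap ℝ (E →L[ℂ] E) x - X = -(X * (1 - (x : ℝ) • Y)) := by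
      rw [mul_sub, mul_one, mul_smul_comm, hXY, Algebra.algebraMap_eq_smul_one]
      abel
    show IsUnit (algebraMap ℝ (E →L[ℂ] E) x - X)
    rw [e1]
    exact (hXu.mul hu).neg
  have hit : it A j - S = S * cfc (fun x : ℝ => sj x j - 1) X := by
    rw [hAX, it_mul S X hS2 hcomm j, it_cfc X hXsa j,
      cfc_sub (fun x : ℝ => sj x j) (fun _ : ℝ => (1 : ℝ)) X (sj_cont j).continuousOn
        continuousOn_const, cfc_const_one ℝ X, mul_sub, mul_one]
  rw [hit]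
  have hb : ‖cfc (fun x : ℝ => sj x j - 1) X‖ ≤ del e j := by
    apply norm_cfc_le (sc2 j).1
    intro x hx
    obtain ⟨hx1, hx2⟩ := hspec x hx
    have hx0 : 0 < x := he.trans_le hx1
    have := sc1 x j (by rwa [abs_of_pos hx0]) (by rwa [abs_of_pos hx0])
    rw [sign_pos hx0] at this
    simpa using this
  calc ‖S * cfc (fun x : ℝ => sj x j - 1) X‖ ≤ ‖S‖ * ‖cfc (fun x : ℝ => sj x j - 1) X‖ :=
        norm_mul_le _ _
    _ ≤ 1 * del e j := mul_le_mul hSn hb (norm_nonneg _) zero_le_one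
    _ = del e j := one_mul _

end SGNM

theorem specSGN (hSCA : SpecSCA) : SpecSGN := by
  intro ι G A A' S e he he1 hA hA1 hAA' hA'A hA' hS j
  exact SGNM.core hSCA A A' S e he he1 hA hA1 hAA' hA'A hA' hS j

end Pool.Agent.Lib.MP8a3537.SG
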