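import Pool.Agent.Lib.MP_8a3537_gt.SG.SpecN

set_option linter.unusedVariables false

namespace Pool.Agent.Lib.MP8a3537.SG

open scoped BigOperators Pointwise ComplexOrder

namespace MNBM

lemma map_it {A B : Type*} [Ring A] [Algebra ℂ A] [Ring B] [Algebra ℂ B] (f : A →ₐ[ℂ] B) (a : A)
    (j : ℕ) : f (it a j) = it (f a) j := by
  induction j with
  | zero => rfl
  | succ j ih =>
    show f ((3 / 2 : ℂ) • it a j - (1 / 2 : ℂ) • (it a j) ^ 3) = _
    rw [map_sub, map_smul, map_smul, map_pow, ih]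
    rfl

lemma twist_smul {G : Type} [Group G] {ι κ : Type} [Fintype κ] [DecidableEq κ]
    (ρ : G →* Matrix.unitaryGroup κ ℂ) (c : ℂ) (a : Matrix ι ι (CG G)) :
    twist ρ (c • a) = c • twist ρ a := by
  ext p q
  show repA ρ (c • a p.1 q.1) p.2 q.2 = c • (repA ρ (a p.1 q.1) p.2 q.2)
  rw [map_smul, Matrix.smul_apply]

lemma gap_smul {G : Type} [Group G] {ι : Type} [Fintype ι] [DecidableEq ι]
    {a : Matrix ι ι (CG G)} {e t e' : ℝ} (h : Gap a e) (ht : 0 < t) (ht1 : t ≤ 1)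
    (he' : e' ≤ t * e) : Gap ((t : ℂ) • a) e' := by
  intro κ _ _ ρ
  obtain ⟨h1, h2⟩ := h κ ρ
  rw [twist_smul]
  refine ⟨?_, ?_⟩
  · unfold Matrix.IsHermitian
    rw [Matrix.conjTranspose_smul, h1.eq]
    congr 1
    exact Complex.conj_ofReal t
  · intro μ v hv hμ
    have htC : (t : ℂ) ≠ 0 := by exact_mod_cast ht.ne'
    have h3 : (twist ρ a).mulVec v = ((μ / t : ℝ) : ℂ) • v := by
      have h4 : (t : ℂ) • (twist ρ a).mulVec v = (μ : ℂ) • v := by
        rw [← Matrix.smul_mulVec]; exact hμ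
      calc (twist ρ a).mulVec v = (t : ℂ)⁻¹ • ((t : ℂ) • (twist ρ a).mulVec v) := by
            rw [smul_smul, inv_mul_cancel₀ htC, one_smul]
        _ = ((μ / t : ℝ) : ℂ) • v := by
            rw [h4, smul_smul]
            congr 1
            push_cast
            field_simp
    obtain ⟨h5, h6⟩ := h2 (μ / t) v hv h3
    have h7 : |μ / t| = |μ| / t := by rw [abs_div, abs_of_pos ht]
    rw [h7] at h5 h6
    have h8 : e * t ≤ |μ| := (le_div_iff₀ ht).1 h5
    have h9 : |μ| ≤ 1 * t := (div_le_iff₀ ht).1 h6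
    constructor
    · linarith
    · linarith

lemma augM_smul {G : Type} [Group G] {ι : Type} (c : ℂ) (a : Matrix ι ι (CG G)) :
    augM (c • a) = c • augM a := by
  ext i j
  show aug (c • a i j) = c • aug (a i j)
  rw [map_smul]

lemma mapM_smul {G H : Type} [Group G] [Group H] {ι : Type} (π : G →* H) (c : ℂ)
    (a : Matrix ι ι (CG G)) : mapM π (c • a) = c • mapM π a := by
  refine Matrix.ext fun i j => ?_
  show mapA π (c • a i j) = c • mapA π (a i j)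
  rw [map_smul]

lemma tau_eq {G : Type} [Group G] {ι : Type} [Fintype ι] (x : Matrix ι ι (CG G))
    (H : L2 ι G →L[ℂ] L2 ι G) (hH : IsOp x H) :
    ∑ i, ((H (bv (i, (1 : G)))) : ι × G → ℂ) (i, 1) = tau x := by
  unfold tau
  refine Finset.sum_congr rfl fun i _ => ?_
  rw [hH i i 1 1, inv_one, mul_one]

lemma norm_bv {ι G : Type} (p : ι × G) : ‖(bv p : L2 ι G)‖ = 1 := by
  classical
  unfold bv
  rw [lp.norm_single (by norm_num)]
  exact norm_one

lemma sum_diff_le {ι G : Type} [Group G] [Fintype ι] (S T : L2 ι G →L[ℂ] L2 ι G) :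
    ‖∑ i, ((S (bv (i, (1 : G)))) : ι × G → ℂ) (i, 1) - ∑ i, ((T (bv (i, (1 : G)))) : ι × G → ℂ) (i, 1)‖
      ≤ Fintype.card ι * ‖T - S‖ := by
  rw [← Finset.sum_sub_distrib]
  refine (norm_sum_le _ _).trans ?_
  have h1 : ∀ i ∈ (Finset.univ : Finset ι),
      ‖((S (bv (i, (1 : G)))) : ι × G → ℂ) (i, 1) - ((T (bv (i, (1 : G)))) : ι × G → ℂ) (i, 1)‖
        ≤ ‖T - S‖ := by
    intro i _
    have h2 : ((S (bv (i, (1 : G)))) : ι × G → ℂ) (i, 1) - ((T (bv (i, (1 : G)))) : ι × G → ℂ) (i, 1)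
        = -(((T - S) (bv (i, (1 : G))) : L2 ι G) : ι × G → ℂ) (i, 1) := by
      have h3 : (((T - S) (bv (i, (1 : G))) : L2 ι G) : ι × G → ℂ) (i, 1)
          = ((T (bv (i, (1 : G)))) : ι × G → ℂ) (i, 1)
            - ((S (bv (i, (1 : G)))) : ι × G → ℂ) (i, 1) := by
        rw [sub_apply]
        rfl
      rw [h3]; ring
    rw [h2, norm_neg]
    refine (lp.norm_apply_le_norm (by norm_num) _ _).trans ?_
    refine (ContinuousLinearMap.le_opNorm _ _).trans ?_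
    rw [norm_bv, mul_one]
  refine (Finset.sum_le_sum h1).trans ?_
  rw [Finset.sum_const, Finset.card_univ, nsmul_eq_mul]

end MNBM

open MNBM in
/-- **MNB**: the theorem on the `L²`-signature. -/
theorem specMNB (hPGR : SpecPGR) (hHGA : SpecHGA) (hRFG : SpecRFG) (hSGS : SpecSGS)
    (hOPX : SpecOPX) (hSGE : SpecSGE) (hSGN : SpecSGN) (hPUS : SpecPUS) (hGPH : SpecGPH)
    (hSCA : SpecSCA) : SpecMNB := by
  classical
  intro G _ hG ι _ _ h hherm hunit
  obtain ⟨u, hu⟩ := hunit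
  have hh' : h * (↑u⁻¹ : Matrix ι ι (CG G)) = 1 := by rw [← hu]; exact u.mul_inv
  have hh'' : (↑u⁻¹ : Matrix ι ι (CG G)) * h = 1 := by rw [← hu]; exact u.inv_mul
  obtain ⟨Op, hOp1, hOp2, hOp3⟩ := hOPX G ι
  have hSA : IsSelfAdjoint (Op h) := hOp3 h hherm
  have hUn : IsUnit (Op h) := by
    refine ⟨⟨Op h, Op (↑u⁻¹ : Matrix ι ι (CG G)), ?_, ?_⟩, rfl⟩
    · rw [← map_mul, hh', map_one]
    · rw [← map_mul, hh'', map_one]
  refine ⟨?_, ?_⟩
  · obtain ⟨S, hS⟩ := hSGE ι G (Op h) hSA hUn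
    exact ⟨Op h, S, hOp1 h, hS⟩
  intro H S hH hS
  have hHO : H = Op h := hOp2 h H hH
  rw [hHO] at hS
  obtain ⟨G0, h0, h0', hfg, hG0, hherm0, h01, h02, hmap, htau⟩ :=
    hRFG G ι h (↑u⁻¹ : Matrix ι ι (CG G)) hG hherm hh' hh''
  have hP : P G0 := hPGR G0 hfg hG0
  obtain ⟨b, e, hb, he, he1, hgap⟩ := hHGA G0 ι h0 h0' hherm0 h01 h02
  -- scaling
  set t : ℝ := 1 / (1 + b * ‖Op h‖) with ht
  have hden : 0 < 1 + b * ‖Op h‖ := by
    have := mul_nonneg hb.le (norm_nonneg (Op h)); linarith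
  have ht0 : 0 < t := by rw [ht]; exact one_div_pos.2 hden
  have ht1 : t ≤ 1 := by
    rw [ht, div_le_one hden]
    have := mul_nonneg hb.le (norm_nonneg (Op h)); linarith
  set b' : ℝ := t * b with hb'
  have hb'0 : 0 < b' := mul_pos ht0 hb
  have hb'C : (b' : ℂ) ≠ 0 := by exact_mod_cast hb'0.ne'
  set A : L2 ι G →L[ℂ] L2 ι G := (b' : ℂ) • Op h with hA
  set A' : L2 ι G →L[ℂ] L2 ι G := ((b' : ℂ)⁻¹) • Op (↑u⁻¹ : Matrix ι ι (CG G)) with hA'
  have hAA' : A * A' = 1 := by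
    rw [hA, hA', smul_mul_smul_comm, mul_inv_cancel₀ hb'C, ← map_mul, hh', map_one, one_smul]
  have hA'A : A' * A = 1 := by
    rw [hA, hA', smul_mul_smul_comm, inv_mul_cancel₀ hb'C, ← map_mul, hh'', map_one, one_smul]
  have hnorm : ‖A‖ ≤ 1 := by
    rw [hA, norm_smul, Complex.norm_real, Real.norm_of_nonneg hb'0.le, hb', ht]
    rw [div_mul_eq_mul_div, div_mul_eq_mul_div, one_mul, div_le_one hden]
    linarith
  have hASA : IsSelfAdjoint A := by
    rw [hA]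
    refine IsSelfAdjoint.smul ?_ hSA
    show star (b' : ℂ) = (b' : ℂ)
    exact Complex.conj_ofReal b'
  set e' : ℝ := min (t * e) (1 / (1 + ‖A'‖)) with he'
  have hn0 : 0 < 1 + ‖A'‖ := by have := norm_nonneg A'; linarith
  have he'0 : 0 < e' := lt_min (mul_pos ht0 he) (one_div_pos.2 hn0)
  have he'1 : e' ≤ 1 := (min_le_left _ _).trans (by nlinarith)
  have hA'n : ‖A'‖ ≤ 1 / e' := by
    rw [le_div_iff₀ he'0]
    have h1 : e' ≤ 1 / (1 + ‖A'‖) := min_le_right _ _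
    have h2 : e' * (1 + ‖A'‖) ≤ 1 := by
      rw [le_div_iff₀ hn0] at h1; exact h1
    nlinarith [norm_nonneg A']
  have hgap' : Gap ((b' : ℂ) • h0) e' := by
    have h1 := gap_smul (t := t) (e' := e') hgap ht0 ht1 (min_le_left _ _)
    rwa [smul_smul, ← Complex.ofReal_mul] at h1
  have hSign : IsSignOp A S := by
    obtain ⟨s1, s2, s3, s4⟩ := hS
    refine ⟨s1, s2, ?_, ?_⟩
    · rw [hA, mul_smul_comm, smul_mul_assoc, s3]
    · rw [hA, mul_smul_comm]
      exact s4.smul_of_nonneg (by exact_mod_cast hb'0.le)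
  have hbound := hSGN ι G A A' S e' he'0 he'1 hASA hnorm hAA' hA'A hA'n hSign
  have hsgn : sgn (augM ((b' : ℂ) • h0)) = sgn (augM h) := by
    rw [augM_smul, hSGS ι (augM h0) b' hb'0, ← hmap, hGPH.2.2]
  have htaueq : ∀ j, tau (it ((b' : ℂ) • h0) j)
      = ∑ i, ((it A j (bv (i, (1 : G)))) : ι × G → ℂ) (i, 1) := by
    intro j
    have h1 : it A j = Op (it ((b' : ℂ) • h) j) := by
      rw [map_it, map_smul]
    rw [h1, tau_eq _ _ (hOp1 _), ← htau, hPUS.2.1, mapM_smul, hmap]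
  have hfin : ∀ j, ‖∑ i, ((S (bv (i, (1 : G)))) : ι × G → ℂ) (i, 1) - ((sgn (augM h) : ℤ) : ℂ)‖
      ≤ 2 * Fintype.card ι * del e' j := by
    intro j
    have h1 := hP ι ((b' : ℂ) • h0) e' he'0 he'1 hgap' j
    rw [hsgn, htaueq] at h1
    have h2 := sum_diff_le S (it A j)
    have h3 := hbound j
    have h4 : (Fintype.card ι : ℝ) * ‖it A j - S‖ ≤ Fintype.card ι * del e' j :=
      mul_le_mul_of_nonneg_left h3 (Nat.cast_nonneg _)
    have h5 := norm_sub_le_norm_sub_add_norm_sub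
      (∑ i, ((S (bv (i, (1 : G)))) : ι × G → ℂ) (i, 1))
      (∑ i, ((it A j (bv (i, (1 : G)))) : ι × G → ℂ) (i, 1)) ((sgn (augM h) : ℤ) : ℂ)
    linarith
  obtain ⟨-, -, j0, hj0⟩ := hSCA e' he'0 he'1
  have hfin2 : ∀ i : ℕ, ‖∑ i, ((S (bv (i, (1 : G)))) : ι × G → ℂ) (i, 1)
      - ((sgn (augM h) : ℤ) : ℂ)‖ ≤ 2 * Fintype.card ι * (1 / 2 : ℝ) ^ i := by
    intro i
    refine (hfin (j0 + i)).trans ?_
    apply mul_le_mul_of_nonneg_left _ (by positivity)
    refine (hj0 i).trans ?_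
    exact pow_le_pow_of_le_one (by norm_num) (by norm_num) Nat.lt_two_pow_self.le
  have hlim : Filter.Tendsto (fun i : ℕ => 2 * (Fintype.card ι : ℝ) * (1 / 2 : ℝ) ^ i)
      Filter.atTop (nhds 0) := by
    have h1 := (tendsto_pow_atTop_nhds_zero_of_lt_one (r := (1 / 2 : ℝ)) (by norm_num)
      (by norm_num)).const_mul (2 * (Fintype.card ι : ℝ))
    rwa [mul_zero] at h1
  have hz := ge_of_tendsto' hlim hfin2
  have hz' := norm_le_zero_iff.1 hz
  exact sub_eq_zero.1 hz'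

end Pool.Agent.Lib.MP8a3537.SG
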