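import Pool.Agent.Lib.MP_8a3537_gt.SG.Spec

/-!
# AUG: the augmentation is the trivial one-dimensional representation
-/

set_option linter.unusedVariables false

namespace Pool.Agent.Lib.MP8a3537.SG

open scoped BigOperators Pointwise ComplexOrder

namespace AUGM

lemma rep_one {G : Type} [Group G] (x : CG G) :
    (repA (1 : G →* Matrix.unitaryGroup Unit ℂ) x) () () = aug x := by
  induction x using MonoidAlgebra.induction_linear with
  | zero => simp
  | add x y hx hy => rw [map_add, map_add, Matrix.add_apply, hx, hy]
  | single g b =>
    unfold repA aug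
    rw [MonoidAlgebra.lift_single, MonoidAlgebra.lift_single]
    simp

lemma twist_one {G : Type} [Group G] {ι : Type} (a : Matrix ι ι (CG G)) (i j : ι) :
    twist (1 : G →* Matrix.unitaryGroup Unit ℂ) a (i, ()) (j, ()) = augM a i j := by
  exact rep_one (a i j)

end AUGM

open AUGM in
theorem specAUG : SpecAUG := by
  intro G _ ι _ _ a e h
  obtain ⟨h1, h2⟩ := h Unit 1
  constructor
  · ext i j
    rw [Matrix.conjTranspose_apply, ← twist_one, ← twist_one]
    exact congrFun (congrFun h1 (i, ())) (j, ())
  · intro μ v hv hm
    apply h2 μ (fun p => v p.1)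
    · intro h0
      apply hv
      funext i
      exact congrFun h0 (i, ())
    · funext p
      obtain ⟨i, u⟩ := p
      have h3 := congrFun hm i
      rw [Matrix.mulVec, dotProduct] at h3
      rw [Matrix.mulVec, dotProduct, Fintype.sum_prod_type]
      simp only [Finset.univ_unique, Finset.sum_singleton]
      have h4 : ∀ x : ι, twist (1 : G →* Matrix.unitaryGroup Unit ℂ) a (i, u) (x, default) = augM a i x :=
        fun x => twist_one a i x
      rw [Finset.sum_congr rfl (fun x _ => by rw [h4 x])]
      exact h3

end Pool.Agent.Lib.MP8a3537.SG
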