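import Pool.Agent.Lib.MP_8a3537_gt.SG.SpecN

/-!
# MP_8a3537_gt, SG, module CEX: central extensions of TFN groups
-/

set_option autoImplicit false

namespace Pool.Agent.Lib.MP8a3537.SG

namespace CEXM

theorem tfn_equiv : ∀ (h : ℕ) (N M : Type) [iN : Group N] [iM : Group M] (_ : N ≃* M),
    TFN h N iN → TFN h M iM
  | 0, N, M, _, _, e, hN => by
      have : Subsingleton N := hN
      exact e.symm.injective.subsingleton
  | h + 1, N, M, _, _, e, hN => by
      obtain ⟨Q, iQ, π, c, hc, hQ⟩ := hN
      refine ⟨Q, iQ, π.comp e.symm.toMonoidHom, e c, ⟨?_, ?_, ?_, ?_⟩, hQ⟩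
      · exact hc.surj.comp e.symm.surjective
      · intro g
        show π (e.symm g) = 1 ↔ _
        rw [hc.ker]
        constructor
        · rintro ⟨k, hk⟩
          refine ⟨k, ?_⟩
          rw [← map_zpow, ← hk, e.apply_symm_apply]
        · rintro ⟨k, hk⟩
          refine ⟨k, ?_⟩
          rw [hk, map_zpow, e.symm_apply_apply]
      · intro g
        have := congrArg e (hc.central (e.symm g))
        rwa [map_mul, map_mul, e.apply_symm_apply] at this
      · intro k hk h1
        apply hc.inf k hk
        apply e.injective
        rw [map_zpow, h1, map_one]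

/-- the central extension by a free abelian group of rank `r` -/
theorem main : ∀ (r h : ℕ) (N Q : Type) [iN : Group N] [iQ : Group Q] (φ : N →* Q)
    (β : Multiplicative (Fin r → ℤ) →* N), TFN h Q iQ → Function.Surjective φ →
    Function.Injective β → (∀ x g, g * β x = β x * g) → (∀ g, φ g = 1 ↔ ∃ x, g = β x) →
    TFN (h + r) N iN
  | 0, h, N, Q, _, _, φ, β, hQ, hs, _, _, hk => by
      have hinj : Function.Injective φ := by
        rw [injective_iff_map_eq_one]
        intro g hg
        obtain ⟨x, rfl⟩ := (hk g).1 hg
        have : x = 1 := Subsingleton.elim _ _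
        rw [this, map_one]
      exact tfn_equiv h Q N (MulEquiv.ofBijective φ ⟨hinj, hs⟩).symm hQ
  | r + 1, h, N, Q, _, _, φ, β, hQ, hs, hi, hc, hk => by
      let c : N := β (Multiplicative.ofAdd (Pi.single 0 1))
      have hcz : ∀ k : ℤ, c ^ k = β (Multiplicative.ofAdd (Pi.single 0 k)) := by
        intro k
        show (β _) ^ k = _
        rw [← map_zpow, ← ofAdd_zsmul]
        congr 2
        rw [← Pi.single_smul]
        simp
      have hcc : ∀ g, g * c = c * g := fun g => hc _ g
      have hnor : (Subgroup.zpowers c).Normal := by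
        constructor
        rintro n hn g
        obtain ⟨k, rfl⟩ := Subgroup.mem_zpowers_iff.1 hn
        rw [hcz, hc _ g, mul_inv_cancel_right, ← hcz]
        exact Subgroup.zpow_mem_zpowers c k
      have hφ : Subgroup.zpowers c ≤ φ.ker := by
        rw [Subgroup.zpowers_le]
        exact (hk c).2 ⟨_, rfl⟩
      let tl : Multiplicative (Fin r → ℤ) →* Multiplicative (Fin (r + 1) → ℤ) :=
        { toFun := fun x => Multiplicative.ofAdd (Fin.cons 0 (Multiplicative.toAdd x))
          map_one' := by
            apply Multiplicative.toAdd.injective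
            funext i
            refine Fin.cases ?_ (fun i => ?_) i <;> rfl
          map_mul' := by
            intro x y
            apply Multiplicative.toAdd.injective
            funext i
            refine Fin.cases ?_ (fun i => ?_) i
            · show (0 : ℤ) = 0 + 0
              rfl
            · rfl }
      let π : N →* N ⧸ Subgroup.zpowers c := QuotientGroup.mk' _
      have hTQ : TFN (h + r) (N ⧸ Subgroup.zpowers c) inferInstance := by
        refine main r h (N ⧸ Subgroup.zpowers c) Q (QuotientGroup.lift _ φ hφ) ((π.comp β).comp tl)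
          hQ ?_ ?_ ?_ ?_
        · intro q
          obtain ⟨g, rfl⟩ := hs q
          exact ⟨QuotientGroup.mk g, rfl⟩
        · rw [injective_iff_map_eq_one]
          intro x hx
          have hx' : β (tl x) ∈ Subgroup.zpowers c := (QuotientGroup.eq_one_iff _).1 hx
          obtain ⟨k, hk'⟩ := Subgroup.mem_zpowers_iff.1 hx'
          rw [hcz] at hk'
          have h1 := hi hk'
          apply Multiplicative.toAdd.injective
          funext i
          have h2 := congrFun (congrArg Multiplicative.toAdd h1) i.succ
          have h3 : (Pi.single (M := fun _ : Fin (r + 1) => ℤ) 0 k) i.succ = 0 := by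
            rw [Pi.single_apply, if_neg (Fin.succ_ne_zero i)]
          exact h2.symm.trans h3
        · intro x g
          obtain ⟨g, rfl⟩ := QuotientGroup.mk_surjective g
          show QuotientGroup.mk (g * β (tl x)) = QuotientGroup.mk (β (tl x) * g)
          rw [hc]
        · intro g
          obtain ⟨g, rfl⟩ := QuotientGroup.mk_surjective g
          show φ g = 1 ↔ ∃ x, QuotientGroup.mk g = QuotientGroup.mk (β (tl x))
          constructor
          · intro hg
            obtain ⟨x, rfl⟩ := (hk g).1 hg
            refine ⟨Multiplicative.ofAdd (fun i => Multiplicative.toAdd x i.succ), ?_⟩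
            rw [QuotientGroup.eq, ← map_inv, ← map_mul, Subgroup.mem_zpowers_iff]
            refine ⟨- Multiplicative.toAdd x 0, ?_⟩
            rw [hcz]
            congr 1
            apply Multiplicative.toAdd.injective
            funext i
            refine Fin.cases ?_ (fun i => ?_) i
            · show (Pi.single (M := fun _ : Fin (r + 1) => ℤ) 0 (- Multiplicative.toAdd x 0)) 0 =
                -(Multiplicative.toAdd x 0) + 0
              rw [Pi.single_eq_same, add_zero]
            · show (Pi.single (M := fun _ : Fin (r + 1) => ℤ) 0 (- Multiplicative.toAdd x 0))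
                i.succ = -(Multiplicative.toAdd x i.succ) + Multiplicative.toAdd x i.succ
              rw [Pi.single_apply, if_neg (Fin.succ_ne_zero i), neg_add_cancel]
          · rintro ⟨x, hx⟩
            have h1 : g⁻¹ * β (tl x) ∈ φ.ker := hφ (QuotientGroup.eq.1 hx)
            have h2 : φ (β (tl x)) = 1 := (hk _).2 ⟨_, rfl⟩
            have h3 : φ g⁻¹ * φ (β (tl x)) = 1 := by rw [← map_mul]; exact h1
            rw [h2, mul_one, map_inv, inv_eq_one] at h3
            exact h3
      refine ⟨N ⧸ Subgroup.zpowers c, inferInstance, π, c, ⟨?_, ?_, ?_, ?_⟩, hTQ⟩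
      · exact QuotientGroup.mk_surjective
      · intro g
        show QuotientGroup.mk g = 1 ↔ _
        rw [QuotientGroup.eq_one_iff, Subgroup.mem_zpowers_iff]
        exact ⟨fun ⟨k, hk⟩ => ⟨k, hk.symm⟩, fun ⟨k, hk⟩ => ⟨k, hk.symm⟩⟩
      · exact hcc
      · intro k hk0 h1
        rw [hcz, ← map_one β] at h1
        have h2 := congrFun (congrArg Multiplicative.toAdd (hi h1)) 0
        apply hk0
        have h3 : (Pi.single (M := fun _ : Fin (r + 1) => ℤ) 0 k) 0 = k := Pi.single_eq_same _ _
        exact h3.symm.trans h2

theorem free (B : Type) [CommGroup B] (hfg : Group.FG B)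
    (htf : ∀ x : B, ∀ n : ℕ, 0 < n → x ^ n = 1 → x = 1) :
    ∃ r : ℕ, Nonempty (Multiplicative (Fin r → ℤ) ≃* B) := by
  have : AddGroup.FG (Additive B) := by
    exact (GroupFG.iff_add_fg).1 hfg
  have : Module.Finite ℤ (Additive B) := Module.Finite.iff_addGroup_fg.2 this
  have : IsAddTorsionFree (Additive B) := by
    constructor
    intro n hn x y hxy
    have h1 : (x.toMul * y.toMul⁻¹) ^ n = 1 := by
      rw [mul_pow, inv_pow, mul_inv_eq_one]
      exact congrArg Additive.toMul hxy
    have h2 := htf _ n (Nat.pos_of_ne_zero hn) h1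
    exact Additive.toMul.injective (mul_inv_eq_one.1 h2)
  have : Module.IsTorsionFree ℤ (Additive B) := inferInstance
  have : Module.Free ℤ (Additive B) := inferInstance
  exact ⟨Module.finrank ℤ (Additive B),
    ⟨AddEquiv.toMultiplicativeLeft (Module.finBasis ℤ (Additive B)).equivFun.symm.toAddEquiv⟩⟩

end CEXM

open CEXM

theorem specCEX : SpecCEX := by
  intro N iN A hA hc hfg htf h hQ
  let iA : CommGroup A := { (inferInstance : Group A) with
    mul_comm := fun a b => Subtype.ext (Subgroup.mem_center_iff.1 (hc a.2) b).symm }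
  obtain ⟨r, ⟨e⟩⟩ := free A ((Group.fg_iff_subgroup_fg A).2 hfg) (fun x n hn hx => by
    apply Subtype.ext
    exact htf x.1 x.2 n hn (by rw [← Subgroup.coe_pow]; exact congrArg Subtype.val hx))
  refine ⟨h + r, main r h N (N ⧸ A) (QuotientGroup.mk' A) (A.subtype.comp e.toMonoidHom) hQ
    QuotientGroup.mk_surjective ?_ ?_ ?_⟩
  · exact Subtype.val_injective.comp e.injective
  · intro x g
    exact Subgroup.mem_center_iff.1 (hc (e x).2) g
  · intro g
    show QuotientGroup.mk g = 1 ↔ _
    rw [QuotientGroup.eq_one_iff]
    constructor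
    · intro hg
      refine ⟨e.symm ⟨g, hg⟩, ?_⟩
      show g = ((e (e.symm ⟨g, hg⟩) : A) : N)
      rw [e.apply_symm_apply]
    · rintro ⟨x, rfl⟩
      exact (e x).2

end Pool.Agent.Lib.MP8a3537.SG
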