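import Pool.Agent.Lib.MP_8a3537_gt.SG.Spec

/-!
# CHO: choice of the number of iterations
-/

namespace Pool.Agent.Lib.MP8a3537.SG

open scoped BigOperators Pointwise ComplexOrder

namespace CHOM

/-- a constant times a power of `L` is eventually small against `2^L` -/
lemma small (A ε : ℝ) (k : ℕ) (hε : 0 < ε) : ∀ᶠ L : ℕ in Filter.atTop,
    A * (L : ℝ) ^ k * (2 * (1 / 2 : ℝ) ^ L) < ε := by
  have h := (tendsto_pow_const_mul_const_pow_of_lt_one k (r := (1 / 2 : ℝ)) (by norm_num)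
    (by norm_num)).const_mul (A * 2)
  rw [mul_zero] at h
  filter_upwards [h.eventually (gt_mem_nhds hε)] with L hL
  calc A * (L : ℝ) ^ k * (2 * (1 / 2 : ℝ) ^ L) = A * 2 * ((L : ℝ) ^ k * (1 / 2) ^ L) := by ring
    _ < ε := hL

/-- the estimate with everything written out -/
lemma fin (C n K B b m : ℝ) (R : ℕ) (hC : 0 ≤ C) (hn : 0 ≤ n) (hK : 0 ≤ K) (hB : 1 ≤ B)
    (hKB : K ≤ B) (hm : 1 ≤ m) (hb : b * m ^ (R + 2) ≤ 1)
    (h1 : C * 2 ^ (R + 1) * n / m < 1 / 2)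
    (h2 : C * 6 * n * 8 ^ (R + 1) * B ^ (R + 2) / m < 1 / 2) :
    C * m ^ R * (2 ^ (R + 1) * (n * b)
      + (2 * K + 1) * (2 * n) * (2 * Real.pi * K / m) ^ (R + 1)) < 1 := by
  have hm0 : 0 < m := by linarith
  have e1 : C * m ^ R * (2 ^ (R + 1) * (n * b)) ≤ C * 2 ^ (R + 1) * n / m := by
    rw [le_div_iff₀ hm0]
    have e3 : m ^ R * m * b ≤ 1 := by
      have : m ^ R * m * b * m ≤ 1 * m := by
        calc m ^ R * m * b * m = b * m ^ (R + 2) := by ring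
          _ ≤ 1 := hb
          _ ≤ 1 * m := by linarith
      exact le_of_mul_le_mul_right this hm0
    have e4 : 0 ≤ C * 2 ^ (R + 1) * n := by positivity
    calc C * m ^ R * (2 ^ (R + 1) * (n * b)) * m
        = C * 2 ^ (R + 1) * n * (m ^ R * m * b) := by ring
      _ ≤ C * 2 ^ (R + 1) * n * 1 := by gcongr
      _ = C * 2 ^ (R + 1) * n := by ring
  have e2 : C * m ^ R * ((2 * K + 1) * (2 * n) * (2 * Real.pi * K / m) ^ (R + 1))
      ≤ C * 6 * n * 8 ^ (R + 1) * B ^ (R + 2) / m := by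
    have p1 : (2 * K + 1) ≤ 3 * B := by linarith
    have hpi : Real.pi ≤ 4 := Real.pi_le_four
    have hpi0 : 0 < Real.pi := Real.pi_pos
    have p2 : 2 * Real.pi * K / m ≤ 8 * B / m := by
      gcongr
      linarith
    have p3 : 0 ≤ 2 * Real.pi * K / m := by positivity
    calc C * m ^ R * ((2 * K + 1) * (2 * n) * (2 * Real.pi * K / m) ^ (R + 1))
        ≤ C * m ^ R * ((3 * B) * (2 * n) * (8 * B / m) ^ (R + 1)) := by gcongr
      _ = C * 6 * n * 8 ^ (R + 1) * B ^ (R + 2) * (m ^ R / m ^ (R + 1)) := by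
          rw [div_pow, mul_pow]; ring
      _ = C * 6 * n * 8 ^ (R + 1) * B ^ (R + 2) / m := by
          have : m ^ R / m ^ (R + 1) = 1 / m := by
            rw [pow_succ]
            field_simp
          rw [this]; ring
  rw [mul_add]
  linarith

end CHOM

open CHOM in
theorem specCHO (hSCA : SpecSCA) : SpecCHO := by
  intro e n C r R he he1 hn hC
  obtain ⟨-, -, j0, hj0⟩ := hSCA e he he1
  -- the constant
  set Q : ℝ := C * ((3 : ℝ) ^ j0 * (2 * ((R : ℝ) + 2)) ^ 2) ^ r with hQ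
  have hQ0 : 0 ≤ Q := by positivity
  have ev := ((small (Q + 1) 1 (2 * r) one_pos).and ((small (C * 2 ^ (R + 1) * n) (1 / 2) 0
    (by norm_num)).and (small (C * 6 * n * 8 ^ (R + 1) * (Q + 1) ^ (R + 2)) (1 / 2)
      (2 * r * (R + 2)) (by norm_num)))).and (Filter.eventually_ge_atTop 2)
  obtain ⟨L0, hL0⟩ := Filter.eventually_atTop.1 ev
  refine ⟨2 ^ (L0 + 2), by positivity, fun M hM => ?_⟩
  have hM4 : 4 ≤ M := by
    have : 2 ^ 2 ≤ 2 ^ (L0 + 2) := Nat.pow_le_pow_right (by norm_num) (by omega)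
    omega
  set L := Nat.clog 2 M with hL
  have hLL : L0 ≤ L := by
    have := Nat.clog_mono_right 2 hM
    rw [Nat.clog_pow 2 _ (by norm_num)] at this
    omega
  obtain ⟨⟨a1, a2, a3⟩, hL2⟩ := hL0 L hLL
  have hML : M ≤ 2 ^ L := Nat.le_pow_clog (by norm_num) M
  have hML2 : 2 ^ (L - 1) < M := Nat.pow_pred_clog_lt_self (by norm_num) (by omega)
  set i := Nat.clog 2 ((R + 2) * L) with hi
  have hi1 : (R + 2) * L ≤ 2 ^ i := Nat.le_pow_clog (by norm_num) _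
  have hRL : 1 < (R + 2) * L := by nlinarith
  have hi2 : 2 ^ (i - 1) < (R + 2) * L := Nat.pow_pred_clog_lt_self (by norm_num) hRL
  have hi0 : 0 < i := Nat.clog_pos (by norm_num) hRL
  have hi3 : (2 : ℝ) ^ i ≤ 2 * ((R : ℝ) + 2) * L := by
    have h : 2 ^ i ≤ 2 * ((R + 2) * L) := by
      calc 2 ^ i = 2 * 2 ^ (i - 1) := by
            rw [← pow_succ']; congr 1; omega
        _ ≤ 2 * ((R + 2) * L) := by omega
    have h' : ((2 ^ i : ℕ) : ℝ) ≤ ((2 * ((R + 2) * L) : ℕ) : ℝ) := by exact_mod_cast h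
    push_cast at h'
    linarith
  have hm : (1 : ℝ) ≤ M := by exact_mod_cast (by omega : 1 ≤ M)
  have hm0 : (0 : ℝ) < M := by linarith
  -- 1 / M <= 2 (1/2)^L
  have hinv : 1 / (M : ℝ) ≤ 2 * (1 / 2 : ℝ) ^ L := by
    rw [div_le_iff₀ hm0]
    have h1 : (2 : ℝ) ^ (L - 1) ≤ M := by exact_mod_cast hML2.le
    have h2 : (2 : ℝ) ^ L = 2 * 2 ^ (L - 1) := by
      rw [← pow_succ']; congr 1; omega
    have h3 : (1 : ℝ) = 2 * (1 / 2) ^ L * 2 ^ (L - 1) := by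
      have h4 : (1 / 2 : ℝ) ^ L * 2 ^ L = 1 := by
        rw [← mul_pow]; norm_num
      calc (1 : ℝ) = (1 / 2 : ℝ) ^ L * 2 ^ L := h4.symm
        _ = 2 * (1 / 2) ^ L * 2 ^ (L - 1) := by rw [h2]; ring
    calc (1 : ℝ) = 2 * (1 / 2) ^ L * 2 ^ (L - 1) := h3
      _ ≤ 2 * (1 / 2) ^ L * M := by gcongr
  -- the size of `K`
  set K : ℝ := C * ((3 : ℝ) ^ (j0 + i)) ^ r with hK
  have hK0 : 0 ≤ K := by positivity
  have h3i : (3 : ℝ) ^ i ≤ (2 * ((R : ℝ) + 2) * L) ^ 2 := by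
    calc (3 : ℝ) ^ i ≤ 4 ^ i := by gcongr; norm_num
      _ = (2 ^ i) ^ 2 := by rw [← pow_mul, mul_comm, pow_mul]; norm_num
      _ ≤ (2 * ((R : ℝ) + 2) * L) ^ 2 := by gcongr
  have hKQ : K ≤ Q * (L : ℝ) ^ (2 * r) := by
    calc K = C * ((3 : ℝ) ^ j0 * 3 ^ i) ^ r := by rw [hK, pow_add]
      _ ≤ C * ((3 : ℝ) ^ j0 * (2 * ((R : ℝ) + 2) * L) ^ 2) ^ r := by gcongr
      _ = Q * (L : ℝ) ^ (2 * r) := by
          have e1 : (3 : ℝ) ^ j0 * (2 * ((R : ℝ) + 2) * L) ^ 2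
              = (3 : ℝ) ^ j0 * (2 * ((R : ℝ) + 2)) ^ 2 * (L : ℝ) ^ 2 := by ring
          rw [hQ, pow_mul, e1, mul_pow _ ((L : ℝ) ^ 2) r]
          ring
  have hL1 : (1 : ℝ) ≤ L := by exact_mod_cast (by omega : 1 ≤ L)
  have hLp : (1 : ℝ) ≤ (L : ℝ) ^ (2 * r) := one_le_pow₀ hL1
  have hKB : K ≤ (Q + 1) * (L : ℝ) ^ (2 * r) := by nlinarith
  have hB : 1 ≤ (Q + 1) * (L : ℝ) ^ (2 * r) := by nlinarith
  have hKM : K < M := by
    have h1 : (Q + 1) * (L : ℝ) ^ (2 * r) * (1 / M) < 1 :=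
      lt_of_le_of_lt (mul_le_mul_of_nonneg_left hinv (by positivity)) a1
    rw [mul_one_div, div_lt_one hm0] at h1
    linarith
  refine ⟨j0 + i, hKM, ?_⟩
  refine fin C n K ((Q + 1) * (L : ℝ) ^ (2 * r)) (del e (j0 + i)) M R hC hn hK0 hB hKB hm ?_ ?_ ?_
  · -- del e j * M^(R+2) <= 1
    have h1 := hj0 i
    have h2 : (1 / 2 : ℝ) ^ (2 ^ i) ≤ (1 / 2 : ℝ) ^ ((R + 2) * L) :=
      pow_le_pow_of_le_one (by norm_num) (by norm_num) hi1
    have h3 : (M : ℝ) ^ (R + 2) ≤ 2 ^ ((R + 2) * L) := by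
      have : (M : ℝ) ≤ 2 ^ L := by exact_mod_cast hML
      calc (M : ℝ) ^ (R + 2) ≤ (2 ^ L) ^ (R + 2) := by gcongr
        _ = 2 ^ ((R + 2) * L) := by rw [← pow_mul, mul_comm]
    calc del e (j0 + i) * (M : ℝ) ^ (R + 2)
        ≤ (1 / 2 : ℝ) ^ ((R + 2) * L) * 2 ^ ((R + 2) * L) := by
          refine mul_le_mul (h1.trans h2) h3 (by positivity) (by positivity)
      _ = 1 := by rw [← mul_pow]; norm_num
  · have h1 : C * 2 ^ (R + 1) * n * (1 / M) ≤ C * 2 ^ (R + 1) * n * (2 * (1 / 2 : ℝ) ^ L) := by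
      gcongr
    rw [pow_zero, mul_one] at a2
    calc C * 2 ^ (R + 1) * n / M = C * 2 ^ (R + 1) * n * (1 / M) := by ring
      _ ≤ _ := h1
      _ < 1 / 2 := a2
  · have h1 : C * 6 * n * 8 ^ (R + 1) * (Q + 1) ^ (R + 2) * (L : ℝ) ^ (2 * r * (R + 2)) * (1 / M)
        ≤ C * 6 * n * 8 ^ (R + 1) * (Q + 1) ^ (R + 2) * (L : ℝ) ^ (2 * r * (R + 2))
          * (2 * (1 / 2 : ℝ) ^ L) := by
      gcongr
    calc C * 6 * n * 8 ^ (R + 1) * ((Q + 1) * (L : ℝ) ^ (2 * r)) ^ (R + 2) / M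
        = C * 6 * n * 8 ^ (R + 1) * (Q + 1) ^ (R + 2) * (L : ℝ) ^ (2 * r * (R + 2)) * (1 / M) := by
          rw [mul_pow, ← pow_mul]; ring
      _ ≤ _ := h1
      _ < 1 / 2 := a3

end Pool.Agent.Lib.MP8a3537.SG
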