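import Pool.Agent.Lib.MP_8a3537_gt.SG.Spec

/-!
# CLM: the scalar part of the argument (section 3 of the paper without groups)
-/

namespace Pool.Agent.Lib.MP8a3537.SG

open scoped BigOperators Pointwise ComplexOrder

namespace CLMM

lemma norm_ex (x : ℝ) : ‖ex x‖ = 1 := by
  have : ex x = Complex.exp (((2 * Real.pi * x : ℝ) : ℂ) * Complex.I) := by
    unfold ex; push_cast; rfl
  rw [this, Complex.norm_exp_ofReal_mul_I]

lemma ex_zero : ex 0 = 1 := by simp [ex]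

/-- the error terms become arbitrarily small -/
lemma exists_small (hSCA : SpecSCA) (e n ε : ℝ) (he : 0 < e) (he1 : e ≤ 1) (hn : 0 ≤ n)
    (hε : 0 < ε) : ∃ j, n * del e j < ε := by
  obtain ⟨-, -, j0, hj0⟩ := hSCA e he he1
  have h : Filter.Tendsto (fun i : ℕ => n * (1 / 2 : ℝ) ^ i) Filter.atTop (nhds (n * 0)) :=
    (tendsto_pow_atTop_nhds_zero_of_lt_one (by norm_num) (by norm_num)).const_mul n
  rw [mul_zero] at h
  obtain ⟨i, hi⟩ := (h.eventually (gt_mem_nhds hε)).exists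
  refine ⟨j0 + i, lt_of_le_of_lt ?_ hi⟩
  refine mul_le_mul_of_nonneg_left ((hj0 i).trans ?_) hn
  exact pow_le_pow_of_le_one (by norm_num) (by norm_num) (Nat.lt_two_pow_self).le

/-- the value at `0` does not depend on `M` -/
lemma F_zero (T : ℤ → ℂ) (K M : ℕ) : F T K M 0 = F T K 1 0 := by
  simp [F]

lemma fwdDiff_bound (g : ℤ → ℂ) (B : ℝ) (hg : ∀ p, ‖g p‖ ≤ B) (m : ℕ) :
    ∀ p, ‖(fwdDiff (1 : ℤ))^[m] g p‖ ≤ 2 ^ m * B := by
  induction m with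
  | zero => intro p; simpa using hg p
  | succ m ih =>
    intro p
    rw [Function.iterate_succ_apply']
    calc ‖fwdDiff (1 : ℤ) ((fwdDiff (1 : ℤ))^[m] g) p‖
        = ‖(fwdDiff (1 : ℤ))^[m] g (p + 1) - (fwdDiff (1 : ℤ))^[m] g p‖ := rfl
      _ ≤ ‖(fwdDiff (1 : ℤ))^[m] g (p + 1)‖ + ‖(fwdDiff (1 : ℤ))^[m] g p‖ := norm_sub_le _ _
      _ ≤ 2 ^ m * B + 2 ^ m * B := add_le_add (ih _) (ih _)
      _ = 2 ^ (m + 1) * B := by ring

lemma fwdDiff_ofReal (v : ℤ → ℝ) (m : ℕ) :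
    ∀ p, (fwdDiff (1 : ℤ))^[m] (fun p => (v p : ℂ)) p = (((fwdDiff (1 : ℤ))^[m] v p : ℝ) : ℂ) := by
  induction m with
  | zero => intro p; rfl
  | succ m ih =>
    intro p
    rw [Function.iterate_succ_apply', Function.iterate_succ_apply']
    show (fwdDiff (1 : ℤ))^[m] (fun p => (v p : ℂ)) (p + 1)
      - (fwdDiff (1 : ℤ))^[m] (fun p => (v p : ℂ)) p
      = (((fwdDiff (1 : ℤ))^[m] v (p + 1) - (fwdDiff (1 : ℤ))^[m] v p : ℝ) : ℂ)
    rw [ih, ih]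
    push_cast
    rfl

/-- coefficients are bounded by the values -/
lemma coeff_bound (hTRI : SpecTRI) (T : ℤ → ℂ) (K : ℕ) (B : ℝ) (hB : 0 ≤ B)
    (h : ∀ p, ‖F T K (2 * K + 1) p‖ ≤ B) : ∀ k ∈ Finset.Icc (-(K : ℤ)) K, ‖T k‖ ≤ B := by
  intro k hk
  rw [(hTRI T K (2 * K + 1) 0 B (by omega) hB).2 (by omega) k hk]
  have hM : (0 : ℝ) < ((2 * K + 1 : ℕ) : ℝ) := by positivity
  rw [norm_mul]
  have h1 : ‖∑ p ∈ Finset.range (2 * K + 1), F T K (2 * K + 1) p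
      * ex (-((p : ℝ) * k / ((2 * K + 1 : ℕ) : ℝ)))‖ ≤ ((2 * K + 1 : ℕ) : ℝ) * B := by
    calc _ ≤ ∑ p ∈ Finset.range (2 * K + 1), ‖F T K (2 * K + 1) p
          * ex (-((p : ℝ) * k / ((2 * K + 1 : ℕ) : ℝ)))‖ := norm_sum_le _ _
      _ ≤ ∑ _p ∈ Finset.range (2 * K + 1), B := by
          refine Finset.sum_le_sum fun p _ => ?_
          rw [norm_mul, norm_ex, mul_one]
          exact h p
      _ = ((2 * K + 1 : ℕ) : ℝ) * B := by simp
  have h2 : ‖(1 / ((2 * K + 1 : ℕ) : ℂ) : ℂ)‖ = 1 / ((2 * K + 1 : ℕ) : ℝ) := by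
    rw [norm_div, norm_one, Complex.norm_natCast]
  rw [h2, one_div]
  calc ((2 * K + 1 : ℕ) : ℝ)⁻¹ * _ ≤ ((2 * K + 1 : ℕ) : ℝ)⁻¹ * (((2 * K + 1 : ℕ) : ℝ) * B) :=
        mul_le_mul_of_nonneg_left h1 (by positivity)
    _ = B := by field_simp

end CLMM

open CLMM in
theorem specCLM (hSCA : SpecSCA) (hCHO : SpecCHO) (hDIF : SpecDIF) (hTRI : SpecTRI) :
    SpecCLM := by
  intro e n C r R T K σ he he1 hn hC hK hM hσ
  have hdel := (hSCA e he he1).2.1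
  -- (1)
  have hv0 : ∀ (M : ℕ) (v : ℤ → ℝ),
      (∀ j p, ‖F (T j) (K j) M p - (v p : ℂ)‖ ≤ n * del e j) → v 0 = σ := by
    intro M v hv
    by_contra hne
    have hpos : 0 < |v 0 - σ| := abs_pos.2 (sub_ne_zero.2 hne)
    obtain ⟨j, hj⟩ := exists_small hSCA e n (|v 0 - σ| / 2) he he1 hn (by linarith)
    have h1 := hv j 0
    have h2 := hσ j
    rw [F_zero] at h1
    have h3 : ((v 0 - σ : ℝ) : ℂ) = (F (T j) (K j) 1 0 - (σ : ℂ)) - (F (T j) (K j) 1 0 - (v 0 : ℂ)) := by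
      push_cast; ring
    have h4 : |v 0 - σ| ≤ n * del e j + n * del e j := by
      rw [← Real.norm_eq_abs, ← Complex.norm_real, h3]
      exact (norm_sub_le _ _).trans (add_le_add h2 h1)
    linarith
  -- (2)
  have hF : ∀ (M : ℕ), 0 < M → ∀ j p, ‖F (T j) (K j) M p‖ ≤ 2 * n := by
    intro M hM0 j p
    obtain ⟨v, I, hI, hIM, hper, hint, hvn, hv⟩ := hM M hM0
    have h1 := hv j p
    have h2 : ‖(v p : ℂ)‖ ≤ n := by rw [Complex.norm_real]; exact hvn p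
    have h3 : n * del e j ≤ n * 1 := mul_le_mul_of_nonneg_left (hdel j).2.1 hn
    calc ‖F (T j) (K j) M p‖ = ‖(F (T j) (K j) M p - (v p : ℂ)) + (v p : ℂ)‖ := by
          rw [sub_add_cancel]
      _ ≤ ‖F (T j) (K j) M p - (v p : ℂ)‖ + ‖(v p : ℂ)‖ := norm_add_le _ _
      _ ≤ 2 * n := by linarith
  have hT : ∀ j, ∀ k ∈ Finset.Icc (-(K j : ℤ)) (K j), ‖T j k‖ ≤ 2 * n := fun j =>
    coeff_bound hTRI (T j) (K j) (2 * n) (by linarith) (hF _ (by omega) j)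
  -- (3)
  obtain ⟨M0, hM0, hch⟩ := hCHO e n C r R he he1 hn hC
  have hconst : ∀ M : ℕ, M0 ≤ M → ∃ v : ℤ → ℝ, (∀ p, v p = σ) ∧
      ∀ j p, ‖F (T j) (K j) M p - (v p : ℂ)‖ ≤ n * del e j := by
    intro M hMM
    have hMpos : 0 < M := lt_of_lt_of_le hM0 hMM
    have hMr : (0 : ℝ) < M := by exact_mod_cast hMpos
    obtain ⟨v, I, hI, hIM, hper, hint, hvn, hv⟩ := hM M hMpos
    obtain ⟨j, -, hj⟩ := hch M hMM
    refine ⟨v, fun p => ?_, hv⟩
    rw [← hv0 M v hv]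
    refine hDIF M R I v hMpos hI hper hint (fun p => ?_) p
    have hKr : (0 : ℝ) ≤ (K j : ℝ) := Nat.cast_nonneg _
    have hp : 0 < Real.pi := Real.pi_pos
    have hd0 : 0 ≤ del e j := (hdel j).1
    have hb : |(fwdDiff (1 : ℤ))^[R + 1] v p| ≤ 2 ^ (R + 1) * (n * del e j)
        + (2 * (C * ((3 : ℝ) ^ j) ^ r) + 1) * (2 * n) *
          (2 * Real.pi * (C * ((3 : ℝ) ^ j) ^ r) / M) ^ (R + 1) := by
      have e1 : (fun p => (v p : ℂ)) = (fun p => (v p : ℂ) - F (T j) (K j) M p) + F (T j) (K j) M := by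
        funext q; simp
      have e2 : ‖(fwdDiff (1 : ℤ))^[R + 1] (fun p => (v p : ℂ) - F (T j) (K j) M p) p‖
          ≤ 2 ^ (R + 1) * (n * del e j) := by
        refine fwdDiff_bound _ _ (fun q => ?_) _ _
        rw [norm_sub_rev]
        exact hv j q
      have e3 : ‖(fwdDiff (1 : ℤ))^[R + 1] (F (T j) (K j) M) p‖
          ≤ (2 * K j + 1) * (2 * n) * (2 * Real.pi * K j / M) ^ (R + 1) :=
        (hTRI (T j) (K j) M (R + 1) (2 * n) hMpos (by linarith)).1 (hT j) p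
      have e4 : (2 * (K j : ℝ) + 1) * (2 * n) * (2 * Real.pi * K j / M) ^ (R + 1)
          ≤ (2 * (C * ((3 : ℝ) ^ j) ^ r) + 1) * (2 * n) *
          (2 * Real.pi * (C * ((3 : ℝ) ^ j) ^ r) / M) ^ (R + 1) := by
        have := hK j
        gcongr
      calc |(fwdDiff (1 : ℤ))^[R + 1] v p| = ‖(((fwdDiff (1 : ℤ))^[R + 1] v p : ℝ) : ℂ)‖ := by
            rw [Complex.norm_real]; rfl
        _ = ‖(fwdDiff (1 : ℤ))^[R + 1] (fun p => (v p : ℂ)) p‖ := by rw [fwdDiff_ofReal]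
        _ = ‖(fwdDiff (1 : ℤ))^[R + 1] (fun p => (v p : ℂ) - F (T j) (K j) M p) p
              + (fwdDiff (1 : ℤ))^[R + 1] (F (T j) (K j) M) p‖ := by
            rw [e1, fwdDiff_iter_add]; rfl
        _ ≤ _ := (norm_add_le _ _).trans (add_le_add e2 (e3.trans e4))
    calc (I : ℝ) * |(fwdDiff (1 : ℤ))^[R + 1] v p|
        ≤ C * (M : ℝ) ^ R * (2 ^ (R + 1) * (n * del e j)
        + (2 * (C * ((3 : ℝ) ^ j) ^ r) + 1) * (2 * n) *
          (2 * Real.pi * (C * ((3 : ℝ) ^ j) ^ r) / M) ^ (R + 1)) :=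
          mul_le_mul hIM hb (abs_nonneg _) (by positivity)
      _ < 1 := hj
  -- (4)
  intro j
  obtain ⟨v, hvσ, hv⟩ := hconst (M0 + (2 * K j + 1)) (by omega)
  set M := M0 + (2 * K j + 1) with hMdef
  have hMpos : 0 < M := by omega
  have hMr : (0 : ℝ) < M := by exact_mod_cast hMpos
  have h0 : T j 0 = (1 / M : ℂ) * ∑ p ∈ Finset.range M, F (T j) (K j) M p := by
    have := (hTRI (T j) (K j) M 0 0 hMpos le_rfl).2 (by omega) 0
      (Finset.mem_Icc.2 ⟨by simp, by simp⟩)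
    rw [this]
    congr 1
    refine Finset.sum_congr rfl fun p _ => ?_
    simp [ex_zero]
  have hMc : (M : ℂ) ≠ 0 := by exact_mod_cast hMpos.ne'
  have h1 : T j 0 - (σ : ℂ) = (1 / M : ℂ) * ∑ p ∈ Finset.range M, (F (T j) (K j) M p - (σ : ℂ)) := by
    rw [Finset.sum_sub_distrib, mul_sub, ← h0]
    congr 1
    simp only [Finset.sum_const, Finset.card_range, nsmul_eq_mul]
    field_simp
  rw [h1, norm_mul]
  have h2 : ‖∑ p ∈ Finset.range M, (F (T j) (K j) M p - (σ : ℂ))‖ ≤ (M : ℝ) * (n * del e j) := by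
    calc _ ≤ ∑ p ∈ Finset.range M, ‖F (T j) (K j) M p - (σ : ℂ)‖ := norm_sum_le _ _
      _ ≤ ∑ _p ∈ Finset.range M, n * del e j := by
          refine Finset.sum_le_sum fun p _ => ?_
          have := hv j p
          rwa [hvσ] at this
      _ = (M : ℝ) * (n * del e j) := by simp
  have h3 : ‖(1 / M : ℂ)‖ = (M : ℝ)⁻¹ := by
    rw [norm_div, norm_one, Complex.norm_natCast, one_div]
  rw [h3]
  calc (M : ℝ)⁻¹ * _ ≤ (M : ℝ)⁻¹ * ((M : ℝ) * (n * del e j)) :=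
        mul_le_mul_of_nonneg_left h2 (by positivity)
    _ = n * del e j := by field_simp

end Pool.Agent.Lib.MP8a3537.SG
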