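import Pool.Agent.Lib.MP_8a3537_gt.SG.Spec

/-!
# MP_8a3537_gt, signatures, module DIF
-/

set_option autoImplicit false

namespace Pool.Agent.Lib.MP8a3537.SG
namespace DIFM

lemma const_of_diff (w : ℤ → ℝ) (h : ∀ p, fwdDiff (1 : ℤ) w p = 0) : ∀ p, w p = w 0 := by
  have h1 : ∀ p, w (p + 1) = w p := fun p => by
    have := h p
    rw [fwdDiff] at this
    linarith
  intro p
  induction p using Int.induction_on with
  | zero => rfl
  | succ i ih => rw [h1, ih]
  | pred i ih =>
    have := h1 (-(i : ℤ) - 1)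
    rw [sub_add_cancel] at this
    rw [← this, ih]

lemma zero_of_const (M : ℕ) (hM : 0 < M) (w : ℤ → ℝ) (hp : ∀ p, w (p + M) = w p) (c : ℝ)
    (h : ∀ p, fwdDiff (1 : ℤ) w p = c) : c = 0 := by
  have h1 : ∀ p, w (p + 1) = w p + c := fun p => by
    have := h p
    rw [fwdDiff] at this
    linarith
  have h2 : ∀ n : ℕ, w n = w 0 + n * c := by
    intro n
    induction n with
    | zero => simp
    | succ n ih => push_cast; rw [h1, ih]; ring
  have h3 := h2 M
  have h4 := hp 0
  rw [zero_add] at h4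
  rw [h4] at h3
  have h5 : (M : ℝ) * c = 0 := by linarith
  rcases mul_eq_zero.1 h5 with h6 | h6
  · exact absurd h6 (by positivity)
  · exact h6

lemma per (M : ℕ) (v : ℤ → ℝ) (hp : ∀ p, v (p + M) = v p) (k : ℕ) :
    ∀ p, (fwdDiff (1 : ℤ))^[k] v (p + M) = (fwdDiff (1 : ℤ))^[k] v p := by
  induction k with
  | zero => exact hp
  | succ k ih =>
    intro p
    rw [Function.iterate_succ_apply', fwdDiff, fwdDiff, ih, add_right_comm, ih]

lemma int (I : ℕ) (v : ℤ → ℝ) (hz : ∀ p, ∃ z : ℤ, (I : ℝ) * v p = z) (k : ℕ) :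
    ∀ p, ∃ z : ℤ, (I : ℝ) * (fwdDiff (1 : ℤ))^[k] v p = z := by
  induction k with
  | zero => exact hz
  | succ k ih =>
    intro p
    obtain ⟨a, ha⟩ := ih p
    obtain ⟨b, hb⟩ := ih (p + 1)
    refine ⟨b - a, ?_⟩
    rw [Function.iterate_succ_apply', fwdDiff, mul_sub, ha, hb]
    push_cast
    rfl

end DIFM

open DIFM in
theorem specDIF : SpecDIF := by
  intro M R I v hM hI hp hz hs
  have key : ∀ k : ℕ, k ≤ R → ∀ p, (fwdDiff (1 : ℤ))^[R + 1 - k] v p = 0 := by
    intro k
    induction k with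
    | zero =>
      intro _ p
      obtain ⟨z, hz⟩ := int I v hz (R + 1) p
      have h1 := hs p
      rw [Nat.sub_zero]
      rw [← abs_of_nonneg (Nat.cast_nonneg I : (0 : ℝ) ≤ I), ← abs_mul, hz] at h1
      have h2 : |z| < 1 := by exact_mod_cast h1
      have h3 : z = 0 := Int.abs_lt_one_iff.1 h2
      rw [h3] at hz
      push_cast at hz
      rcases mul_eq_zero.1 hz with h4 | h4
      · exact absurd h4 (by positivity)
      · exact h4
    | succ k ih =>
      intro hk
      have h1 := ih (by omega)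
      have e : R + 1 - k = (R - k) + 1 := by omega
      have e2 : R + 1 - (k + 1) = (R - (k + 1)) + 1 := by omega
      have e3 : R - k = (R - (k + 1)) + 1 := by omega
      rw [e2]
      rw [e, e3] at h1
      have h2 : ∀ p, fwdDiff (1 : ℤ) ((fwdDiff (1 : ℤ))^[(R - (k + 1)) + 1] v) p = 0 := by
        intro p
        rw [← Function.iterate_succ_apply' (fwdDiff (1 : ℤ))]
        exact h1 p
      have h3 := const_of_diff _ h2
      have h4 := zero_of_const M hM ((fwdDiff (1 : ℤ))^[R - (k + 1)] v) (per M v hp _)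
        ((fwdDiff (1 : ℤ))^[(R - (k + 1)) + 1] v 0) (fun p => by
          rw [← Function.iterate_succ_apply' (fwdDiff (1 : ℤ))]
          exact h3 p)
      intro p
      rw [h3, h4]
  have h1 := key R le_rfl
  rw [Nat.add_sub_cancel_left, Function.iterate_one] at h1
  exact const_of_diff v h1

end Pool.Agent.Lib.MP8a3537.SG
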