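import Pool.Agent.Lib.MP_8a3537_gt.SG.SpecN

/-!
# DIS: polynomial functions give polynomial distortion
-/

namespace Pool.Agent.Lib.MP8a3537.SG

open scoped BigOperators Pointwise ComplexOrder

namespace DISM

theorem words_finite {N : Type} [Group N] (T : Set N) (hT : T.Finite) (j : ℕ) :
    (words T j).Finite := by
  induction j with
  | zero =>
    refine (Set.finite_singleton (1 : ZG N)).subset ?_
    rintro x ⟨l, hl, -, rfl⟩
    rw [List.length_eq_zero_iff] at hl
    subst hl
    simp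
  | succ j ih =>
    refine (Set.Finite.image2 (fun t x => dg t * x) hT ih).subset ?_
    rintro x ⟨l, hl, hT', rfl⟩
    cases l with
    | nil => simp at hl
    | cons t l =>
      refine ⟨t, hT' t (by simp), (l.map dg).prod, ⟨l, by simpa using hl, fun s hs => hT' s (by simp [hs]), rfl⟩, ?_⟩
      simp

theorem words_pw (hPWM : SpecPWM) {N : Type} [Group N] (T : Set N) (j : ℕ) :
    ∀ x ∈ words T j, x ∈ pw N j := by
  induction j with
  | zero =>
    intro x _
    show x ∈ (⊤ : Submodule ℤ (ZG N))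
    trivial
  | succ j ih =>
    rintro x ⟨l, hl, hT', rfl⟩
    cases l with
    | nil => simp at hl
    | cons t l =>
      have h1 : (l.map dg).prod ∈ pw N j :=
        ih _ ⟨l, by simpa using hl, fun s hs => hT' s (by simp [hs]), rfl⟩
      have h2 : dg t * (l.map dg).prod ∈ pw N 1 * pw N j :=
        Submodule.mul_mem_mul ((hPWM N).2.2 t) h1
      rw [(hPWM N).1, Nat.add_comm] at h2
      simpa using h2

theorem words_append {N : Type} [Group N] (T : Set N) (j : ℕ) (x : ZG N) (hx : x ∈ words T j)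
    (t : N) (ht : t ∈ T) : x * dg t ∈ words T (j + 1) := by
  obtain ⟨l, hl, hT', rfl⟩ := hx
  refine ⟨l ++ [t], by simp [hl], ?_, by simp⟩
  intro s hs
  rw [List.mem_append] at hs
  rcases hs with hs | hs
  · exact hT' s hs
  · rw [List.mem_singleton] at hs
    rw [hs]
    exact ht

theorem zpow_val {N : Type} [Group N] (c : N) (h : ZG N →ₗ[ℤ] ℤ) (e : ℤ)
    (he : ∀ u : N, h (MonoidAlgebra.single (u * c) 1) = h (MonoidAlgebra.single u 1) + e) (k : ℤ) :
    h (MonoidAlgebra.single (c ^ k) 1) = h (MonoidAlgebra.single 1 1) + k * e := by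
  induction k using Int.induction_on with
  | zero => simp
  | succ i ih => rw [zpow_add_one, he, ih]; ring
  | pred i ih =>
    have h1 := he (c ^ (-(i : ℤ) - 1))
    rw [← zpow_add_one, sub_add_cancel, ih] at h1
    have h2 : h (MonoidAlgebra.single (c ^ (-(i : ℤ) - 1)) 1) =
      h (MonoidAlgebra.single 1 1) + -(i : ℤ) * e - e := by linarith
    rw [h2]
    ring

open Classical in
theorem main (hPWM : SpecPWM) {N : Type} [Group N] (d : ℕ) (h : ZG N →ₗ[ℤ] ℤ)
    (hpol : IsPol d h) (F : Finset N) (B : ℤ) (hB0 : 0 ≤ B)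
    (hB : ∀ j ≤ d, ∀ x ∈ words (F : Set N) j, |h x| ≤ B) :
    ∀ L : ℕ, ∀ j ≤ d + 1, ∀ x ∈ words (F : Set N) j, ∀ g ∈ F ^ L,
      |h (x * MonoidAlgebra.single g 1)| ≤ B * ((L : ℤ) + 1) ^ (d + 1 - j) := by
  intro L
  induction L with
  | zero =>
    intro j hj x hx g hg
    rw [pow_zero, Finset.mem_one] at hg
    subst hg
    have h1 : x * MonoidAlgebra.single (1 : N) (1 : ℤ) = x := by
      rw [← MonoidAlgebra.one_def, mul_one]
    rw [h1]
    simp only [Nat.cast_zero, zero_add, one_pow, mul_one]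
    rcases Nat.lt_or_ge j (d + 1) with hlt | hge
    · exact hB j (by omega) x hx
    · have hjd : j = d + 1 := by omega
      subst hjd
      rw [hpol x (words_pw hPWM _ _ x hx)]
      simpa using hB0
  | succ L ih =>
    intro j hj x hx g hg
    rcases Nat.lt_or_ge j (d + 1) with hlt | hge
    · rw [pow_succ', Finset.mem_mul] at hg
      obtain ⟨t, ht, g', hg', rfl⟩ := hg
      have h1 : x * MonoidAlgebra.single (t * g') (1 : ℤ) =
          (x * dg t) * MonoidAlgebra.single g' 1 + x * MonoidAlgebra.single g' 1 := by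
        have h2 : (MonoidAlgebra.single (t * g') (1 : ℤ) : ZG N) =
            MonoidAlgebra.single t 1 * MonoidAlgebra.single g' 1 := by
          rw [MonoidAlgebra.single_mul_single, mul_one]
        rw [h2, dg, mul_sub, sub_mul, mul_one, mul_assoc]
        abel
      rw [h1, map_add]
      have h3 := ih (j + 1) (by omega) (x * dg t) (words_append _ j x hx t (by exact_mod_cast ht)) g' hg'
      have h4 := ih j (by omega) x hx g' hg'
      have h5 : d + 1 - j = (d + 1 - (j + 1)) + 1 := by omega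
      rw [h5] at h4 ⊢
      set n := d + 1 - (j + 1)
      have hL : (0 : ℤ) ≤ (L : ℤ) + 1 := by positivity
      have h6 : ((L : ℤ) + 1) ^ (n + 1) + ((L : ℤ) + 1) ^ n ≤ (((L + 1 : ℕ) : ℤ) + 1) ^ (n + 1) := by
        have h7 : ((L : ℤ) + 1) ^ n ≤ (((L + 1 : ℕ) : ℤ) + 1) ^ n := by
          apply pow_le_pow_left₀ hL
          push_cast
          linarith
        calc ((L : ℤ) + 1) ^ (n + 1) + ((L : ℤ) + 1) ^ n
            = ((L : ℤ) + 1) ^ n * (((L + 1 : ℕ) : ℤ) + 1) := by push_cast; ring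
          _ ≤ (((L + 1 : ℕ) : ℤ) + 1) ^ n * (((L + 1 : ℕ) : ℤ) + 1) := by
              apply mul_le_mul_of_nonneg_right h7
              push_cast
              linarith
          _ = _ := by ring
      have h8 := abs_add_le (h (x * dg t * MonoidAlgebra.single g' 1)) (h (x * MonoidAlgebra.single g' 1))
      have h9 := mul_le_mul_of_nonneg_left h6 hB0
      linarith
    · have hjd : j = d + 1 := by omega
      subst hjd
      have h1 : x * MonoidAlgebra.single g 1 ∈ pw N (d + 1) * pw N 0 :=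
        Submodule.mul_mem_mul (words_pw hPWM _ _ x hx) (show _ ∈ (⊤ : Submodule ℤ (ZG N)) from trivial)
      rw [(hPWM N).1, Nat.add_zero] at h1
      rw [hpol _ h1]
      simpa using hB0

end DISM

open DISM in
theorem specDIS (hPWM : SpecPWM) : SpecDIS := by
  intro N _ c d h e hpol he0 he F
  classical
  -- the bound `B`
  have hfin : (⋃ j ∈ Finset.range (d + 1), words (F : Set N) j).Finite :=
    Set.Finite.biUnion (Finset.finite_toSet _) fun j _ => words_finite _ (Finset.finite_toSet F) j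
  obtain ⟨B0, hB0⟩ := (hfin.image fun x => |h x|).bddAbove
  have hB1 : ∀ j ≤ d, ∀ x ∈ words (F : Set N) j, |h x| ≤ B0 := by
    intro j hj x hx
    apply hB0
    refine ⟨x, ?_, rfl⟩
    simp only [Set.mem_iUnion]
    exact ⟨j, by simp; omega, hx⟩
  have hone : (1 : ZG N) ∈ words (F : Set N) 0 := ⟨[], rfl, by simp, by simp⟩
  have hBn : 0 ≤ B0 := (abs_nonneg _).trans (hB1 0 (Nat.zero_le _) 1 hone)
  have hm := main hPWM d h hpol F B0 hBn hB1
  refine ⟨2 * B0 * 2 ^ (d + 1), d + 1, ?_, ?_⟩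
  · have : (0 : ℝ) ≤ (B0 : ℝ) := by exact_mod_cast hBn
    positivity
  · intro L k hL hk
    have h1 : |h (1 * MonoidAlgebra.single (c ^ k) 1)| ≤ B0 * ((L : ℤ) + 1) ^ (d + 1 - 0) := by
      refine hm L 0 (Nat.zero_le _) 1 hone (c ^ k) ?_
      convert hk
    rw [one_mul, zpow_val c h e he, Nat.sub_zero] at h1
    have h2 : |h (MonoidAlgebra.single 1 1)| ≤ B0 := by
      have := hB1 0 (Nat.zero_le _) 1 hone
      rwa [MonoidAlgebra.one_def] at this
    have h3 : |k| ≤ |k * e| := by
      rw [abs_mul]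
      have : 1 ≤ |e| := Int.one_le_abs he0
      nlinarith [abs_nonneg k]
    have h4 : |k * e| ≤ |h (MonoidAlgebra.single 1 1) + k * e| + |h (MonoidAlgebra.single 1 1)| := by
      have := abs_sub (h (MonoidAlgebra.single 1 1) + k * e) (h (MonoidAlgebra.single 1 1))
      have h5 : h (MonoidAlgebra.single 1 1) + k * e - h (MonoidAlgebra.single 1 1) = k * e := by ring
      rw [h5] at this
      exact this
    have h6 : |k| ≤ 2 * B0 * ((L : ℤ) + 1) ^ (d + 1) := by
      have h7 : (1 : ℤ) ≤ ((L : ℤ) + 1) ^ (d + 1) := one_le_pow₀ (by linarith [Int.natCast_nonneg L])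
      nlinarith
    have h8 : (|k| : ℝ) ≤ 2 * B0 * ((L : ℝ) + 1) ^ (d + 1) := by exact_mod_cast h6
    have hL' : (1 : ℝ) ≤ L := by exact_mod_cast hL
    have h9 : ((L : ℝ) + 1) ^ (d + 1) ≤ (2 * L) ^ (d + 1) :=
      pow_le_pow_left₀ (by linarith) (by linarith) _
    have hBr : (0 : ℝ) ≤ 2 * (B0 : ℝ) := by
      have : (0 : ℝ) ≤ (B0 : ℝ) := by exact_mod_cast hBn
      linarith
    calc |(k : ℝ)| ≤ 2 * B0 * ((L : ℝ) + 1) ^ (d + 1) := h8
      _ ≤ 2 * B0 * (2 * L) ^ (d + 1) := mul_le_mul_of_nonneg_left h9 hBr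
      _ = 2 * B0 * 2 ^ (d + 1) * (L : ℝ) ^ (d + 1) := by rw [mul_pow]; ring

end Pool.Agent.Lib.MP8a3537.SG
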