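import Pool.Agent.Lib.MP_8a3537_gt.SG.SpecN

/-!
# EXT: extension of polynomial functions from the kernel of a map to the integers
-/

namespace Pool.Agent.Lib.MP8a3537.SG

open scoped BigOperators Pointwise ComplexOrder commutatorElement

namespace EXTM

/-- linear extension of a map of sets -/
noncomputable def ml {N K : Type} (p : N → K) : MonoidAlgebra ℤ N →ₗ[ℤ] MonoidAlgebra ℤ K where
  toFun := MonoidAlgebra.mapDomain p
  map_add' := MonoidAlgebra.mapDomain_add p
  map_smul' := fun a x => by simp [MonoidAlgebra.mapDomain_smul]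

lemma ml_single {N K : Type} (p : N → K) (n : N) (b : ℤ) :
    ml p (MonoidAlgebra.single n b) = MonoidAlgebra.single (p n) b := by
  simp [ml]

lemma lin_single {K : Type} [Group K] (θ : K →* K) (k : K) (b : ℤ) :
    lin θ (MonoidAlgebra.single k b) = MonoidAlgebra.single (θ k) b := by
  simp [lin, MonoidAlgebra.lift_single]

lemma lin_comp {K : Type} [Group K] (θ θ' : K →* K) (h : ∀ k, θ (θ' k) = k) (z : ZG K) :
    lin θ (lin θ' z) = z := by
  induction z using MonoidAlgebra.induction_linear with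
  | zero => simp
  | add x y hx hy => rw [map_add, map_add, hx, hy]
  | single k b => rw [lin_single, lin_single, h]

lemma dg_mem {N : Type} [Group N] (n : N) : dg n ∈ aI N :=
  Submodule.subset_span ⟨n, rfl⟩

lemma mul_dg_mem {N : Type} [Group N] (j : ℕ) (z : ZG N) (hz : z ∈ pw N j) (n : N) :
    z * dg n ∈ pw N (j + 1) :=
  Submodule.mul_mem_mul hz (dg_mem n)

lemma lin_dg {K : Type} [Group K] (θ : K →* K) (k : K) : lin θ (dg k) = dg (θ k) := by
  rw [dg, map_sub, lin_single, map_one, dg]

lemma lin_aI {K : Type} [Group K] (θ : K →* K) (z : ZG K) (hz : z ∈ aI K) : lin θ z ∈ aI K := by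
  induction hz using Submodule.span_induction with
  | mem x hx =>
    obtain ⟨k, rfl⟩ := hx
    show lin θ (dg k) ∈ aI K
    rw [lin_dg]
    exact dg_mem _
  | zero => rw [map_zero]; exact Submodule.zero_mem _
  | add x y _ _ hx hy => rw [map_add]; exact Submodule.add_mem _ hx hy
  | smul a x _ hx => rw [map_smul]; exact Submodule.smul_mem _ _ hx

lemma lin_pw {K : Type} [Group K] (θ : K →* K) (j : ℕ) : ∀ z ∈ pw K j, lin θ z ∈ pw K j := by
  induction j with
  | zero => intro z _; exact Submodule.mem_top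
  | succ j ih =>
    intro z hz
    change z ∈ pw K j * aI K at hz
    change lin θ z ∈ pw K j * aI K
    induction hz using Submodule.mul_induction_on' with
    | mem_mul_mem m hm n hn =>
      rw [map_mul]
      exact Submodule.mul_mem_mul (ih m hm) (lin_aI θ n hn)
    | add x hx y hy h1 h2 => rw [map_add]; exact Submodule.add_mem _ h1 h2

lemma dlin_pw {K : Type} [Group K] (θ : K →* K) (j : ℕ) (z : ZG K) (hz : z ∈ pw K j) :
    dlin θ z ∈ pw K j :=
  Submodule.sub_mem _ (lin_pw θ j z hz) hz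

lemma dlin_pow_pw {K : Type} [Group K] (θ : K →* K) (j : ℕ) (i : ℕ) : ∀ z ∈ pw K j,
    ((dlin θ) ^ i) z ∈ pw K j := by
  induction i with
  | zero => intro z hz; simpa using hz
  | succ i ih =>
    intro z hz
    rw [pow_succ']
    exact dlin_pw θ j _ (ih z hz)

lemma dlin_apply {K : Type} [Group K] (θ : K →* K) (z : ZG K) : dlin θ z = lin θ z - z := rfl

/-- `D` commutes with every `lin θ'` commuting with `lin θ` -/
lemma dlin_comm {K : Type} [Group K] (θ θ' : K →* K) (h : ∀ z, lin θ' (lin θ z) = lin θ (lin θ' z))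
    (i : ℕ) : ∀ z, lin θ' (((dlin θ) ^ i) z) = ((dlin θ) ^ i) (lin θ' z) := by
  induction i with
  | zero => intro z; rfl
  | succ i ih =>
    intro z
    rw [pow_succ']
    show lin θ' (dlin θ (((dlin θ) ^ i) z)) = dlin θ (((dlin θ) ^ i) (lin θ' z))
    rw [dlin_apply, dlin_apply, map_sub, h, ih]

/-- stability under `θ`, `θ⁻¹` and right multiplication -/
def Good {K : Type} [Group K] (θ θ' : K →* K) (U : Submodule ℤ (ZG K)) : Prop :=
  (∀ z ∈ U, lin θ z ∈ U) ∧ (∀ z ∈ U, lin θ' z ∈ U) ∧
    ∀ z ∈ U, ∀ k : K, z * MonoidAlgebra.single k 1 ∈ U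

/-- the filtration -/
noncomputable def fil {K : Type} [Group K] (θ : K →* K) (j i : ℕ) : Submodule ℤ (ZG K) :=
  pw K (j + 1) ⊔ (pw K j).map ((dlin θ) ^ i)

lemma pw_le_fil {K : Type} [Group K] (θ : K →* K) (j i : ℕ) : pw K (j + 1) ≤ fil θ j i :=
  le_sup_left

lemma fil_le {K : Type} [Group K] (hPWM : SpecPWM) (θ : K →* K) (j i : ℕ) :
    fil θ j i ≤ pw K j := by
  refine sup_le ((hPWM K).2.1 j) ?_
  rintro _ ⟨z, hz, rfl⟩
  exact dlin_pow_pw θ j i z hz

lemma mul_single {K : Type} [Group K] (z : ZG K) (k : K) :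
    z * MonoidAlgebra.single k 1 = z + z * dg k := by
  rw [dg, mul_sub, mul_one]; abel

lemma fil_good {K : Type} [Group K] (hPWM : SpecPWM) (θ θ' : K →* K) (h1 : ∀ k, θ (θ' k) = k)
    (h2 : ∀ k, θ' (θ k) = k) (j i : ℕ) : Good θ θ' (fil θ j i) := by
  have key : ∀ τ : K →* K, (∀ z, lin τ (lin θ z) = lin θ (lin τ z)) →
      ∀ z ∈ fil θ j i, lin τ z ∈ fil θ j i := by
    intro τ hτ z hz
    obtain ⟨a, ha, b, ⟨y, hy, rfl⟩, rfl⟩ := Submodule.mem_sup.1 hz
    rw [map_add]
    refine Submodule.add_mem _ (pw_le_fil θ j i (lin_pw τ _ a ha)) ?_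
    rw [dlin_comm θ τ hτ]
    exact Submodule.mem_sup_right ⟨_, lin_pw τ _ y hy, rfl⟩
  refine ⟨key θ fun z => rfl, key θ' fun z => ?_, fun z hz k => ?_⟩
  · rw [lin_comp θ' θ h2, lin_comp θ θ' h1]
  · rw [mul_single]
    exact Submodule.add_mem _ hz (pw_le_fil θ j i (mul_dg_mem j z (fil_le hPWM θ j i hz) k))

lemma fil_step {K : Type} [Group K] (hPWM : SpecPWM) (θ : K →* K) (j i : ℕ) (z : ZG K)
    (hz : z ∈ fil θ j i) : lin θ z - z ∈ fil θ j (i + 1) ∧ ∀ k, z * dg k ∈ fil θ j (i + 1) := by
  constructor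
  · obtain ⟨a, ha, b, ⟨y, hy, rfl⟩, rfl⟩ := Submodule.mem_sup.1 hz
    rw [← dlin_apply, map_add]
    refine Submodule.add_mem _ (pw_le_fil θ j (i + 1) (dlin_pw θ _ a ha)) ?_
    refine Submodule.mem_sup_right ⟨y, hy, ?_⟩
    rw [pow_succ']
    rfl
  · intro k
    exact pw_le_fil θ j (i + 1) (mul_dg_mem j z (fil_le hPWM θ j i hz) k)

section

variable {N : Type} [Group N] (f : N →* Multiplicative ℤ) (x : N)

/-- the projection `n -> x^(-f n) n` -/
def pr (hx : f x = Multiplicative.ofAdd 1) (n : N) : f.ker :=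
  ⟨x ^ (-(Multiplicative.toAdd (f n))) * n, by
    rw [MonoidHom.mem_ker, map_mul, map_zpow, hx, ← ofAdd_zsmul]
    have : f n = Multiplicative.ofAdd (Multiplicative.toAdd (f n)) := rfl
    rw [this, ← ofAdd_add]
    simp⟩

/-- conjugation -/
def th : f.ker →* f.ker := (MulAut.conjNormal x⁻¹).toMonoidHom

/-- conjugation -/
def th' : f.ker →* f.ker := (MulAut.conjNormal x).toMonoidHom

lemma th_coe (k : f.ker) : (th f x k : N) = x⁻¹ * k * x := by
  show (MulAut.conjNormal x⁻¹ k : N) = _
  rw [MulAut.conjNormal_apply, inv_inv]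

lemma th'_coe (k : f.ker) : (th' f x k : N) = x * k * x⁻¹ := by
  show (MulAut.conjNormal x k : N) = _
  rw [MulAut.conjNormal_apply]

lemma th_th' (k : f.ker) : th f x (th' f x k) = k := by
  apply Subtype.ext; rw [th_coe, th'_coe]; group

lemma th'_th (k : f.ker) : th' f x (th f x k) = k := by
  apply Subtype.ext; rw [th'_coe, th_coe]; group

variable (hx : f x = Multiplicative.ofAdd 1)

lemma pr_coe (n : N) : (pr f x hx n : N) = x ^ (-(Multiplicative.toAdd (f n))) * n := rfl

lemma pr_mul_ker (n : N) (k : f.ker) : pr f x hx (n * k) = pr f x hx n * k := by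
  apply Subtype.ext
  rw [Subgroup.coe_mul, pr_coe, pr_coe, map_mul, MonoidHom.mem_ker.1 k.2, mul_one, mul_assoc]

lemma pr_mul_x (n : N) : pr f x hx (n * x) = th f x (pr f x hx n) := by
  apply Subtype.ext
  rw [pr_coe, th_coe, pr_coe, map_mul, hx, toAdd_mul, toAdd_ofAdd]
  group

lemma pr_mul_x' (n : N) : pr f x hx (n * x⁻¹) = th' f x (pr f x hx n) := by
  apply Subtype.ext
  rw [pr_coe, th'_coe, pr_coe, map_mul, map_inv, hx, toAdd_mul, toAdd_inv, toAdd_ofAdd]
  group

lemma ml_mul_ker (y : ZG N) (k : f.ker) :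
    ml (pr f x hx) (y * MonoidAlgebra.single (k : N) 1)
      = ml (pr f x hx) y * MonoidAlgebra.single k 1 := by
  induction y using MonoidAlgebra.induction_linear with
  | zero => simp
  | add a b ha hb => rw [add_mul, map_add, ha, hb, map_add, add_mul]
  | single n b =>
    rw [MonoidAlgebra.single_mul_single, ml_single, ml_single, MonoidAlgebra.single_mul_single,
      pr_mul_ker]

lemma ml_mul_x (y : ZG N) : ml (pr f x hx) (y * MonoidAlgebra.single x 1)
      = lin (th f x) (ml (pr f x hx) y) := by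
  induction y using MonoidAlgebra.induction_linear with
  | zero => simp
  | add a b ha hb => rw [add_mul, map_add, ha, hb, map_add, map_add]
  | single n b =>
    rw [MonoidAlgebra.single_mul_single, ml_single, ml_single, lin_single, mul_one, pr_mul_x]

lemma ml_mul_x' (y : ZG N) : ml (pr f x hx) (y * MonoidAlgebra.single x⁻¹ 1)
      = lin (th' f x) (ml (pr f x hx) y) := by
  induction y using MonoidAlgebra.induction_linear with
  | zero => simp
  | add a b ha hb => rw [add_mul, map_add, ha, hb, map_add, map_add]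
  | single n b =>
    rw [MonoidAlgebra.single_mul_single, ml_single, ml_single, lin_single, mul_one, pr_mul_x']

include hx in
/-- a submonoid containing `x`, `x⁻¹` and the kernel is everything -/
lemma closure_all (S : Submonoid N) (h1 : x ∈ S) (h2 : x⁻¹ ∈ S) (h3 : ∀ k : f.ker, (k : N) ∈ S)
    (n : N) : n ∈ S := by
  have hz : ∀ a : ℤ, x ^ a ∈ S := by
    intro a
    cases a with
    | ofNat a => simpa using S.pow_mem h1 a
    | negSucc a =>
      rw [zpow_negSucc, ← inv_pow]
      exact S.pow_mem h2 _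
  have : n = x ^ (Multiplicative.toAdd (f n)) * (pr f x hx n : N) := by
    rw [pr_coe]; group
  rw [this]
  exact S.mul_mem (hz _) (h3 _)

/-- right multiplication by elements of `N` preserves good submodules -/
lemma good_mul (U : Submodule ℤ (ZG f.ker)) (hU : Good (th f x) (th' f x) U) (n : N) :
    ∀ y, ml (pr f x hx) y ∈ U → ml (pr f x hx) (y * MonoidAlgebra.single n 1) ∈ U := by
  let S : Submonoid N :=
    { carrier := {n | ∀ y, ml (pr f x hx) y ∈ U →
        ml (pr f x hx) (y * MonoidAlgebra.single n 1) ∈ U}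
      one_mem' := fun y hy => by
        have : y * MonoidAlgebra.single (1 : N) (1 : ℤ) = y := mul_one y
        rw [this]; exact hy
      mul_mem' := fun {a b} ha hb y hy => by
        have : y * MonoidAlgebra.single (a * b) (1 : ℤ)
            = (y * MonoidAlgebra.single a 1) * MonoidAlgebra.single b 1 := by
          rw [mul_assoc, MonoidAlgebra.single_mul_single, mul_one]
        rw [this]
        exact hb _ (ha y hy) }
  refine closure_all f x hx S (fun y hy => ?_) (fun y hy => ?_) (fun k y hy => ?_) n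
  · rw [ml_mul_x]; exact hU.1 _ hy
  · rw [ml_mul_x']; exact hU.2.1 _ hy
  · rw [ml_mul_ker]; exact hU.2.2 _ hy k

lemma step (U U' : Submodule ℤ (ZG f.ker)) (hU' : Good (th f x) (th' f x) U')
    (h : ∀ z ∈ U, lin (th f x) z - z ∈ U' ∧ ∀ k, z * dg k ∈ U') (n : N) :
    ∀ y, ml (pr f x hx) y ∈ U → ml (pr f x hx) (y * dg n) ∈ U' := by
  let S : Submonoid N :=
    { carrier := {n | ∀ y, ml (pr f x hx) y ∈ U → ml (pr f x hx) (y * dg n) ∈ U'}
      one_mem' := fun y hy => by
        have : dg (1 : N) = 0 := sub_self _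
        rw [this, mul_zero, map_zero]; exact Submodule.zero_mem _
      mul_mem' := fun {a b} ha hb y hy => by
        have : y * dg (a * b) = (y * dg a) * MonoidAlgebra.single b 1 + y * dg b := by
          have e : MonoidAlgebra.single (a * b) (1 : ℤ)
              = MonoidAlgebra.single a 1 * MonoidAlgebra.single b 1 := by
            rw [MonoidAlgebra.single_mul_single, mul_one]
          rw [dg, dg, dg, e]
          noncomm_ring
        rw [this, map_add]
        exact Submodule.add_mem _ (good_mul f x hx U' hU' b _ (ha y hy)) (hb y hy) }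
  refine closure_all f x hx S (fun y hy => ?_) (fun y hy => ?_) (fun k y hy => ?_) n
  · rw [dg, mul_sub, mul_one, map_sub, ml_mul_x]
    exact (h _ hy).1
  · rw [dg, mul_sub, mul_one, map_sub, ml_mul_x']
    have e : lin (th' f x) (ml (pr f x hx) y) - ml (pr f x hx) y
        = -(lin (th' f x) (lin (th f x) (ml (pr f x hx) y) - ml (pr f x hx) y)) := by
      rw [map_sub, lin_comp (th' f x) (th f x) (th'_th f x)]
      abel
    rw [e]
    exact Submodule.neg_mem _ (hU'.2.1 _ (h _ hy).1)
  · have e : y * dg (k : N) = y * MonoidAlgebra.single (k : N) 1 - y := by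
      rw [dg, mul_sub, mul_one]
    rw [e, map_sub, ml_mul_ker]
    have := (h _ hy).2 k
    rwa [dg, mul_sub, mul_one] at this

/-- one step of the filtration -/
lemma step_pw (U U' : Submodule ℤ (ZG f.ker)) (hU' : Good (th f x) (th' f x) U')
    (h : ∀ z ∈ U, lin (th f x) z - z ∈ U' ∧ ∀ k, z * dg k ∈ U') (m : ℕ)
    (hm : ∀ y ∈ pw N m, ml (pr f x hx) y ∈ U) :
    ∀ y ∈ pw N (m + 1), ml (pr f x hx) y ∈ U' := by
  intro y hy
  change y ∈ pw N m * aI N at hy
  induction hy using Submodule.mul_induction_on' with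
  | mem_mul_mem a ha b hb =>
    induction hb using Submodule.span_induction with
    | mem b hb =>
      obtain ⟨n, rfl⟩ := hb
      exact step f x hx U U' hU' h n a (hm a ha)
    | zero => rw [mul_zero, map_zero]; exact Submodule.zero_mem _
    | add b c _ _ hb hc => rw [mul_add, map_add]; exact Submodule.add_mem _ hb hc
    | smul t b _ hb => rw [mul_smul_comm, map_smul]; exact Submodule.smul_mem _ _ hb
  | add a ha b hb h1 h2 => rw [map_add]; exact Submodule.add_mem _ h1 h2

lemma main (hPWM : SpecPWM) (hr : ∀ j, ∃ r : ℕ, ∀ z ∈ pw f.ker j,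
    ((dlin (th f x)) ^ r) z ∈ pw f.ker (j + 1)) (j : ℕ) :
    ∃ m : ℕ, ∀ y ∈ pw N m, ml (pr f x hx) y ∈ pw f.ker j := by
  induction j with
  | zero => exact ⟨0, fun y _ => Submodule.mem_top⟩
  | succ j ih =>
    obtain ⟨m, hm⟩ := ih
    obtain ⟨r, hr⟩ := hr j
    have key : ∀ i, ∀ y ∈ pw N (m + i), ml (pr f x hx) y ∈ fil (th f x) j i := by
      intro i
      induction i with
      | zero =>
        intro y hy
        exact Submodule.mem_sup_right ⟨_, hm y hy, rfl⟩
      | succ i ihi =>
        exact step_pw f x hx _ _ (fil_good hPWM _ _ (th_th' f x) (th'_th f x) j (i + 1))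
          (fun z hz => fil_step hPWM _ j i z hz) (m + i) ihi
    refine ⟨m + r, fun y hy => ?_⟩
    have h1 : fil (th f x) j r ≤ pw f.ker (j + 1) := by
      refine sup_le le_rfl ?_
      rintro _ ⟨z, hz, rfl⟩
      exact hr z hz
    exact h1 (key r y hy)

lemma iter_mem (m : ℕ) (k : f.ker) : (((fun k => k⁻¹ * th f x k)^[m] k : f.ker) : N)
    ∈ (⊤ : Subgroup N).lowerCentralSeries m := by
  induction m with
  | zero => exact Subgroup.mem_top _
  | succ m ih =>
    rw [Function.iterate_succ_apply']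
    set u : f.ker := (fun k => k⁻¹ * th f x k)^[m] k with hu
    show ((u⁻¹ * th f x u : f.ker) : N) ∈ ⁅(⊤ : Subgroup N).lowerCentralSeries m, ⊤⁆
    have e : ((u⁻¹ * th f x u : f.ker) : N) = ⁅(u : N)⁻¹, x⁻¹⁆ := by
      rw [Subgroup.coe_mul, Subgroup.coe_inv, th_coe, commutatorElement_def]
      group
    rw [e]
    exact Subgroup.commutator_mem_commutator (Subgroup.inv_mem _ ih) (Subgroup.mem_top _)

end

end EXTM

open EXTM in
theorem specEXT (hPWM : SpecPWM) (hUNI : SpecUNI) : SpecEXT := by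
  intro N _ f hf hN d f0 hf0
  obtain ⟨x, hx⟩ := hf (Multiplicative.ofAdd 1)
  obtain ⟨s, hs⟩ := Subgroup.nilpotent_iff_lowerCentralSeries.1 hN
  have hr := hUNI f.ker (th f x) s (fun k => by
    have h1 := iter_mem f x s k
    rw [hs, Subgroup.mem_bot] at h1
    have h2 : (fun k => k⁻¹ * th f x k)^[s] k = (1 : f.ker) := Subtype.ext h1
    rw [h2]
    exact Subgroup.one_mem _)
  obtain ⟨m, hm⟩ := main f x hx hPWM hr (d + 1)
  refine ⟨m, f0.comp (ml (pr f x hx)), fun y hy => ?_, fun u => ?_⟩
  · exact hf0 _ (hm y ((hPWM N).2.1 m hy))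
  · show f0 (ml (pr f x hx) (MonoidAlgebra.single (u : N) 1)) = _
    rw [ml_single]
    congr 2
    apply Subtype.ext
    rw [pr_coe, MonoidHom.mem_ker.1 u.2]
    simp

end Pool.Agent.Lib.MP8a3537.SG
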