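import Pool.Agent.Lib.MP_8a3537_gt.SG.UNI

/-! # GEN: words in a generating set span modulo the powers of the augmentation ideal -/

namespace Pool.Agent.Lib.MP8a3537.SG.GENM

open scoped BigOperators Pointwise
open UNIM

variable {N : Type} [Group N]

lemma words_pw (hP : SpecPWM) (T : Set N) (j : ℕ) : ∀ x ∈ words T j, x ∈ pw N j := by
  obtain ⟨m1, m2, m3⟩ := hP N
  induction j with
  | zero => intro x _; exact Submodule.mem_top
  | succ j ih =>
    rintro x ⟨l, hl, hT, rfl⟩
    cases l with
    | nil => simp at hl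
    | cons t l =>
      rw [List.map_cons, List.prod_cons, add_comm j 1, ← m1 1 j]
      refine Submodule.mul_mem_mul (m3 t) (ih _ ⟨l, by simpa using hl, ?_, rfl⟩)
      intro u hu
      exact hT u (List.mem_cons_of_mem _ hu)

lemma words_mul (T : Set N) (i j : ℕ) (x y : ZG N) (hx : x ∈ words T i) (hy : y ∈ words T j) :
    x * y ∈ words T (i + j) := by
  obtain ⟨l, hl, hT, rfl⟩ := hx
  obtain ⟨l', hl', hT', rfl⟩ := hy
  refine ⟨l ++ l', by simp [hl, hl'], ?_, by simp⟩
  intro t ht
  rcases List.mem_append.mp ht with h | h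
  · exact hT t h
  · exact hT' t h

lemma span_words_pw (hP : SpecPWM) (T : Set N) (j : ℕ) :
    Submodule.span ℤ (words T j) ≤ pw N j :=
  Submodule.span_le.mpr fun x hx => words_pw hP T j x hx

lemma span_words_mul (T : Set N) (i j : ℕ) (x y : ZG N)
    (hx : x ∈ Submodule.span ℤ (words T i)) (hy : y ∈ Submodule.span ℤ (words T j)) :
    x * y ∈ Submodule.span ℤ (words T (i + j)) := by
  have h := Submodule.mul_mem_mul hx hy
  rw [Submodule.span_mul_span] at h
  refine Submodule.span_mono ?_ h
  rintro z ⟨a, ha, b, hb, rfl⟩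
  exact words_mul T i j a b ha hb

lemma dg_words (hP : SpecPWM) (T : Set N) (hT : Submonoid.closure T = ⊤) (g : N) :
    dg g ∈ Submodule.span ℤ (words T 1) ⊔ pw N 2 := by
  have hg : g ∈ Submonoid.closure T := by rw [hT]; trivial
  induction hg using Submonoid.closure_induction with
  | mem t ht =>
    refine Submodule.mem_sup_left (Submodule.subset_span ⟨[t], rfl, ?_, by simp⟩)
    intro u hu
    rw [List.mem_singleton] at hu
    rwa [hu]
  | one => rw [dg_one]; exact Submodule.zero_mem _
  | mul a b _ _ h1 h2 =>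
    rw [dg_mul]
    exact Submodule.add_mem _ (Submodule.add_mem _ h1 h2)
      (Submodule.mem_sup_right (dg_mul_dg hP a b))

lemma pw_one_words (hP : SpecPWM) (T : Set N) (hT : Submonoid.closure T = ⊤) :
    pw N 1 ≤ Submodule.span ℤ (words T 1) ⊔ pw N 2 := by
  refine pw_one_le.trans ?_
  unfold aI
  rw [Submodule.span_le]
  rintro x ⟨g, rfl⟩
  exact dg_words hP T hT g

lemma pw_words (hP : SpecPWM) (T : Set N) (hT : Submonoid.closure T = ⊤) (j : ℕ) :
    pw N j ≤ Submodule.span ℤ (words T j) ⊔ pw N (j + 1) := by
  obtain ⟨m1, m2, m3⟩ := hP N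
  induction j with
  | zero =>
    intro x _
    induction x using MonoidAlgebra.induction_linear with
    | zero => exact Submodule.zero_mem _
    | add f g hf hg => exact Submodule.add_mem _ (hf Submodule.mem_top) (hg Submodule.mem_top)
    | single g r =>
      have h1 : (MonoidAlgebra.single g r : ZG N) = r • (dg g + 1) := by
        simp [dg]
      rw [h1]
      refine Submodule.smul_mem _ _ (Submodule.add_mem _ (Submodule.mem_sup_right (m3 g)) ?_)
      exact Submodule.mem_sup_left (Submodule.subset_span ⟨[], rfl, by simp, by simp⟩)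
  | succ j ih =>
    rw [← m1 j 1, Submodule.mul_le]
    intro x hx y hy
    obtain ⟨w, hw, x', hx', rfl⟩ := Submodule.mem_sup.mp (ih hx)
    obtain ⟨u, hu, y', hy', rfl⟩ := Submodule.mem_sup.mp (pw_one_words hP T hT hy)
    have e : (w + x') * (u + y') = w * u + (w * y' + x' * (u + y')) := by
      rw [mul_add, add_mul w x' u, add_mul w x' y', mul_add]; abel
    rw [e]
    refine Submodule.add_mem_sup (span_words_mul T j 1 w u hw hu) (Submodule.add_mem _ ?_ ?_)
    · have := Submodule.mul_mem_mul (span_words_pw hP T j hw) hy'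
      rwa [m1 j 2] at this
    · have := Submodule.mul_mem_mul hx' hy
      rwa [m1 (j + 1) 1] at this

omit [Group N] in
lemma vanish_span {A : Type} [AddCommGroup A] (f : ZG N →ₗ[ℤ] A) (S : Set (ZG N))
    (h : ∀ x ∈ S, f x = 0) : ∀ x ∈ Submodule.span ℤ S, f x = 0 := by
  intro x hx
  have : Submodule.span ℤ S ≤ LinearMap.ker f := Submodule.span_le.mpr h
  exact this hx

end Pool.Agent.Lib.MP8a3537.SG.GENM

namespace Pool.Agent.Lib.MP8a3537.SG

open GENM in
theorem specGEN (hP : SpecPWM) : SpecGEN := by
  intro N _ T hT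
  refine ⟨pw_words hP T hT, ?_, ?_⟩
  · intro A _ d f hf hw
    have key : ∀ m, m ≤ d + 1 → ∀ x ∈ pw N (d + 1 - m), f x = 0 := by
      intro m
      induction m with
      | zero => intro _ x hx; exact hf x hx
      | succ m ih =>
        intro hm x hx
        obtain ⟨w, hw1, x', hx', rfl⟩ := Submodule.mem_sup.mp (pw_words hP T hT _ hx)
        have e : d + 1 - (m + 1) + 1 = d + 1 - m := by omega
        rw [e] at hx'
        rw [map_add, ih (by omega) x' hx', add_zero]
        exact vanish_span f _ (hw _ (by omega)) w hw1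
    ext x
    have := key (d + 1) le_rfl (MonoidAlgebra.single x 1) (by simp [pw])
    simpa using this
  · intro A _ d f h1 h2
    have h3 : ∀ i j, i + j ≤ d → ∀ x ∈ Submodule.span ℤ (words T i),
        ∀ y ∈ Submodule.span ℤ (words T j), f x y = 0 := by
      intro i j hij x hx y hy
      have h4 : ∀ x ∈ words T i, f x y = 0 := by
        intro x hx
        exact vanish_span (f x) _ (fun y hy => h2 i j hij x hx y hy) y hy
      have := vanish_span (f.flip y) _ h4 x hx
      exact this
    have key : ∀ m i j, d + 1 ≤ i + j + m → ∀ x ∈ pw N i, ∀ y ∈ pw N j, f x y = 0 := by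
      intro m
      induction m with
      | zero => intro i j hij x hx y hy; exact h1 i j hij x hx y hy
      | succ m ih =>
        intro i j hij x hx y hy
        rcases le_or_gt (d + 1) (i + j) with h | h
        · exact h1 i j h x hx y hy
        obtain ⟨w, hw, x', hx', rfl⟩ := Submodule.mem_sup.mp (pw_words hP T hT _ hx)
        rw [map_add, LinearMap.add_apply, ih (i + 1) j (by omega) x' hx' y hy, add_zero]
        obtain ⟨u, hu, y', hy', rfl⟩ := Submodule.mem_sup.mp (pw_words hP T hT _ hy)
        rw [map_add, ih i (j + 1) (by omega) w (span_words_pw hP T i hw) y' hy', add_zero]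
        exact h3 i j (by omega) w hw u hu
    ext x y
    have := key (d + 1) 0 0 (by omega) (MonoidAlgebra.single x 1) (by simp [pw])
      (MonoidAlgebra.single y 1) (by simp [pw])
    simpa using this

end Pool.Agent.Lib.MP8a3537.SG
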