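import Pool.Agent.Lib.MP_8a3537_gt.SG.SpecN

/-! # HGA: a nonsingular hermitian matrix, suitably scaled, has a spectral gap in all unitary
representations -/

namespace Pool.Agent.Lib.MP8a3537.SG.HGAM

open scoped BigOperators ComplexOrder Matrix.Norms.L2Operator Kronecker

variable {G : Type} [Group G] {κ : Type} [Fintype κ] [DecidableEq κ]
variable {ι : Type}

lemma repA_apply (ρ : G →* Matrix.unitaryGroup κ ℂ) (x : CG G) :
    repA ρ x = x.coeff.sum fun g b => b • ((ρ g : Matrix.unitaryGroup κ ℂ) : Matrix κ κ ℂ) := by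
  unfold repA
  rw [MonoidAlgebra.lift_apply]
  rfl

lemma repA_star (ρ : G →* Matrix.unitaryGroup κ ℂ) (x y : CG G)
    (h : ∀ g, y.coeff g = (starRingEnd ℂ) (x.coeff g⁻¹)) :
    (repA ρ x).conjTranspose = repA ρ y := by
  rw [repA_apply, repA_apply, Finsupp.sum, Finsupp.sum, Matrix.conjTranspose_sum]
  refine Finset.sum_nbij' (fun g => g⁻¹) (fun g => g⁻¹) ?_ ?_ ?_ ?_ ?_
  · intro g hg
    rw [Finsupp.mem_support_iff] at hg ⊢
    rw [h, inv_inv]
    simpa using hg
  · intro g hg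
    rw [Finsupp.mem_support_iff] at hg ⊢
    rw [h] at hg
    simpa using hg
  · intro g _; exact inv_inv g
  · intro g _; exact inv_inv g
  · intro g _
    rw [h, inv_inv, Matrix.conjTranspose_smul, map_inv]
    rfl

lemma twist_herm (ρ : G →* Matrix.unitaryGroup κ ℂ) (x : Matrix ι ι (CG G)) (h : IsHerm x) :
    (twist ρ x).IsHermitian := by
  ext p q
  have h1 := repA_star ρ (x q.1 p.1) (x p.1 q.1) (fun g => h q.1 p.1 g)
  have h2 := congrFun (congrFun h1 p.2) q.2
  exact h2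

variable [Fintype ι] [DecidableEq ι]

lemma twist_mul (ρ : G →* Matrix.unitaryGroup κ ℂ) (x y : Matrix ι ι (CG G)) :
    twist ρ (x * y) = twist ρ x * twist ρ y := by
  ext p q
  rw [Matrix.mul_apply, Fintype.sum_prod_type]
  change (repA ρ ((x * y) p.1 q.1)) p.2 q.2 = _
  rw [Matrix.mul_apply, map_sum, Matrix.sum_apply]
  refine Finset.sum_congr rfl fun k _ => ?_
  rw [map_mul, Matrix.mul_apply]
  rfl

lemma twist_one (ρ : G →* Matrix.unitaryGroup κ ℂ) :
    twist ρ (1 : Matrix ι ι (CG G)) = 1 := by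
  ext p q
  change (repA ρ ((1 : Matrix ι ι (CG G)) p.1 q.1)) p.2 q.2 = _
  obtain ⟨i, u⟩ := p
  obtain ⟨j, v⟩ := q
  simp only
  rcases eq_or_ne i j with rfl | hij
  · rw [Matrix.one_apply_eq, map_one]
    simp [Matrix.one_apply]
  · rw [Matrix.one_apply_ne hij, map_zero, Matrix.one_apply_ne]
    · rfl
    · intro h; exact hij (Prod.mk.inj h).1

omit [Fintype ι] [DecidableEq ι] in
lemma twist_smul (ρ : G →* Matrix.unitaryGroup κ ℂ) (b : ℂ) (x : Matrix ι ι (CG G)) :
    twist ρ (b • x) = b • twist ρ x := by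
  ext p q
  change (repA ρ ((b • x) p.1 q.1)) p.2 q.2 = b • (repA ρ (x p.1 q.1)) p.2 q.2
  rw [Matrix.smul_apply, map_smul, Matrix.smul_apply]

/-- the sum of the norms of the coefficients -/
noncomputable def nrm (x : Matrix ι ι (CG G)) : ℝ :=
  ∑ i, ∑ j, ∑ g ∈ (x i j).coeff.support, ‖(x i j).coeff g‖

lemma nrm_nonneg (x : Matrix ι ι (CG G)) : 0 ≤ nrm x :=
  Finset.sum_nonneg fun _ _ => Finset.sum_nonneg fun _ _ => Finset.sum_nonneg fun _ _ =>
    norm_nonneg _

lemma twist_eq (ρ : G →* Matrix.unitaryGroup κ ℂ) (x : Matrix ι ι (CG G)) :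
    twist ρ x = ∑ i, ∑ j, ∑ g ∈ (x i j).coeff.support, (x i j).coeff g •
      (Matrix.single i j (1 : ℂ) ⊗ₖ ((ρ g : Matrix.unitaryGroup κ ℂ) : Matrix κ κ ℂ)) := by
  ext p q
  change (repA ρ (x p.1 q.1)) p.2 q.2 = _
  rw [repA_apply, Finsupp.sum, Matrix.sum_apply]
  simp only [Matrix.sum_apply, Matrix.smul_apply, Matrix.kroneckerMap_apply, Matrix.single_apply]
  rw [Finset.sum_eq_single p.1]
  · rw [Finset.sum_eq_single q.1]
    · simp
    · intro j _ hj
      refine Finset.sum_eq_zero fun g _ => ?_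
      simp [hj]
    · simp
  · intro i _ hi
    refine Finset.sum_eq_zero fun j _ => Finset.sum_eq_zero fun g _ => ?_
    simp [hi]
  · simp

lemma single_norm (i j : ι) (U : Matrix.unitaryGroup κ ℂ) :
    ‖(Matrix.single i j (1 : ℂ) ⊗ₖ (U : Matrix κ κ ℂ))‖ ≤ 1 := by
  set P : Matrix (ι × κ) (ι × κ) ℂ := Matrix.single j j (1 : ℂ) ⊗ₖ (1 : Matrix κ κ ℂ) with hP
  have h1 : (Matrix.single i j (1 : ℂ) ⊗ₖ (U : Matrix κ κ ℂ)).conjTranspose *
      (Matrix.single i j (1 : ℂ) ⊗ₖ (U : Matrix κ κ ℂ)) = P := by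
    rw [Matrix.conjTranspose_kronecker, ← Matrix.mul_kronecker_mul, Matrix.conjTranspose_single,
      Matrix.single_mul_single_same, ← Matrix.star_eq_conjTranspose,
      Matrix.UnitaryGroup.star_mul_self]
    simp [hP]
  have h2 : P.conjTranspose * P = P := by
    rw [hP, Matrix.conjTranspose_kronecker, ← Matrix.mul_kronecker_mul,
      Matrix.conjTranspose_single, Matrix.single_mul_single_same]
    simp
  have h3 := Matrix.l2_opNorm_conjTranspose_mul_self P
  rw [h2] at h3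
  have h4 : ‖P‖ ≤ 1 := by
    by_contra hc
    push Not at hc
    nlinarith
  have h5 := Matrix.l2_opNorm_conjTranspose_mul_self
    (Matrix.single i j (1 : ℂ) ⊗ₖ (U : Matrix κ κ ℂ))
  rw [h1] at h5
  nlinarith [norm_nonneg (Matrix.single i j (1 : ℂ) ⊗ₖ (U : Matrix κ κ ℂ))]

lemma twist_norm (ρ : G →* Matrix.unitaryGroup κ ℂ) (x : Matrix ι ι (CG G)) :
    ‖twist ρ x‖ ≤ nrm x := by
  rw [twist_eq]
  refine (norm_sum_le _ _).trans (Finset.sum_le_sum fun i _ => ?_)
  refine (norm_sum_le _ _).trans (Finset.sum_le_sum fun j _ => ?_)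
  refine (norm_sum_le _ _).trans (Finset.sum_le_sum fun g _ => ?_)
  rw [norm_smul]
  exact mul_le_of_le_one_right (norm_nonneg _) (single_norm i j (ρ g))

lemma eig_bound {l : Type} [Fintype l] [DecidableEq l] (A : Matrix l l ℂ) (c : ℂ) (v w : l → ℂ)
    (C : ℝ) (hA : ‖A‖ ≤ C) (h : A.mulVec v = c • w) :
    ‖c‖ * ‖(WithLp.toLp 2 w : EuclideanSpace ℂ l)‖ ≤ C * ‖(WithLp.toLp 2 v : EuclideanSpace ℂ l)‖ := by
  have h1 := Matrix.l2_opNorm_mulVec A (WithLp.toLp 2 v)
  have h2 : (WithLp.toLp 2 (A.mulVec v) : EuclideanSpace ℂ l)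
      = c • (WithLp.toLp 2 w : EuclideanSpace ℂ l) := by
    rw [h]; rfl
  have h3 : ‖(WithLp.toLp 2 (A.mulVec v) : EuclideanSpace ℂ l)‖
      ≤ ‖A‖ * ‖(WithLp.toLp 2 v : EuclideanSpace ℂ l)‖ := h1
  rw [h2, norm_smul] at h3
  exact h3.trans (mul_le_mul_of_nonneg_right hA (norm_nonneg _))

end Pool.Agent.Lib.MP8a3537.SG.HGAM

namespace Pool.Agent.Lib.MP8a3537.SG

open scoped Matrix.Norms.L2Operator in
open HGAM in
theorem specHGA : SpecHGA := by
  intro G _ ι _ _ h h' hh h1 h2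
  have hB : 0 < 1 + nrm h := by linarith [nrm_nonneg h]
  have hB' : 0 < 1 + nrm h' := by linarith [nrm_nonneg h']
  have hb : 0 < 1 / (1 + nrm h) := by positivity
  refine ⟨1 / (1 + nrm h), 1 / ((1 + nrm h) * (1 + nrm h')), hb, by positivity, ?_, ?_⟩
  · rw [div_le_one (by positivity)]
    nlinarith [nrm_nonneg h, nrm_nonneg h', mul_nonneg (nrm_nonneg h) (nrm_nonneg h')]
  intro κ _ _ ρ
  set b : ℝ := 1 / (1 + nrm h) with hbdef
  refine ⟨?_, ?_⟩
  · rw [twist_smul]
    have hH := twist_herm ρ h hh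
    unfold Matrix.IsHermitian at hH ⊢
    rw [Matrix.conjTranspose_smul, hH]
    congr 1
    exact Complex.conj_ofReal b
  · intro μ v hv hμ
    rw [twist_smul] at hμ
    have hv' : 0 < ‖(WithLp.toLp 2 v : EuclideanSpace ℂ (ι × κ))‖ := by
      rw [norm_pos_iff]
      intro h0
      apply hv
      have := congrArg WithLp.ofLp h0
      simpa using this
    constructor
    · have e1 : (twist ρ h').mulVec (((b : ℂ) • twist ρ h).mulVec v) = (b : ℂ) • v := by
        rw [Matrix.mulVec_mulVec, mul_smul_comm, ← twist_mul, h2, twist_one, Matrix.smul_mulVec,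
          Matrix.one_mulVec]
      rw [hμ, Matrix.mulVec_smul, ← Matrix.smul_mulVec] at e1
      have hn : ‖(μ : ℂ) • twist ρ h'‖ ≤ |μ| * nrm h' := by
        rw [norm_smul, Complex.norm_real, Real.norm_eq_abs]
        exact mul_le_mul_of_nonneg_left (twist_norm ρ h') (abs_nonneg _)
      have e2 := eig_bound _ _ _ _ _ hn e1
      have e3 : b ≤ |μ| * nrm h' := by
        have : ‖(b : ℂ)‖ = b := by
          rw [Complex.norm_real, Real.norm_eq_abs, abs_of_pos hb]
        rw [this] at e2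
        exact le_of_mul_le_mul_right e2 hv'
      have e4 : 1 / ((1 + nrm h) * (1 + nrm h')) = b / (1 + nrm h') := by
        rw [hbdef, div_div]
      rw [e4, div_le_iff₀ hB']
      nlinarith [abs_nonneg μ]
    · have hn : ‖((b : ℂ) • twist ρ h)‖ ≤ 1 := by
        rw [norm_smul, Complex.norm_real, Real.norm_eq_abs, abs_of_pos hb]
        calc b * ‖twist ρ h‖ ≤ b * nrm h := mul_le_mul_of_nonneg_left (twist_norm ρ h) hb.le
          _ ≤ 1 := by
            rw [hbdef, one_div, inv_mul_le_iff₀ hB]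
            linarith
      have e2 := eig_bound _ _ _ _ _ hn hμ
      rw [Complex.norm_real, Real.norm_eq_abs] at e2
      exact le_of_mul_le_mul_right e2 hv'

end Pool.Agent.Lib.MP8a3537.SG
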