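import Pool.Agent.Lib.MP_8a3537_gt.SG.SpecN

set_option autoImplicit false

namespace Pool.Agent.Lib.MP8a3537.SG

theorem specKNC : SpecKNC := by
  classical
  intro h
  induction h with
  | zero =>
    intro Q iQ hQ N _ φ hN _
    have hQ' : Subsingleton Q := hQ
    obtain ⟨T, hT⟩ := hN.out
    refine ⟨T, ?_⟩
    have h1 : φ.ker = ⊤ := by
      rw [eq_top_iff]
      intro x _
      exact Subsingleton.elim _ _
    rw [h1, eq_top_iff, ← hT]
    exact Subgroup.closure_le_normalClosure
  | succ h ih =>
    intro Q iQ hQ N _ φ hN hφ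
    obtain ⟨Q', iQ', π, c, hE, hQ'⟩ := hQ
    obtain ⟨S', hS'⟩ := ih Q' hQ' N (π.comp φ) hN (hE.surj.comp hφ)
    obtain ⟨T, hT⟩ := hN.out
    obtain ⟨l, hl⟩ := hφ c
    have hk : ∀ s : N, ∃ k : ℤ, s ∈ S' → φ s = c ^ k := by
      intro s
      by_cases hs : s ∈ S'
      · have h1 : s ∈ (π.comp φ).ker := by
          rw [← hS']
          exact Subgroup.subset_normalClosure hs
        obtain ⟨k, hk⟩ := (hE.ker (φ s)).1 h1
        exact ⟨k, fun _ => hk⟩
      · exact ⟨0, fun h => absurd h hs⟩
    choose k hk using hk
    let S : Finset N := (S'.image fun s => s * l ^ (-(k s))) ∪ (T.image fun t => t * l * t⁻¹ * l⁻¹)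
    refine ⟨S, le_antisymm ?_ ?_⟩
    · rw [← Subgroup.normalClosure_subset_iff]
      intro x hx
      rw [Finset.mem_coe, Finset.mem_union, Finset.mem_image, Finset.mem_image] at hx
      rw [SetLike.mem_coe, MonoidHom.mem_ker]
      rcases hx with ⟨s, hs, rfl⟩ | ⟨t, ht, rfl⟩
      · rw [map_mul, map_zpow, hl, hk s hs, zpow_neg, mul_inv_cancel]
      · rw [map_mul, map_mul, map_mul, map_inv, map_inv, hl, hE.central (φ t), mul_assoc c,
          mul_inv_cancel, mul_one, mul_inv_cancel]
    · let R : Subgroup N := Subgroup.normalClosure (S : Set N)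
      have hRn : R.Normal := Subgroup.normalClosure_normal
      let q : N →* N ⧸ R := QuotientGroup.mk' R
      have hqR : ∀ x, x ∈ R ↔ q x = 1 := fun x => (QuotientGroup.eq_one_iff x).symm
      have hcen : ∀ g : N, q g * q l = q l * q g := by
        intro g
        have h1 : g ∈ Subgroup.closure (T : Set N) := by
          rw [hT]
          trivial
        induction h1 using Subgroup.closure_induction with
        | mem t ht =>
          have h2 : t * l * t⁻¹ * l⁻¹ ∈ R :=
            Subgroup.subset_normalClosure (Finset.mem_coe.2 (Finset.mem_union_right _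
              (Finset.mem_image_of_mem _ ht)))
          rw [hqR, map_mul, map_mul, map_mul, map_inv, map_inv, mul_inv_eq_one,
            mul_inv_eq_iff_eq_mul] at h2
          exact h2
        | one => rw [map_one, one_mul, mul_one]
        | mul x y _ _ hx hy => rw [map_mul, mul_assoc, hy, ← mul_assoc, hx, mul_assoc]
        | inv x _ hx =>
          rw [map_inv, inv_mul_eq_iff_eq_mul, ← mul_assoc, hx, mul_inv_cancel_right]
      let Z : Subgroup N := (Subgroup.zpowers (q l)).comap q
      have hZn : Z.Normal := by
        constructor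
        intro n hn g
        rw [Subgroup.mem_comap] at hn ⊢
        obtain ⟨j, hj⟩ := hn
        refine ⟨j, ?_⟩
        have hj' : q l ^ j = q n := hj
        have hc : Commute (q g) (q n) := by
          rw [← hj']
          exact Commute.zpow_right (hcen g) j
        show q l ^ j = q (g * n * g⁻¹)
        rw [map_mul, map_mul, map_inv, hc.eq, mul_inv_cancel_right, hj']
      have hL : (π.comp φ).ker ≤ Z := by
        rw [← hS']
        apply Subgroup.normalClosure_le_normal
        intro s hs
        have h2 : s * l ^ (-(k s)) ∈ R :=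
          Subgroup.subset_normalClosure (Finset.mem_coe.2 (Finset.mem_union_left _
            (Finset.mem_image_of_mem _ hs)))
        rw [hqR, map_mul, map_zpow, zpow_neg, mul_inv_eq_one] at h2
        exact ⟨k s, h2.symm⟩
      have hRφ : R ≤ φ.ker := by
        apply Subgroup.normalClosure_le_normal
        intro x hx
        rw [Finset.mem_coe, Finset.mem_union, Finset.mem_image, Finset.mem_image] at hx
        rw [SetLike.mem_coe, MonoidHom.mem_ker]
        rcases hx with ⟨s, hs, rfl⟩ | ⟨t, ht, rfl⟩
        · rw [map_mul, map_zpow, hl, hk s hs, zpow_neg, mul_inv_cancel]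
        · rw [map_mul, map_mul, map_mul, map_inv, map_inv, hl, hE.central (φ t), mul_assoc c,
            mul_inv_cancel, mul_one, mul_inv_cancel]
      intro g hg
      rw [MonoidHom.mem_ker] at hg
      have h1 : g ∈ (π.comp φ).ker := by
        rw [MonoidHom.mem_ker, MonoidHom.comp_apply, hg, map_one]
      obtain ⟨j, hj⟩ := hL h1
      have hj' : q l ^ j = q g := hj
      have h2 : g * l ^ (-j) ∈ R := by
        rw [hqR, map_mul, map_zpow, zpow_neg, hj', mul_inv_cancel]
      have h3 := hRφ h2
      rw [MonoidHom.mem_ker, map_mul, map_zpow, hg, one_mul, hl] at h3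
      have h4 : j = 0 := by
        by_contra hne
        exact hE.inf (-j) (neg_ne_zero.2 hne) h3
      show g ∈ R
      rw [hqR, ← hj', h4, zpow_zero]

end Pool.Agent.Lib.MP8a3537.SG
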