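import Pool.Agent.Lib.MP_8a3537_gt.SG.SpecN

/-!
# MP_8a3537_gt, row SG, module MNA : the theorem for finite dimensional unitary representations
-/

set_option autoImplicit false

namespace Pool.Agent.Lib.MP8a3537.SG

open scoped BigOperators Pointwise ComplexOrder

namespace MNAM

theorem twist_smul {G : Type} [Group G] {ι κ : Type} [Fintype κ] [DecidableEq κ]
    (ρ : G →* Matrix.unitaryGroup κ ℂ) (c : ℂ) (x : Matrix ι ι (CG G)) :
    twist ρ (c • x) = c • twist ρ x := by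
  ext p q
  change (repA ρ (c • x p.1 q.1)) p.2 q.2 = c • (repA ρ (x p.1 q.1)) p.2 q.2
  rw [map_smul, Matrix.smul_apply]

theorem augM_smul {G : Type} [Group G] {ι : Type} (c : ℂ) (x : Matrix ι ι (CG G)) :
    augM (c • x) = c • augM x := by
  ext p q
  change aug (c • x p q) = c • aug (x p q)
  rw [map_smul]

theorem repA_comp {G H : Type} [Group G] [Group H] {κ : Type} [Fintype κ] [DecidableEq κ]
    (π : G →* H) (ρ : H →* Matrix.unitaryGroup κ ℂ) (x : CG G) :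
    repA (ρ.comp π) x = repA ρ (mapA π x) := by
  have h : repA (ρ.comp π) = (repA ρ).comp (mapA π) := by
    apply MonoidAlgebra.algHom_ext
    · intro g
      simp [repA, mapA]
    · exact Subsingleton.elim _ _
  rw [h]
  rfl

theorem twist_comp {G H : Type} [Group G] [Group H] {ι κ : Type} [Fintype κ] [DecidableEq κ]
    (π : G →* H) (ρ : H →* Matrix.unitaryGroup κ ℂ) (x : Matrix ι ι (CG G)) :
    twist (ρ.comp π) x = twist ρ (mapM π x) := by
  ext p q
  change (repA (ρ.comp π) (x p.1 q.1)) p.2 q.2 = (repA ρ (mapA π (x p.1 q.1))) p.2 q.2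
  rw [repA_comp]

/-- an integer which is smaller than every `m * del e j` is `0` -/
theorem int_zero (hSCA : SpecSCA) (e : ℝ) (he : 0 < e) (he1 : e ≤ 1) (m : ℕ) (d : ℤ)
    (h : ∀ j, ‖(d : ℂ)‖ ≤ m * del e j) : d = 0 := by
  by_contra hd
  obtain ⟨j0, hj0⟩ := (hSCA e he he1).2.2
  have h1 : (1 : ℝ) ≤ ‖(d : ℂ)‖ := by
    rw [Complex.norm_intCast]
    have h2 : (1 : ℤ) ≤ |d| := Int.one_le_abs hd
    exact_mod_cast h2
  have h2 := h (j0 + m)
  have h3 := hj0 m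
  have h4 : (m : ℝ) * (1 / 2 : ℝ) ^ (2 ^ m) < 1 := by
    have h5 : (m : ℝ) < 2 ^ (2 ^ m) := by
      have h6 : m < 2 ^ (2 ^ m) := lt_trans Nat.lt_two_pow_self
        (Nat.pow_lt_pow_right (by norm_num) Nat.lt_two_pow_self)
      exact_mod_cast h6
    rw [one_div, inv_pow, mul_inv_lt_iff₀ (by positivity), one_mul]
    exact h5
  have h5 : (m : ℝ) * del e (j0 + m) ≤ m * (1 / 2 : ℝ) ^ (2 ^ m) :=
    mul_le_mul_of_nonneg_left h3 (Nat.cast_nonneg m)
  linarith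

end MNAM

theorem specMNA (hPGR : SpecPGR) (hHGA : SpecHGA) (hRFG : SpecRFG) (hSGS : SpecSGS)
    (hTEN : SpecTEN) (hPUS : SpecPUS) (hGPH : SpecGPH) (hSCA : SpecSCA) : SpecMNA := by
  intro G _ hG ι _ _ h hh hu κ _ _ ρ
  obtain ⟨u, rfl⟩ := hu
  obtain ⟨G0, h0, h0', hfg, hG0, hh0, h01, h02, hmap, -⟩ :=
    hRFG G ι (u : Matrix ι ι (CG G)) ((u⁻¹ : (Matrix ι ι (CG G))ˣ) : Matrix ι ι (CG G)) hG hh
      (Units.mul_inv u) (Units.inv_mul u)
  obtain ⟨b, e, hb, he, he1, hgap⟩ := hHGA G0 ι h0 h0' hh0 h01 h02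
  set a : Matrix ι ι (CG G0) := (b : ℂ) • h0 with ha
  let ρ0 : G0 →* Matrix.unitaryGroup κ ℂ := ρ.comp G0.subtype
  obtain ⟨Φ, hAdm, htau, haug⟩ := hTEN G0 κ ρ0
  have hP : P G0 := hPGR G0 hfg hG0
  have hgap2 : Gap (push Φ a) e := hGPH.1 G0 G0 ι κ Φ a e hAdm hgap
  have key : ∀ j, ‖(((Fintype.card κ * sgn (augM a) - sgn (twist ρ0 a) : ℤ)) : ℂ)‖ ≤
      ((2 * (Fintype.card ι * Fintype.card κ) : ℕ) : ℝ) * del e j := by
    intro j
    have h1 := hP ι a e he he1 hgap j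
    have h2 := hP (ι × κ) (push Φ a) e he he1 hgap2 j
    rw [← hPUS.1 G0 ι κ (CG G0) Φ a j, htau ι (it a j), haug ι a, Fintype.card_prod] at h2
    have h3 : (((Fintype.card κ * sgn (augM a) - sgn (twist ρ0 a) : ℤ)) : ℂ) =
        ((Fintype.card κ : ℂ) * tau (it a j) - ((sgn (twist ρ0 a) : ℤ) : ℂ)) -
          (Fintype.card κ : ℂ) * (tau (it a j) - ((sgn (augM a) : ℤ) : ℂ)) := by
      push_cast
      ring
    rw [h3]
    calc _ ≤ ‖(Fintype.card κ : ℂ) * tau (it a j) - ((sgn (twist ρ0 a) : ℤ) : ℂ)‖ +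
          ‖(Fintype.card κ : ℂ) * (tau (it a j) - ((sgn (augM a) : ℤ) : ℂ))‖ := norm_sub_le _ _
      _ ≤ ((Fintype.card ι * Fintype.card κ : ℕ) : ℝ) * del e j +
          (Fintype.card κ : ℝ) * (Fintype.card ι * del e j) := by
        apply add_le_add h2
        rw [norm_mul, Complex.norm_natCast]
        exact mul_le_mul_of_nonneg_left h1 (Nat.cast_nonneg _)
      _ = _ := by
        push_cast
        ring
  have hz := MNAM.int_zero hSCA e he he1 _ _ key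
  have h1 : sgn (twist ρ0 a) = sgn (twist ρ (u : Matrix ι ι (CG G))) := by
    rw [ha, MNAM.twist_smul, hSGS (ι × κ) _ b hb, MNAM.twist_comp, hmap]
  have h2 : sgn (augM a) = sgn (augM (u : Matrix ι ι (CG G))) := by
    rw [ha, MNAM.augM_smul, hSGS ι _ b hb, ← hmap, hGPH.2.2]
  rw [← h1, ← h2]
  linarith

end Pool.Agent.Lib.MP8a3537.SG
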