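import Pool.Agent.Lib.MP_8a3537_gt.SG.SpecN

set_option linter.unusedVariables false

/-! # MP_8a3537_gt, row SG, module OPX (helper64) -/

namespace Pool.Agent.Lib.MP8a3537.SG

open scoped BigOperators Pointwise ComplexOrder

namespace OPXM

section Shift

variable {I : Type}

theorem two_pos' : 0 < (2 : ENNReal).toReal := by norm_num

theorem mem_comp (θ : I ≃ I) (f : lp (fun _ : I => ℂ) 2) :
    Memℓp (fun p => (f : I → ℂ) (θ p)) 2 := by
  refine memℓp_gen ?_
  have h := (lp.memℓp f).summable two_pos'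
  exact (Equiv.summable_iff θ).2 h

theorem mem_mul (c : I → ℂ) (hc : ∀ p, ‖c p‖ ≤ 1) (θ : I ≃ I) (f : lp (fun _ : I => ℂ) 2) :
    Memℓp (fun p => c p * (f : I → ℂ) (θ p)) 2 := by
  refine memℓp_gen ?_
  have h : Summable fun p => ‖(f : I → ℂ) (θ p)‖ ^ (2 : ENNReal).toReal :=
    (Equiv.summable_iff θ).2 ((lp.memℓp f).summable two_pos')
  refine Summable.of_nonneg_of_le (fun p => by positivity) (fun p => ?_) h
  refine Real.rpow_le_rpow (norm_nonneg _) ?_ two_pos'.le
  rw [norm_mul]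
  exact mul_le_of_le_one_left (norm_nonneg _) (hc p)

/-- `f ↦ c · (f ∘ θ)` as a linear map -/
noncomputable def TL (c : I → ℂ) (hc : ∀ p, ‖c p‖ ≤ 1) (θ : I ≃ I) :
    lp (fun _ : I => ℂ) 2 →ₗ[ℂ] lp (fun _ : I => ℂ) 2 where
  toFun f := ⟨fun p => c p * (f : I → ℂ) (θ p), mem_mul c hc θ f⟩
  map_add' f g := by
    refine lp.ext (funext fun p => ?_)
    show c p * ((f + g : lp (fun _ : I => ℂ) 2) : I → ℂ) (θ p) =
      c p * (f : I → ℂ) (θ p) + c p * (g : I → ℂ) (θ p)
    rw [lp.coeFn_add, Pi.add_apply, mul_add]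
  map_smul' a f := by
    refine lp.ext (funext fun p => ?_)
    show c p * ((a • f : lp (fun _ : I => ℂ) 2) : I → ℂ) (θ p) =
      a * (c p * (f : I → ℂ) (θ p))
    rw [lp.coeFn_smul, Pi.smul_apply, smul_eq_mul]
    ring

theorem TL_norm (c : I → ℂ) (hc : ∀ p, ‖c p‖ ≤ 1) (θ : I ≃ I) (f : lp (fun _ : I => ℂ) 2) :
    ‖TL c hc θ f‖ ≤ 1 * ‖f‖ := by
  rw [one_mul]
  set g : lp (fun _ : I => ℂ) 2 := ⟨fun p => (f : I → ℂ) (θ p), mem_comp θ f⟩ with hg
  have h1 : ‖g‖ = ‖f‖ := by
    rw [lp.norm_eq_tsum_rpow two_pos' g, lp.norm_eq_tsum_rpow two_pos' f]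
    congr 1
    exact θ.tsum_eq fun p => ‖(f : I → ℂ) p‖ ^ (2 : ENNReal).toReal
  rw [← h1]
  refine lp.norm_mono (by norm_num) fun p => ?_
  show ‖c p * (f : I → ℂ) (θ p)‖ ≤ ‖(f : I → ℂ) (θ p)‖
  rw [norm_mul]
  exact mul_le_of_le_one_left (norm_nonneg _) (hc p)

/-- `f ↦ c · (f ∘ θ)` -/
noncomputable def TT (c : I → ℂ) (hc : ∀ p, ‖c p‖ ≤ 1) (θ : I ≃ I) :
    lp (fun _ : I => ℂ) 2 →L[ℂ] lp (fun _ : I => ℂ) 2 :=
  (TL c hc θ).mkContinuous 1 (TL_norm c hc θ)

theorem TT_apply (c : I → ℂ) (hc : ∀ p, ‖c p‖ ≤ 1) (θ : I ≃ I) (f : lp (fun _ : I => ℂ) 2)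
    (p : I) : (TT c hc θ f : I → ℂ) p = c p * (f : I → ℂ) (θ p) := rfl

/-- evaluation -/
noncomputable def ev (p : I) : lp (fun _ : I => ℂ) 2 →ₗ[ℂ] ℂ where
  toFun f := (f : I → ℂ) p
  map_add' _ _ := rfl
  map_smul' _ _ := rfl

theorem ev_apply (p : I) (f : lp (fun _ : I => ℂ) 2) : ev p f = (f : I → ℂ) p := rfl

end Shift

variable {G : Type} [Group G] {ι : Type} [Fintype ι] [DecidableEq ι]

open Classical in
theorem bv_apply {ι G : Type} (p q : ι × G) :
    (bv p : ι × G → ℂ) q = if q = p then 1 else 0 := by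
  unfold bv
  rw [lp.single_apply, Pi.single_apply]

/-- the partial isometry -/
noncomputable def U (i j : ι) (s : G) : L2 ι G →L[ℂ] L2 ι G :=
  TT (fun p => if p.1 = i then 1 else 0) (fun p => by
    split_ifs <;> simp) (Equiv.prodCongr (Equiv.swap i j) (Equiv.mulLeft s⁻¹))

open Classical in
theorem U_bv (i j : ι) (s : G) (j0 : ι) (u : G) (i0 : ι) (g : G) :
    (U i j s (bv (j0, u)) : ι × G → ℂ) (i0, g) =
      if i0 = i then (if j = j0 then (if s = g * u⁻¹ then 1 else 0) else 0) else 0 := by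
  unfold U
  rw [TT_apply, bv_apply]
  by_cases h1 : i0 = i
  · subst h1
    rw [if_pos rfl, if_pos rfl, one_mul]
    have h2 : (Equiv.prodCongr (Equiv.swap i0 j) (Equiv.mulLeft s⁻¹)) (i0, g) = (j, s⁻¹ * g) := by
      rw [Equiv.prodCongr_apply, Prod.map_apply, Equiv.swap_apply_left, Equiv.coe_mulLeft]
    rw [h2]
    by_cases h3 : j = j0
    · subst h3
      rw [if_pos rfl]
      by_cases h4 : s = g * u⁻¹
      · rw [if_pos h4, if_pos]
        rw [h4]
        group
      · rw [if_neg h4, if_neg]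
        intro h5
        apply h4
        have h6 : s⁻¹ * g = u := congrArg Prod.snd h5
        rw [← h6]
        group
    · rw [if_neg h3, if_neg]
      intro h5
      exact h3 (congrArg Prod.fst h5)
  · rw [if_neg h1, if_neg h1, zero_mul]

theorem exists_op (x : Matrix ι ι (CG G)) : ∃ H : L2 ι G →L[ℂ] L2 ι G, IsOp x H := by
  classical
  refine ⟨∑ i, ∑ j, ∑ s ∈ (x i j).coeff.support, (x i j).coeff s • U i j s, ?_⟩
  intro i0 j0 g u
  rw [← ev_apply]
  simp only [sum_apply, map_sum, smul_apply, map_smul]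
  simp only [ev_apply, U_bv, smul_eq_mul, mul_ite, mul_one, mul_zero]
  rw [Finset.sum_eq_single i0]
  · simp only [if_true]
    rw [Finset.sum_eq_single j0]
    · simp only [if_true]
      rw [Finset.sum_ite_eq' (x i0 j0).coeff.support (g * u⁻¹) fun s => (x i0 j0).coeff s]
      split_ifs with h
      · rfl
      · exact (Finsupp.notMem_support_iff.1 h).symm
    · intro j _ hj
      simp [hj]
    · intro h
      exact absurd (Finset.mem_univ _) h
  · intro i _ hi
    simp [Ne.symm hi]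
  · intro h
    exact absurd (Finset.mem_univ _) h

theorem hasSum_bv {ι G : Type} (f : L2 ι G) :
    HasSum (fun p : ι × G => (f : ι × G → ℂ) p • (bv p : L2 ι G)) f := by
  classical
  have h := lp.hasSum_single (p := 2) (by norm_num) f
  convert h using 2 with p
  refine lp.ext (funext fun q => ?_)
  rw [lp.coeFn_smul, Pi.smul_apply, bv_apply, lp.single_apply, Pi.single_apply, smul_eq_mul]
  by_cases hq : q = p
  · subst hq
    simp
  · simp [hq]

theorem ext_bv {ι G : Type} {H H' : L2 ι G →L[ℂ] L2 ι G} (h : ∀ p, H (bv p) = H' (bv p)) :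
    H = H' := by
  ext1 f
  have h1 := (hasSum_bv f).mapL H
  have h2 := (hasSum_bv f).mapL H'
  simp only [map_smul, h] at h1 h2
  exact h1.unique h2

theorem uniq_op {x : Matrix ι ι (CG G)} {H H' : L2 ι G →L[ℂ] L2 ι G} (h : IsOp x H)
    (h' : IsOp x H') : H = H' := by
  refine ext_bv fun p => lp.ext (funext fun q => ?_)
  obtain ⟨j, u⟩ := p
  obtain ⟨i, g⟩ := q
  rw [h i j g u, h' i j g u]

theorem op_add {x y : Matrix ι ι (CG G)} {H K : L2 ι G →L[ℂ] L2 ι G} (h : IsOp x H)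
    (k : IsOp y K) : IsOp (x + y) (H + K) := by
  intro i j g u
  show (H (bv (j, u)) : ι × G → ℂ) (i, g) + (K (bv (j, u)) : ι × G → ℂ) (i, g) = _
  rw [h i j g u, k i j g u]
  rfl

theorem op_smul {x : Matrix ι ι (CG G)} {H : L2 ι G →L[ℂ] L2 ι G} (c : ℂ) (h : IsOp x H) :
    IsOp (c • x) (c • H) := by
  intro i j g u
  show c * (H (bv (j, u)) : ι × G → ℂ) (i, g) = _
  rw [h i j g u]
  rfl

theorem op_one : IsOp (1 : Matrix ι ι (CG G)) (1 : L2 ι G →L[ℂ] L2 ι G) := by
  classical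
  intro i j g u
  show (bv (j, u) : ι × G → ℂ) (i, g) = _
  rw [bv_apply, Matrix.one_apply]
  by_cases h : i = j
  · subst h
    rw [if_pos rfl, MonoidAlgebra.one_def, MonoidAlgebra.coeff_single, Finsupp.single_apply]
    by_cases h2 : g = u
    · subst h2
      rw [if_pos rfl, if_pos (by group)]
    · rw [if_neg, if_neg]
      · intro h3
        apply h2
        calc g = 1⁻¹ * g := by group
          _ = u := by rw [h3]; group
      · intro h3
        exact h2 (congrArg Prod.snd h3)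
  · rw [if_neg h, if_neg]
    · rfl
    · intro h3
      exact h (congrArg Prod.fst h3)

/-- the image of a basis vector -/
theorem op_bv {y : Matrix ι ι (CG G)} {K : L2 ι G →L[ℂ] L2 ι G} (k : IsOp y K) (j : ι) (u : G) :
    K (bv (j, u)) = ∑ l, ∑ s ∈ (y l j).coeff.support, (y l j).coeff s • (bv (l, s * u) : L2 ι G) := by
  classical
  refine lp.ext (funext fun q => ?_)
  obtain ⟨i, g⟩ := q
  rw [k i j g u]
  rw [← ev_apply (i, g) (∑ l, ∑ s ∈ (y l j).coeff.support, (y l j).coeff s •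
    (bv (l, s * u) : L2 ι G))]
  simp only [map_sum, map_smul, ev_apply, bv_apply, smul_eq_mul, mul_ite, mul_one, mul_zero]
  rw [Finset.sum_eq_single i]
  · have h1 : ∀ s : G, ((i, g) = (i, s * u)) ↔ g * u⁻¹ = s := by
      intro s
      rw [Prod.mk.injEq]
      constructor
      · rintro ⟨-, h⟩
        rw [h]
        group
      · intro h
        refine ⟨rfl, ?_⟩
        rw [← h]
        group
    simp only [h1]
    rw [Finset.sum_ite_eq (y i j).coeff.support (g * u⁻¹) fun s => (y i j).coeff s]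
    split_ifs with h
    · rfl
    · exact Finsupp.notMem_support_iff.1 h
  · intro l _ hl
    refine Finset.sum_eq_zero fun s _ => if_neg ?_
    intro h
    exact hl (congrArg Prod.fst h).symm
  · intro h
    exact absurd (Finset.mem_univ _) h

theorem op_mul {x y : Matrix ι ι (CG G)} {H K : L2 ι G →L[ℂ] L2 ι G} (h : IsOp x H)
    (k : IsOp y K) : IsOp (x * y) (H * K) := by
  classical
  intro i j g u
  show (H (K (bv (j, u))) : ι × G → ℂ) (i, g) = _
  rw [op_bv k j u, ← ev_apply]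
  simp only [map_sum, map_smul, ev_apply, smul_eq_mul]
  rw [Matrix.mul_apply, MonoidAlgebra.coeff_sum, Finsupp.finsetSum_apply]
  refine Finset.sum_congr rfl fun l _ => ?_
  rw [MonoidAlgebra.coeff_mul_apply_right, Finsupp.sum]
  refine Finset.sum_congr rfl fun s _ => ?_
  rw [h i l g (s * u), mul_inv_rev, ← mul_assoc, mul_comm]

open Classical in
theorem inner_bv {ι G : Type} (p : ι × G) (f : L2 ι G) :
    (inner ℂ (bv p : L2 ι G) f : ℂ) = (f : ι × G → ℂ) p := by
  unfold bv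
  rw [lp.inner_single_left]
  simp

theorem op_adj {x : Matrix ι ι (CG G)} (hx : IsHerm x) {H : L2 ι G →L[ℂ] L2 ι G}
    (h : IsOp x H) : IsOp x (ContinuousLinearMap.adjoint H) := by
  intro i j g u
  rw [← inner_bv (i, g), ContinuousLinearMap.adjoint_inner_right, ← inner_conj_symm, inner_bv,
    h j i u g, hx j i (g * u⁻¹)]
  rw [mul_inv_rev, inv_inv]

end OPXM

open OPXM in
theorem specOPX : SpecOPX := by
  intro G _ ι _ _
  choose Op hOp using fun x : Matrix ι ι (CG G) => exists_op x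
  let L : Matrix ι ι (CG G) →ₗ[ℂ] (L2 ι G →L[ℂ] L2 ι G) :=
    { toFun := Op
      map_add' := fun x y => uniq_op (hOp (x + y)) (op_add (hOp x) (hOp y))
      map_smul' := fun c x => uniq_op (hOp (c • x)) (op_smul c (hOp x)) }
  refine ⟨AlgHom.ofLinearMap L (uniq_op (hOp 1) op_one)
    (fun x y => uniq_op (hOp (x * y)) (op_mul (hOp x) (hOp y))), hOp,
    fun x H h => uniq_op h (hOp x), fun x hx => ?_⟩
  exact uniq_op (op_adj hx (hOp x)) (hOp x)

end Pool.Agent.Lib.MP8a3537.SG
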