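import Pool.Agent.Lib.MP_8a3537_gt.SG.SpecN

/-!
# PGR: finitely generated residually torsion-free nilpotent groups have property `P`
-/

namespace Pool.Agent.Lib.MP8a3537.SG

open scoped BigOperators Pointwise ComplexOrder

namespace PGRM

theorem coeff_mapA {G H : Type} [Group G] [Group H] (π : G →* H) (x : CG G)
    (hx : ∀ g ∈ x.coeff.support, π g = 1 → g = 1) : (mapA π x).coeff 1 = x.coeff 1 := by
  classical
  have h1 : mapA π x = x.coeff.sum fun g b => b • MonoidAlgebra.single (π g) (1 : ℂ) := by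
    rw [mapA, MonoidAlgebra.lift_apply]
    rfl
  rw [h1, MonoidAlgebra.coeff_finsuppSum, Finsupp.sum, Finsupp.finsetSum_apply]
  by_cases h : (1 : G) ∈ x.coeff.support
  · rw [Finset.sum_eq_single_of_mem (1 : G) h]
    · simp
    · intro g hg hg1
      have : π g ≠ 1 := fun h2 => hg1 (hx g hg h2)
      simp [this]
  · rw [Finset.sum_eq_zero]
    · rw [Finsupp.notMem_support_iff] at h
      exact h.symm
    · intro g hg
      have : π g ≠ 1 := fun h2 => h (hx g hg h2 ▸ hg)
      simp [this]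

end PGRM

open PGRM in
theorem specPGR (hRFI : SpecRFI) (hTOR : SpecTOR) (hPTF : SpecPTF) (hPUS : SpecPUS)
    (hGPH : SpecGPH) : SpecPGR := by
  intro G _ hFG hR ι _ _ a e he0 he1 ha j
  classical
  set S : Finset G := Finset.univ.biUnion fun i : ι => ((it a j) i i).coeff.support with hS
  obtain ⟨K, hK, hSK, hnil, htf⟩ := hRFI G hR S
  have hFGQ : Group.FG (G ⧸ K) := inferInstance
  obtain ⟨h, hTFN⟩ := hTOR (G ⧸ K) hFGQ hnil htf
  have hP : P (G ⧸ K) := hPTF h (G ⧸ K) hTFN
  have h1 := hP ι (mapM (QuotientGroup.mk' K) a) e he0 he1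
    (hGPH.2.1 G (G ⧸ K) ι (QuotientGroup.mk' K) a e ha) j
  rw [← hPUS.2.1, hGPH.2.2] at h1
  have h2 : tau (mapM (QuotientGroup.mk' K) (it a j)) = tau (it a j) := by
    unfold tau
    refine Finset.sum_congr rfl fun i _ => ?_
    refine coeff_mapA (QuotientGroup.mk' K) (it a j i i) ?_
    intro g hg hg1
    refine hSK g ?_ ?_
    · rw [hS, Finset.mem_biUnion]
      exact ⟨i, Finset.mem_univ i, hg⟩
    · rwa [QuotientGroup.mk'_apply, QuotientGroup.eq_one_iff] at hg1
  rw [h2] at h1
  exact h1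

end Pool.Agent.Lib.MP8a3537.SG
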