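import Pool.Agent.Lib.MP_8a3537_gt.SG.SpecN

set_option linter.unusedVariables false

namespace Pool.Agent.Lib.MP8a3537.SG

open scoped BigOperators Pointwise ComplexOrder

/-- **PTF**: the property P for iterated central extensions by infinite cyclic groups. -/
theorem specPTF (hTRV : SpecTRV) (hSTP : SpecSTP) (hTSB : SpecTSB) (hTFG : SpecTFG)
    (hSEP : SpecSEP) (hCEF : SpecCEF) (hDIS : SpecDIS) (hRES : SpecRES) : SpecPTF := by
  intro h
  induction h using Nat.strong_induction_on with
  | _ h ih =>
    intro N iN hN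
    cases h with
    | zero => exact hTRV N hN
    | succ h =>
      obtain ⟨hfg, -⟩ := hTFG (h + 1) N hN
      have hN' := hN
      obtain ⟨Q, iQ, π, c, hc, hQ⟩ := hN'
      have hc1 : c ≠ 1 := by
        have h1 := hc.inf 1 one_ne_zero
        rwa [zpow_one] at h1
      obtain ⟨d, f, hf, hfc⟩ := hSEP (h + 1) N hN c hc1
      obtain ⟨g, e, hg, he, hge⟩ := hCEF N c hc.central d f hf hfc
      exact hSTP N Q π c hc (hDIS N c d g e hg he hge) (hRES N c d g e hfg hg he hge)
        (ih h (Nat.lt_succ_self h) Q hQ) (fun B => by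
          obtain ⟨h', hh', hB⟩ := hTSB h Q hQ B
          exact ih h' (Nat.lt_succ_of_le hh') B hB)

end Pool.Agent.Lib.MP8a3537.SG
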