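import Pool.Agent.Lib.MP_8a3537_gt.SG.Spec

/-!
# PUS: the maps `push`, `mapM`, `augM` are algebra homomorphisms and commute with `it`
-/

namespace Pool.Agent.Lib.MP8a3537.SG

open scoped BigOperators Pointwise ComplexOrder

namespace PUSM

/-- algebra homomorphisms commute with the iteration -/
theorem map_it {A B : Type*} [Ring A] [Ring B] [Algebra ℂ A] [Algebra ℂ B] (F : A →ₐ[ℂ] B) (a : A)
    (j : ℕ) : F (it a j) = it (F a) j := by
  induction j with
  | zero => rfl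
  | succ j ih =>
    show F ((3 / 2 : ℂ) • it a j - (1 / 2 : ℂ) • (it a j) ^ 3)
      = (3 / 2 : ℂ) • it (F a) j - (1 / 2 : ℂ) • (it (F a) j) ^ 3
    rw [map_sub, map_smul, map_smul, map_pow, ih]

/-- `push Φ` as an algebra homomorphism -/
noncomputable def pushA {G : Type} [Group G] {ι κ : Type} [Fintype ι] [DecidableEq ι] [Fintype κ]
    [DecidableEq κ] {B : Type} [Ring B] [Algebra ℂ B] (Φ : CG G →ₐ[ℂ] Matrix κ κ B) :
    Matrix ι ι (CG G) →ₐ[ℂ] Matrix (ι × κ) (ι × κ) B :=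
  (Matrix.compAlgEquiv ι κ B ℂ).toAlgHom.comp Φ.mapMatrix

theorem pushA_apply {G : Type} [Group G] {ι κ : Type} [Fintype ι] [DecidableEq ι] [Fintype κ]
    [DecidableEq κ] {B : Type} [Ring B] [Algebra ℂ B] (Φ : CG G →ₐ[ℂ] Matrix κ κ B)
    (x : Matrix ι ι (CG G)) : pushA Φ x = push Φ x := by
  ext p q
  rfl

/-- `mapM π` as an algebra homomorphism -/
theorem mapM_eq {G H : Type} [Group G] [Group H] {ι : Type} [Fintype ι] [DecidableEq ι]
    (π : G →* H) (x : Matrix ι ι (CG G)) : (mapA π).mapMatrix x = mapM π x := by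
  ext p q
  rfl

theorem augM_eq {G : Type} [Group G] {ι : Type} [Fintype ι] [DecidableEq ι]
    (x : Matrix ι ι (CG G)) : (aug : CG G →ₐ[ℂ] ℂ).mapMatrix x = augM x := by
  ext p q
  rfl

end PUSM

open PUSM in
theorem specPUS : SpecPUS := by
  refine ⟨?_, ?_, ?_⟩
  · intro G _ ι κ _ _ _ _ B _ _ Φ a j
    rw [← pushA_apply, map_it, pushA_apply]
  · intro G H _ _ ι _ _ π a j
    rw [← mapM_eq, map_it, mapM_eq]
  · intro G _ ι _ _ a j
    rw [← augM_eq, map_it, augM_eq]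

end Pool.Agent.Lib.MP8a3537.SG
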