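import Pool.Agent.Lib.MP_8a3537_gt.SG.SpecN

/-!
# MP_8a3537_gt, row SG, module PWM : powers of the augmentation ideal
-/

set_option autoImplicit false

namespace Pool.Agent.Lib.MP8a3537.SG

namespace PWMM

variable {N : Type} [Group N]

theorem dg_mem (g : N) : dg g ∈ aI N := Submodule.subset_span ⟨g, rfl⟩

theorem dg_mul_of (g k : N) : dg g * MonoidAlgebra.of ℤ N k ∈ aI N := by
  have h : dg g * MonoidAlgebra.of ℤ N k = dg (g * k) - dg k := by
    unfold dg
    rw [MonoidAlgebra.of_apply, sub_mul, MonoidAlgebra.single_mul_single, one_mul, one_mul]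
    abel
  rw [h]
  exact (aI N).sub_mem (dg_mem _) (dg_mem _)

theorem of_mul_dg (g k : N) : MonoidAlgebra.of ℤ N k * dg g ∈ aI N := by
  have h : MonoidAlgebra.of ℤ N k * dg g = dg (k * g) - dg k := by
    unfold dg
    rw [MonoidAlgebra.of_apply, mul_sub, MonoidAlgebra.single_mul_single, mul_one, mul_one]
    abel
  rw [h]
  exact (aI N).sub_mem (dg_mem _) (dg_mem _)

theorem dg_mul (g : N) (y : ZG N) : dg g * y ∈ aI N := by
  induction y using MonoidAlgebra.induction_on with
  | of k => exact dg_mul_of g k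
  | add a b ha hb =>
    rw [mul_add]
    exact (aI N).add_mem ha hb
  | smul r a ha =>
    rw [mul_smul_comm]
    exact (aI N).smul_mem r ha

theorem mul_dg (g : N) (y : ZG N) : y * dg g ∈ aI N := by
  induction y using MonoidAlgebra.induction_on with
  | of k => exact of_mul_dg g k
  | add a b ha hb =>
    rw [add_mul]
    exact (aI N).add_mem ha hb
  | smul r a ha =>
    rw [smul_mul_assoc]
    exact (aI N).smul_mem r ha

theorem aI_mul_top : aI N * ⊤ = aI N := by
  apply le_antisymm
  · rw [Submodule.mul_le]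
    intro m hm n _
    unfold aI at hm
    induction hm using Submodule.span_induction with
    | mem x hx =>
      obtain ⟨g, rfl⟩ := hx
      exact dg_mul g n
    | zero =>
      rw [zero_mul]
      exact (aI N).zero_mem
    | add x y _ _ hx hy =>
      rw [add_mul]
      exact (aI N).add_mem hx hy
    | smul a x _ hx =>
      rw [smul_mul_assoc]
      exact (aI N).smul_mem a hx
  · intro x hx
    have h := Submodule.mul_mem_mul hx (Submodule.mem_top (x := (1 : ZG N)) (R := ℤ))
    rwa [mul_one] at h

theorem top_mul_aI : (⊤ : Submodule ℤ (ZG N)) * aI N = aI N := by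
  apply le_antisymm
  · rw [Submodule.mul_le]
    intro n _ m hm
    unfold aI at hm
    induction hm using Submodule.span_induction with
    | mem x hx =>
      obtain ⟨g, rfl⟩ := hx
      exact mul_dg g n
    | zero =>
      rw [mul_zero]
      exact (aI N).zero_mem
    | add x y _ _ hx hy =>
      rw [mul_add]
      exact (aI N).add_mem hx hy
    | smul a x _ hx =>
      rw [mul_smul_comm]
      exact (aI N).smul_mem a hx
  · intro x hx
    have h := Submodule.mul_mem_mul (Submodule.mem_top (x := (1 : ZG N)) (R := ℤ)) hx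
    rwa [one_mul] at h

theorem top_mul_top : (⊤ : Submodule ℤ (ZG N)) * ⊤ = ⊤ := by
  rw [eq_top_iff]
  intro x _
  have h := Submodule.mul_mem_mul (Submodule.mem_top (x := x) (R := ℤ))
    (Submodule.mem_top (x := (1 : ZG N)) (R := ℤ))
  rwa [mul_one] at h

theorem pw_zero : pw N 0 = ⊤ := rfl

theorem pw_succ (j : ℕ) : pw N (j + 1) = pw N j * aI N := rfl

theorem pw_mul_top (i : ℕ) : pw N i * ⊤ = pw N i := by
  cases i with
  | zero => exact top_mul_top
  | succ i => rw [pw_succ, mul_assoc, aI_mul_top]

theorem pw_mul (i j : ℕ) : pw N i * pw N j = pw N (i + j) := by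
  induction j with
  | zero => exact pw_mul_top i
  | succ j ih => rw [pw_succ, ← mul_assoc, ih, ← add_assoc, pw_succ]

end PWMM

theorem specPWM : SpecPWM := by
  intro N _
  refine ⟨PWMM.pw_mul, ?_, ?_⟩
  · intro i
    rw [PWMM.pw_succ]
    calc pw N i * aI N ≤ pw N i * ⊤ := mul_le_mul' le_rfl le_top
      _ = pw N i := PWMM.pw_mul_top i
  · intro g
    rw [PWMM.pw_succ, PWMM.pw_zero, PWMM.top_mul_aI]
    exact PWMM.dg_mem g

end Pool.Agent.Lib.MP8a3537.SG
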