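import Pool.Agent.Lib.MP_8a3537_gt.SG.Spec

/-!
# REI: reindexing does not change the signature
-/

set_option linter.unusedVariables false

namespace Pool.Agent.Lib.MP8a3537.SG

open scoped BigOperators Pointwise ComplexOrder

namespace REIM

open Polynomial in
lemma map_eq {κ κ' : Type} [Fintype κ] [DecidableEq κ] [Fintype κ'] (A : Matrix κ κ ℂ) (hA : A.IsHermitian)
    (d : κ' → ℝ) (h : A.charpoly = ∏ i, (X - C ((d i : ℝ) : ℂ))) :
    Multiset.map hA.eigenvalues Finset.univ.val = Multiset.map d Finset.univ.val := by
  have h1 := hA.roots_charpoly_eq_eigenvalues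
  have h2 : A.charpoly.roots = Multiset.map (fun i => ((d i : ℝ) : ℂ)) Finset.univ.val := by
    rw [h, Polynomial.roots_prod]
    · simp
    · simp [Finset.prod_ne_zero_iff, Polynomial.X_sub_C_ne_zero]
  rw [h1] at h2
  have h3 := congrArg (Multiset.map Complex.re) h2
  rw [Multiset.map_map, Multiset.map_map] at h3
  exact h3

open Classical in
lemma card_filter_eq {κ : Type} [Fintype κ] (f : κ → ℝ) (p : ℝ → Prop) :
    (Finset.univ.filter fun i => p (f i)).card = Multiset.countP p (Multiset.map f Finset.univ.val) := by
  rw [Multiset.countP_map, Finset.card_def, Finset.filter_val]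

open Classical Polynomial in
/-- the signature from the characteristic polynomial -/
lemma sgn_eq {κ κ' : Type} [Fintype κ] [DecidableEq κ] [Fintype κ'] (A : Matrix κ κ ℂ) (hA : A.IsHermitian)
    (d : κ' → ℝ) (h : A.charpoly = ∏ i, (X - C ((d i : ℝ) : ℂ))) :
    sgn A = ((Finset.univ.filter fun i => 0 < d i).card : ℤ) - ((Finset.univ.filter fun i => d i < 0).card : ℤ) := by
  have h1 := map_eq A hA d h
  rw [sgn, dif_pos hA]
  have e1 : (Finset.univ.filter fun i => 0 < hA.eigenvalues i).card = (Finset.univ.filter fun i => 0 < d i).card := by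
    rw [card_filter_eq hA.eigenvalues (fun x => 0 < x), card_filter_eq d (fun x => 0 < x), h1]
  have e2 : (Finset.univ.filter fun i => hA.eigenvalues i < 0).card = (Finset.univ.filter fun i => d i < 0).card := by
    rw [card_filter_eq hA.eigenvalues (fun x => x < 0), card_filter_eq d (fun x => x < 0), h1]
  rw [e1, e2]

end REIM

open REIM in
theorem specREI : SpecREI := by
  classical
  intro κ κ' _ _ _ _ f A
  constructor
  · by_cases hA : A.IsHermitian
    · have hB : (Matrix.reindex f f A).IsHermitian := by
        unfold Matrix.IsHermitian at *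
        rw [Matrix.conjTranspose_reindex, hA]
      rw [sgn_eq (Matrix.reindex f f A) hB hA.eigenvalues (by rw [Matrix.charpoly_reindex, hA.charpoly_eq]; rfl), sgn, dif_pos hA]
    · have hB : ¬ (Matrix.reindex f f A).IsHermitian := by
        intro hB
        apply hA
        have h2 : A = Matrix.reindex f.symm f.symm (Matrix.reindex f f A) := by
          ext i j
          simp
        rw [h2]
        unfold Matrix.IsHermitian at *
        rw [Matrix.conjTranspose_reindex, hB]
      rw [sgn, sgn, dif_neg hA, dif_neg hB]
  · by_cases hA : A.IsHermitian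
    · rw [sgn, dif_pos hA]
      have h1 : (Finset.univ.filter fun i => 0 < hA.eigenvalues i).card ≤ Fintype.card κ := Finset.card_le_univ _
      have h2 : (Finset.univ.filter fun i => hA.eigenvalues i < 0).card ≤ Fintype.card κ := Finset.card_le_univ _
      rw [abs_le]
      constructor
      · omega
      · omega
    · rw [sgn, dif_neg hA]
      simp

end Pool.Agent.Lib.MP8a3537.SG
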