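import Pool.Agent.Lib.MP_8a3537_gt.SG.SpecN

/-!
# RFG: reduction to finitely generated groups
-/

set_option linter.unusedVariables false

namespace Pool.Agent.Lib.MP8a3537.SG

open scoped BigOperators Pointwise ComplexOrder

namespace RFGM

theorem nil_inj {A B : Type} [Group A] [Group B] (f : A →* B) (hf : Function.Injective f)
    (hB : Group.IsNilpotent B) : Group.IsNilpotent A := by
  have := hB
  exact Group.nilpotent_of_mulEquiv (MonoidHom.ofInjective hf).symm

theorem mapA_single {G H : Type} [Group G] [Group H] (π : G →* H) (g : G) (c : ℂ) :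
    mapA π (MonoidAlgebra.single g c) = MonoidAlgebra.single (π g) c := by
  unfold mapA
  rw [MonoidAlgebra.lift_single]
  show c • MonoidAlgebra.single (π g) (1 : ℂ) = _
  rw [MonoidAlgebra.smul_single, smul_eq_mul, mul_one]

theorem coeff_mapA {G H : Type} [Group G] [Group H] (π : G →* H) (hπ : Function.Injective π)
    (x : CG G) (u : G) : (mapA π x).coeff (π u) = x.coeff u := by
  classical
  induction x using MonoidAlgebra.induction_linear with
  | zero => rw [map_zero]; rfl
  | add x y hx hy =>
    rw [map_add, MonoidAlgebra.coeff_add, MonoidAlgebra.coeff_add, Finsupp.add_apply,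
      Finsupp.add_apply, hx, hy]
  | single g c =>
    rw [mapA_single, MonoidAlgebra.coeff_single, MonoidAlgebra.coeff_single,
      Finsupp.single_apply, Finsupp.single_apply]
    by_cases h : g = u
    · rw [if_pos h, if_pos (congrArg π h)]
    · rw [if_neg h, if_neg (fun h' => h (hπ h'))]

theorem mapA_inj {G H : Type} [Group G] [Group H] (π : G →* H) (hπ : Function.Injective π) :
    Function.Injective (mapA π) := by
  intro x y hxy
  apply MonoidAlgebra.coeff_injective
  ext u
  rw [← coeff_mapA π hπ, ← coeff_mapA π hπ, hxy]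

theorem exists_lift {G : Type} [Group G] (G0 : Subgroup G) (x : CG G)
    (hx : ∀ g, x.coeff g ≠ 0 → g ∈ G0) : ∃ x0 : CG G0, mapA G0.subtype x0 = x := by
  classical
  have h1 : x ∈ (mapA G0.subtype).range := by
    rw [← MonoidAlgebra.sum_coeff_single x]
    unfold Finsupp.sum
    refine Subalgebra.sum_mem _ fun g hg => ?_
    have hg0 : g ∈ G0 := hx g (Finsupp.mem_support_iff.1 hg)
    exact ⟨MonoidAlgebra.single (⟨g, hg0⟩ : G0) (x.coeff g), mapA_single _ _ _⟩
  exact h1

theorem mapM_mul {G H : Type} [Group G] [Group H] {ι : Type} [Fintype ι] (π : G →* H)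
    (x y : Matrix ι ι (CG G)) : mapM π (x * y) = mapM π x * mapM π y := by
  ext1 i j
  show mapA π ((x * y) i j) = (mapM π x * mapM π y) i j
  rw [Matrix.mul_apply, Matrix.mul_apply, map_sum]
  refine Finset.sum_congr rfl fun k _ => ?_
  rw [map_mul]
  rfl

theorem mapM_one {G H : Type} [Group G] [Group H] {ι : Type} [DecidableEq ι] (π : G →* H) :
    mapM π (1 : Matrix ι ι (CG G)) = 1 := by
  ext1 i j
  show mapA π ((1 : Matrix ι ι (CG G)) i j) = (1 : Matrix ι ι (CG H)) i j
  rw [Matrix.one_apply, Matrix.one_apply]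
  split_ifs
  · rw [map_one]
  · rw [map_zero]

theorem mapM_inj {G H : Type} [Group G] [Group H] {ι : Type} (π : G →* H)
    (hπ : Function.Injective π) {x y : Matrix ι ι (CG G)} (h : mapM π x = mapM π y) : x = y := by
  ext1 i j
  apply mapA_inj π hπ
  exact congrFun (congrFun h i) j

theorem rtfn_sub {G : Type} [Group G] (hG : RTFN G) (G0 : Subgroup G) : RTFN G0 := by
  intro g hg
  have hg1 : (g : G) ≠ 1 := fun h => hg (Subtype.ext h)
  obtain ⟨K, nK, hgK, iK, tK⟩ := hG g hg1
  have := nK
  have nK' : (K.comap G0.subtype).Normal := Subgroup.Normal.comap nK G0.subtype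
  let φ : G0 →* G ⧸ K := (QuotientGroup.mk' K).comp G0.subtype
  have hker : φ.ker = K.comap G0.subtype := by
    ext u
    rw [MonoidHom.mem_ker, Subgroup.mem_comap]
    show (QuotientGroup.mk' K) (G0.subtype u) = 1 ↔ _
    rw [QuotientGroup.mk'_apply, QuotientGroup.eq_one_iff]
  refine ⟨K.comap G0.subtype, nK', ?_, ?_, ?_⟩
  · rw [Subgroup.mem_comap]
    exact hgK
  · have h1 : Group.IsNilpotent (G0 ⧸ φ.ker) :=
      nil_inj (QuotientGroup.kerLift φ) (QuotientGroup.kerLift_injective φ) iK
    have := h1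
    exact Group.nilpotent_of_mulEquiv (QuotientGroup.quotientMulEquivOfEq hker)
  · intro x n hn hx
    obtain ⟨u, rfl⟩ := QuotientGroup.mk_surjective x
    rw [← QuotientGroup.mk_pow, QuotientGroup.eq_one_iff, Subgroup.mem_comap] at hx
    rw [QuotientGroup.eq_one_iff, Subgroup.mem_comap]
    have h2 : ((G0.subtype u : G) : G ⧸ K) ^ n = 1 := by
      rw [← QuotientGroup.mk_pow, QuotientGroup.eq_one_iff, ← map_pow]
      exact hx
    exact (QuotientGroup.eq_one_iff _).1 (tK _ n hn h2)

end RFGM

open RFGM in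
theorem specRFG : SpecRFG := by
  intro G _ ι _ _ h h' hG hh h1 h2
  classical
  let T : Finset G := (Finset.univ : Finset (ι × ι)).biUnion fun p =>
    (h p.1 p.2).coeff.support ∪ (h' p.1 p.2).coeff.support
  let G0 : Subgroup G := Subgroup.closure (T : Set G)
  have hT : ∀ i j g, (h i j).coeff g ≠ 0 ∨ (h' i j).coeff g ≠ 0 → g ∈ G0 := by
    intro i j g hg
    apply Subgroup.subset_closure
    rw [Finset.mem_coe, Finset.mem_biUnion]
    refine ⟨(i, j), Finset.mem_univ _, ?_⟩
    rw [Finset.mem_union, Finsupp.mem_support_iff, Finsupp.mem_support_iff]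
    exact hg
  have e1 : ∀ i j, ∃ x0 : CG G0, mapA G0.subtype x0 = h i j := fun i j =>
    exists_lift G0 _ fun g hg => hT i j g (Or.inl hg)
  have e2 : ∀ i j, ∃ x0 : CG G0, mapA G0.subtype x0 = h' i j := fun i j =>
    exists_lift G0 _ fun g hg => hT i j g (Or.inr hg)
  choose a ha using e1
  choose b hb using e2
  have hi : Function.Injective G0.subtype := Subgroup.subtype_injective G0
  have ma : mapM G0.subtype (Matrix.of a) = h := by
    ext1 i j
    exact ha i j
  have mb : mapM G0.subtype (Matrix.of b) = h' := by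
    ext1 i j
    exact hb i j
  refine ⟨G0, Matrix.of a, Matrix.of b, ?_, rtfn_sub hG G0, ?_, ?_, ?_, ma, ?_⟩
  · rw [Group.fg_iff_subgroup_fg]
    exact ⟨T, rfl⟩
  · intro i j g
    have h3 := hh i j (G0.subtype g)
    have h4 := coeff_mapA G0.subtype hi (a j i) g
    have h5 := coeff_mapA G0.subtype hi (a i j) g⁻¹
    rw [ha] at h4 h5
    rw [map_inv] at h5
    show (a j i).coeff g = (starRingEnd ℂ) ((a i j).coeff g⁻¹)
    rw [← h4, ← h5]
    exact h3
  · apply mapM_inj G0.subtype hi
    rw [mapM_mul, ma, mb, mapM_one]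
    exact h1
  · apply mapM_inj G0.subtype hi
    rw [mapM_mul, ma, mb, mapM_one]
    exact h2
  · intro x
    unfold tau
    refine Finset.sum_congr rfl fun i _ => ?_
    have := coeff_mapA G0.subtype hi (x i i) 1
    rw [map_one] at this
    exact this

end Pool.Agent.Lib.MP8a3537.SG
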