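import Pool.Agent.Lib.MP_8a3537_gt.SG.SpecN

/-!
# RFI: finite subsets of residually torsion-free nilpotent groups
-/

set_option linter.unusedVariables false

namespace Pool.Agent.Lib.MP8a3537.SG

open scoped BigOperators Pointwise ComplexOrder

namespace RFIM

/-- nilpotent and torsion-free quotient -/
def Good {G : Type} [Group G] (K : Subgroup G) : Prop :=
  ∃ _ : K.Normal, Group.IsNilpotent (G ⧸ K) ∧ ∀ g : G, ∀ n : ℕ, 0 < n → g ^ n ∈ K → g ∈ K

theorem nil_inj {A B : Type} [Group A] [Group B] (f : A →* B) (hf : Function.Injective f)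
    (hB : Group.IsNilpotent B) : Group.IsNilpotent A := by
  have := hB
  exact Group.nilpotent_of_mulEquiv (MonoidHom.ofInjective hf).symm

theorem good_inf {G : Type} [Group G] {K L : Subgroup G} (hK : Good K) (hL : Good L) :
    Good (K ⊓ L) := by
  obtain ⟨nK, iK, tK⟩ := hK
  obtain ⟨nL, iL, tL⟩ := hL
  have := nK
  have := nL
  refine ⟨inferInstance, ?_, ?_⟩
  · let φ : G →* (G ⧸ K) × (G ⧸ L) := (QuotientGroup.mk' K).prod (QuotientGroup.mk' L)
    have hker : φ.ker = K ⊓ L := by
      ext g
      rw [MonoidHom.mem_ker, Subgroup.mem_inf]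
      show ((QuotientGroup.mk' K) g, (QuotientGroup.mk' L) g) = 1 ↔ _
      rw [Prod.mk_eq_one]
      rw [QuotientGroup.mk'_apply, QuotientGroup.mk'_apply, QuotientGroup.eq_one_iff,
        QuotientGroup.eq_one_iff]
    have := iK
    have := iL
    have hB : Group.IsNilpotent ((G ⧸ K) × (G ⧸ L)) := inferInstance
    have h1 : Group.IsNilpotent (G ⧸ φ.ker) :=
      nil_inj (QuotientGroup.kerLift φ) (QuotientGroup.kerLift_injective φ) hB
    have := h1
    exact Group.nilpotent_of_mulEquiv (QuotientGroup.quotientMulEquivOfEq hker)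
  · intro g n hn hg
    exact ⟨tK g n hn hg.1, tL g n hn hg.2⟩

theorem good_top (G : Type) [Group G] : Good (⊤ : Subgroup G) := by
  refine ⟨inferInstance, ?_, fun _ _ _ _ => trivial⟩
  have : Subsingleton (G ⧸ (⊤ : Subgroup G)) := QuotientGroup.subsingleton_quotient_top
  exact Group.isNilpotent_of_subsingleton

theorem tf_iff {G : Type} [Group G] (K : Subgroup G) [K.Normal] :
    (∀ x : G ⧸ K, ∀ n : ℕ, 0 < n → x ^ n = 1 → x = 1) ↔
      ∀ g : G, ∀ n : ℕ, 0 < n → g ^ n ∈ K → g ∈ K := by
  constructor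
  · intro h g n hn hg
    have := h (g : G ⧸ K) n hn (by
      rw [← QuotientGroup.mk_pow]
      exact (QuotientGroup.eq_one_iff _).2 hg)
    exact (QuotientGroup.eq_one_iff _).1 this
  · intro h x n hn hx
    obtain ⟨g, rfl⟩ := QuotientGroup.mk_surjective x
    rw [← QuotientGroup.mk_pow] at hx
    exact (QuotientGroup.eq_one_iff _).2 (h g n hn ((QuotientGroup.eq_one_iff _).1 hx))

end RFIM

open RFIM in
theorem specRFI : SpecRFI := by
  intro G _ hG S
  have key : ∃ K : Subgroup G, Good K ∧ ∀ g ∈ S, g ∈ K → g = 1 := by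
    classical
    induction S using Finset.induction_on with
    | empty => exact ⟨⊤, good_top G, by simp⟩
    | insert a s ha ih =>
      obtain ⟨K, hK, h1⟩ := ih
      by_cases h : a = 1
      · refine ⟨K, hK, ?_⟩
        intro g hg hgK
        rcases Finset.mem_insert.1 hg with rfl | hg
        · exact h
        · exact h1 g hg hgK
      · obtain ⟨L, nL, haL, iL, tL⟩ := hG a h
        have := nL
        have hL : Good L := ⟨nL, iL, (tf_iff L).1 tL⟩
        refine ⟨K ⊓ L, good_inf hK hL, ?_⟩
        intro g hg hgK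
        rcases Finset.mem_insert.1 hg with rfl | hg
        · exact absurd hgK.2 haL
        · exact h1 g hg hgK.1
  obtain ⟨K, ⟨nK, iK, tK⟩, h1⟩ := key
  have := nK
  exact ⟨K, nK, h1, iK, (tf_iff K).2 tK⟩

end Pool.Agent.Lib.MP8a3537.SG
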