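import Pool.Agent.Lib.MP_8a3537_gt.SG.SpecN

/-!
# MP_8a3537_gt, block SG, module ROO: unique roots in torsion-free nilpotent groups
-/

set_option linter.unusedVariables false

namespace Pool.Agent.Lib.MP8a3537.SG

open scoped commutatorElement

namespace ROOM

/-- powers of an element with central commutator -/
lemma comm_pow {Q : Type} [Group Q] (x y : Q) (hc : ∀ g : Q, ⁅x, y⁆ * g = g * ⁅x, y⁆) (k : ℕ) :
    ⁅x ^ k, y⁆ = ⁅x, y⁆ ^ k := by
  set c := ⁅x, y⁆ with hcd
  rw [commutatorElement_def] at hcd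
  have h5 : y * x * y⁻¹ = c⁻¹ * x := by
    rw [hcd]; group
  have h6 : (y * x * y⁻¹) ^ k = y * x ^ k * y⁻¹ := conj_pow
  have hcom : Commute c⁻¹ x := Commute.inv_left (hc x)
  rw [h5, hcom.mul_pow, inv_pow] at h6
  rw [commutatorElement_def]
  have : x ^ k * y * (x ^ k)⁻¹ * y⁻¹ = x ^ k * (y * x ^ k * y⁻¹)⁻¹ := by group
  rw [this, ← h6]
  group

variable {N : Type} [Group N]

/-- modulo a term of the upper central series the next term is central -/
lemma cen (i : ℕ) (z : N) (hz : z ∈ Subgroup.upperCentralSeries N (i + 1))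
    (g : N ⧸ Subgroup.upperCentralSeries N i) :
    QuotientGroup.mk' (Subgroup.upperCentralSeries N i) z * g = g *
      QuotientGroup.mk' (Subgroup.upperCentralSeries N i) z := by
  obtain ⟨g, rfl⟩ := QuotientGroup.mk'_surjective _ g
  have h1 := Subgroup.mem_upperCentralSeries_succ_iff.1 hz g
  have h2 : QuotientGroup.mk' (Subgroup.upperCentralSeries N i) ⁅z, g⁆ = 1 :=
    (QuotientGroup.eq_one_iff _).2 h1
  rw [map_commutatorElement, commutatorElement_eq_one_iff_mul_comm] at h2
  exact h2

/-- the terms of the upper central series are isolated in the next one -/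
lemma iso (ht : ∀ x : N, ∀ n : ℕ, 0 < n → x ^ n = 1 → x = 1) (i : ℕ) :
    ∀ x ∈ Subgroup.upperCentralSeries N (i + 1), ∀ k : ℕ, 0 < k →
      x ^ k ∈ Subgroup.upperCentralSeries N i → x ∈ Subgroup.upperCentralSeries N i := by
  induction i with
  | zero =>
    intro x _ k hk hx
    rw [Subgroup.upperCentralSeries_zero, Subgroup.mem_bot] at hx ⊢
    exact ht x k hk hx
  | succ i ih =>
    intro x hx k hk hxk
    rw [Subgroup.mem_upperCentralSeries_succ_iff]
    intro y
    have h1 : ⁅x, y⁆ ∈ Subgroup.upperCentralSeries N (i + 1) :=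
      Subgroup.mem_upperCentralSeries_succ_iff.1 hx y
    have h2 : ⁅x ^ k, y⁆ ∈ Subgroup.upperCentralSeries N i :=
      Subgroup.mem_upperCentralSeries_succ_iff.1 hxk y
    refine ih _ h1 k hk ?_
    have h3 : QuotientGroup.mk' (Subgroup.upperCentralSeries N i) ⁅x ^ k, y⁆ = 1 :=
      (QuotientGroup.eq_one_iff _).2 h2
    have h4 := comm_pow (QuotientGroup.mk' (Subgroup.upperCentralSeries N i) x)
      (QuotientGroup.mk' (Subgroup.upperCentralSeries N i) y) (fun g => by
        rw [← map_commutatorElement]; exact cen i _ h1 g) k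
    rw [← map_commutatorElement, ← map_pow, ← map_commutatorElement, h3, ← map_pow] at h4
    exact (QuotientGroup.eq_one_iff _).1 h4.symm

lemma roots (ht : ∀ x : N, ∀ n : ℕ, 0 < n → x ^ n = 1 → x = 1) (x y : N) (k : ℕ) (hk : 0 < k)
    (h : x ^ k = y ^ k) (i : ℕ) (hi : x⁻¹ * y ∈ Subgroup.upperCentralSeries N i) : x = y := by
  induction i with
  | zero =>
    rw [Subgroup.upperCentralSeries_zero, Subgroup.mem_bot, inv_mul_eq_one] at hi
    exact hi
  | succ i ih =>
    apply ih
    refine iso ht i _ hi k hk ?_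
    set z := x⁻¹ * y with hz
    have hy : y = x * z := by rw [hz]; group
    have hcom : Commute (QuotientGroup.mk' (Subgroup.upperCentralSeries N i) x)
      (QuotientGroup.mk' (Subgroup.upperCentralSeries N i) z) := (cen i z hi _).symm
    have h1 : QuotientGroup.mk' (Subgroup.upperCentralSeries N i) (x ^ k) =
      QuotientGroup.mk' (Subgroup.upperCentralSeries N i) (y ^ k) := by rw [h]
    rw [hy, map_pow, map_pow, map_mul, hcom.mul_pow] at h1
    have h2 : QuotientGroup.mk' (Subgroup.upperCentralSeries N i) (z ^ k) = 1 := by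
      rw [map_pow]
      exact mul_eq_left.1 h1.symm
    exact (QuotientGroup.eq_one_iff _).1 h2

end ROOM

open ROOM in
/-- **ROO**. -/
theorem specROO : SpecROO := by
  intro N _ hN ht x y k hk h
  obtain ⟨n, hn⟩ := hN.nilpotent
  exact roots ht x y k hk h n (by rw [hn]; trivial)

end Pool.Agent.Lib.MP8a3537.SG
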