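import Pool.Agent.Lib.MP_8a3537_gt.SG.SpecN

/-!
# SEP: polynomial functions separate the points of iterated central extensions
-/

set_option linter.unusedVariables false

namespace Pool.Agent.Lib.MP8a3537.SG

open scoped BigOperators Pointwise ComplexOrder

namespace SEPM

variable {N : Type} [Group N]

/-- the homomorphism to the units of the dual numbers -/
noncomputable def phi0 (f : N →* Multiplicative ℤ) : N →* TrivSqZeroExt ℤ ℤ where
  toFun g := TrivSqZeroExt.inl 1 + TrivSqZeroExt.inr (Multiplicative.toAdd (f g))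
  map_one' := by
    ext <;> simp
  map_mul' a b := by
    ext
    · simp
    · simp [toAdd_mul]; ring

/-- its linear extension -/
noncomputable def phi (f : N →* Multiplicative ℤ) : ZG N →ₐ[ℤ] TrivSqZeroExt ℤ ℤ :=
  MonoidAlgebra.lift ℤ (TrivSqZeroExt ℤ ℤ) N (phi0 f)

lemma phi_single (f : N →* Multiplicative ℤ) (g : N) :
    phi f (MonoidAlgebra.single g 1) = TrivSqZeroExt.inl 1 + TrivSqZeroExt.inr (Multiplicative.toAdd (f g)) := by
  unfold phi
  rw [MonoidAlgebra.lift_single, one_smul]
  rfl

lemma fst_dg (f : N →* Multiplicative ℤ) (g : N) : (phi f (dg g)).fst = 0 := by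
  unfold dg
  rw [map_sub, phi_single, map_one]
  simp

lemma fst_aI (f : N →* Multiplicative ℤ) (x : ZG N) (hx : x ∈ aI N) : (phi f x).fst = 0 := by
  unfold aI at hx
  induction hx using Submodule.span_induction with
  | mem x hx =>
    obtain ⟨g, rfl⟩ := hx
    exact fst_dg f g
  | zero => simp
  | add x y _ _ hx hy => rw [map_add, TrivSqZeroExt.fst_add, hx, hy, add_zero]
  | smul a x _ hx => rw [map_smul, TrivSqZeroExt.fst_smul, hx, smul_zero]

lemma fst_pw (f : N →* Multiplicative ℤ) (j : ℕ) (x : ZG N) (hx : x ∈ pw N (j + 1)) : (phi f x).fst = 0 := by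
  have hx' : x ∈ pw N j * aI N := hx
  clear hx
  induction hx' using Submodule.mul_induction_on' with
  | mem_mul_mem m hm n hn => rw [map_mul, TrivSqZeroExt.fst_mul, fst_aI f n hn, mul_zero]
  | add x _ y _ hx hy =>
    rw [map_add, TrivSqZeroExt.fst_add, hx, hy, add_zero]

lemma phi_pw (f : N →* Multiplicative ℤ) (x : ZG N) (hx : x ∈ pw N (1 + 1)) : phi f x = 0 := by
  have hx' : x ∈ pw N 1 * aI N := hx
  clear hx
  induction hx' using Submodule.mul_induction_on' with
  | mem_mul_mem m hm n hn =>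
    rw [map_mul]
    have h1 := fst_pw f 0 m hm
    have h2 := fst_aI f n hn
    ext
    · rw [TrivSqZeroExt.fst_mul, h1, zero_mul]; rfl
    · rw [TrivSqZeroExt.snd_mul, h1, h2]; simp
  | add x _ y _ hx hy =>
    rw [map_add, hx, hy, add_zero]

/-- the linear function -/
noncomputable def lf (f : N →* Multiplicative ℤ) : ZG N →ₗ[ℤ] ℤ :=
  (TrivSqZeroExt.sndHom ℤ ℤ).comp (phi f).toLinearMap

lemma lf_pol (f : N →* Multiplicative ℤ) : IsPol 1 (lf f) := by
  intro x hx
  unfold lf
  rw [LinearMap.comp_apply, AlgHom.toLinearMap_apply, phi_pw f x hx, map_zero]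

lemma lf_single (f : N →* Multiplicative ℤ) (g : N) : lf f (MonoidAlgebra.single g 1) = Multiplicative.toAdd (f g) := by
  unfold lf
  rw [LinearMap.comp_apply, AlgHom.toLinearMap_apply, phi_single]
  simp

lemma lf_one (f : N →* Multiplicative ℤ) : lf f 1 = 0 := by
  have := lf_single f 1
  rw [map_one] at this
  rw [MonoidAlgebra.one_def, this]
  rfl

end SEPM

open SEPM in
theorem specSEP (hTKZ : SpecTKZ) (hTFG : SpecTFG) (hEXT : SpecEXT) : SpecSEP := by
  intro h
  induction h with
  | zero =>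
    intro N iN hN g hg
    have hs : Subsingleton N := hN
    exact absurd (Subsingleton.elim g 1) hg
  | succ h ih =>
    intro N iN hN g hg
    obtain ⟨f, hf, hK⟩ := hTKZ h N hN
    by_cases h1 : f g = 1
    · have h2 : (⟨g, h1⟩ : f.ker) ≠ 1 := by
        intro h0
        exact hg (congrArg Subtype.val h0)
      obtain ⟨d, f0, hf0, hne⟩ := ih f.ker hK ⟨g, h1⟩ h2
      obtain ⟨D, F, hF, hres⟩ := hEXT N f hf (hTFG (h + 1) N hN).2 d f0 hf0
      refine ⟨D, F, hF, ?_⟩
      have e1 := hres ⟨g, h1⟩
      have e2 := hres 1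
      rw [MonoidAlgebra.one_def] at hne ⊢
      have e3 : F (MonoidAlgebra.single g 1) = f0 (MonoidAlgebra.single ⟨g, h1⟩ 1) := e1
      have e4 : F (MonoidAlgebra.single (1 : N) 1) = f0 (MonoidAlgebra.single 1 1) := e2
      rw [e3, e4]
      exact hne
    · refine ⟨1, lf f, lf_pol f, ?_⟩
      rw [lf_single, lf_one]
      intro h0
      apply h1
      exact Multiplicative.toAdd.injective h0

end Pool.Agent.Lib.MP8a3537.SG
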