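import Pool.Agent.Lib.MP_8a3537_gt.SG.SpecN

/-!
# SGE: existence of the sign of an invertible self-adjoint operator
-/

set_option linter.unusedVariables false

namespace Pool.Agent.Lib.MP8a3537.SG

open scoped BigOperators Pointwise ComplexOrder

namespace SGEM

lemma sign_cont {s : Set ℝ} (h0 : (0 : ℝ) ∉ s) : ContinuousOn (fun x : ℝ => x / |x|) s := by
  intro x hx
  have hx0 : x ≠ 0 := fun h => h0 (h ▸ hx)
  exact (continuousAt_id.div (continuous_abs.continuousAt) (abs_ne_zero.mpr hx0)).continuousWithinAt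

theorem ex {E : Type*} [NormedAddCommGroup E] [InnerProductSpace ℂ E] [CompleteSpace E]
    (H : E →L[ℂ] E) (hH : IsSelfAdjoint H) (hu : IsUnit H) :
    ∃ S : E →L[ℂ] E, IsSelfAdjoint S ∧ S * S = 1 ∧ S * H = H * S ∧ (S * H).IsPositive := by
  have h0 : (0 : ℝ) ∉ spectrum ℝ H := by
    rw [spectrum.zero_notMem_iff]
    exact hu
  have hc := SGEM.sign_cont h0
  refine ⟨cfc (fun x : ℝ => x / |x|) H, ?_, ?_, ?_, ?_⟩
  · exact cfc_predicate _ _
  · rw [← cfc_mul (fun x : ℝ => x / |x|) (fun x : ℝ => x / |x|) H hc hc]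
    have : (spectrum ℝ H).EqOn (fun x : ℝ => x / |x| * (x / |x|)) (fun _ => (1 : ℝ)) := by
      intro x hx
      have hx0 : x ≠ 0 := fun h => h0 (h ▸ hx)
      have h1 : |x| ≠ 0 := abs_ne_zero.mpr hx0
      simp only
      rw [div_mul_div_comm, abs_mul_abs_self]
      exact div_self (mul_ne_zero hx0 hx0)
    rw [cfc_congr this]
    exact cfc_const_one ℝ H
  · have h2 : Commute (cfc (fun x : ℝ => x / |x|) H) (cfc (fun x : ℝ => x) H) :=
      cfc_commute_cfc _ _ H
    rw [cfc_id' ℝ H] at h2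
    exact h2
  · have h4 : cfc (fun x : ℝ => x / |x|) H * cfc (fun x : ℝ => x) H
          = cfc (fun x : ℝ => x / |x| * x) H :=
        (cfc_mul (fun x : ℝ => x / |x|) (fun x : ℝ => x) H hc continuousOn_id).symm
    rw [cfc_id' ℝ H] at h4
    have h5 : (spectrum ℝ H).EqOn (fun x : ℝ => x / |x| * x) (fun x : ℝ => |x|) := by
      intro x hx
      have hx0 : x ≠ 0 := fun h => h0 (h ▸ hx)
      have h1 : |x| ≠ 0 := abs_ne_zero.mpr hx0
      simp only
      rw [div_mul_eq_mul_div, ← abs_mul_abs_self x, mul_div_assoc, div_self h1, mul_one]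
    rw [h4, cfc_congr h5, ← ContinuousLinearMap.nonneg_iff_isPositive]
    exact cfc_nonneg (fun x _ => abs_nonneg x)

end SGEM

theorem specSGE : SpecSGE := by
  intro ι G H hH hu
  exact SGEM.ex H hH hu

end Pool.Agent.Lib.MP8a3537.SG
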