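import Pool.Agent.Lib.MP_8a3537_gt.SG.SpecN
import Pool.Agent.Lib.MP_8a3537_gt.SG.REI

/-!
# SGS: positive scalars do not change the signature
-/

set_option linter.unusedVariables false

namespace Pool.Agent.Lib.MP8a3537.SG

open scoped BigOperators Pointwise ComplexOrder

open Polynomial in
theorem specSGS : SpecSGS := by
  classical
  intro κ _ _ A b hb
  by_cases hA : A.IsHermitian
  · have hB : ((b : ℂ) • A).IsHermitian := by
      unfold Matrix.IsHermitian at *
      rw [Matrix.conjTranspose_smul, hA]
      simp
    have hcp : ((b : ℂ) • A).charpoly = ∏ i, (X - C (((b * hA.eigenvalues i : ℝ)) : ℂ)) := by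
      conv_lhs => rw [hA.spectral_theorem, ← map_smul, Unitary.conjStarAlgAut_apply, Matrix.charpoly_mul_comm, ← mul_assoc]
      have h1 : ((b : ℂ) • Matrix.diagonal ((RCLike.ofReal : ℝ → ℂ) ∘ hA.eigenvalues))
          = Matrix.diagonal (fun i => ((b * hA.eigenvalues i : ℝ) : ℂ)) := by
        ext i j
        by_cases hij : i = j
        · subst hij; simp
        · simp [Matrix.diagonal_apply_ne _ hij]
      rw [h1]
      simp [Matrix.charpoly_diagonal]
    rw [REIM.sgn_eq ((b : ℂ) • A) hB (fun i => b * hA.eigenvalues i) hcp, sgn, dif_pos hA]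
    have e1 : (Finset.univ.filter fun i => 0 < b * hA.eigenvalues i) = (Finset.univ.filter fun i => 0 < hA.eigenvalues i) := by
      ext i
      simp only [Finset.mem_filter, Finset.mem_univ, true_and]
      exact mul_pos_iff_of_pos_left hb
    have e2 : (Finset.univ.filter fun i => b * hA.eigenvalues i < 0) = (Finset.univ.filter fun i => hA.eigenvalues i < 0) := by
      ext i
      simp only [Finset.mem_filter, Finset.mem_univ, true_and]
      constructor
      · intro h
        by_contra hc
        push Not at hc
        have := mul_nonneg hb.le hc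
        linarith
      · intro h
        exact mul_neg_of_pos_of_neg hb h
    rw [e1, e2]
  · have hB : ¬ ((b : ℂ) • A).IsHermitian := by
      intro hB
      apply hA
      unfold Matrix.IsHermitian at *
      rw [Matrix.conjTranspose_smul] at hB
      have hb' : ((b : ℂ)) ≠ 0 := by exact_mod_cast hb.ne'
      have h2 : star (b : ℂ) = (b : ℂ) := by simp
      rw [h2] at hB
      exact smul_right_injective _ hb' hB
    rw [sgn, sgn, dif_neg hA, dif_neg hB]

end Pool.Agent.Lib.MP8a3537.SG
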