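import Pool.Agent.Lib.MP_8a3537_gt.SG.Spec

/-!
# SPE: the trace of the iterates of a hermitian matrix with a spectral gap
-/

namespace Pool.Agent.Lib.MP8a3537.SG

open scoped BigOperators Pointwise ComplexOrder

namespace SPEM

/-- the iteration commutes with algebra homomorphisms -/
lemma it_conj {κ : Type} [Fintype κ] [DecidableEq κ] (U : Matrix.unitaryGroup κ ℂ)
    (D : Matrix κ κ ℂ) (j : ℕ) :
    it (Unitary.conjStarAlgAut ℂ (Matrix κ κ ℂ) U D) j
      = Unitary.conjStarAlgAut ℂ (Matrix κ κ ℂ) U (it D j) := by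
  induction j with
  | zero => rfl
  | succ j ih =>
    simp only [it, ih, map_sub, map_smul, map_pow]

lemma it_diag {κ : Type} [Fintype κ] [DecidableEq κ] (d : κ → ℝ) (j : ℕ) :
    it (Matrix.diagonal fun i => (d i : ℂ)) j = Matrix.diagonal fun i => (sj (d i) j : ℂ) := by
  induction j with
  | zero => rfl
  | succ j ih =>
    simp only [it, ih, Matrix.diagonal_pow, ← Matrix.diagonal_smul, Matrix.diagonal_sub, sj]
    congr 1
    funext i
    simp only [Pi.smul_apply, Pi.pow_apply, smul_eq_mul]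
    push_cast
    ring

lemma trace_conj {κ : Type} [Fintype κ] [DecidableEq κ] (U : Matrix.unitaryGroup κ ℂ)
    (D : Matrix κ κ ℂ) : (Unitary.conjStarAlgAut ℂ (Matrix κ κ ℂ) U D).trace = D.trace := by
  rw [Unitary.conjStarAlgAut_apply, Matrix.trace_mul_comm, ← mul_assoc]
  simp

open Classical in
lemma sgn_eq {κ : Type} [Fintype κ] [DecidableEq κ] (A : Matrix κ κ ℂ) (h : A.IsHermitian) :
    ((sgn A : ℤ) : ℝ) = ∑ i, ((SignType.sign (h.eigenvalues i) : SignType) : ℝ) := by
  rw [sgn, dif_pos h]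
  push_cast
  rw [Finset.card_filter, Finset.card_filter]
  push_cast
  rw [← Finset.sum_sub_distrib]
  refine Finset.sum_congr rfl fun i _ => ?_
  rcases lt_trichotomy (h.eigenvalues i) 0 with h1 | h1 | h1
  · simp [h1, not_lt.mpr h1.le]
  · simp [h1]
  · simp [h1, not_lt.mpr h1.le]

end SPEM

open SPEM in
theorem specSPE (hSCA : SpecSCA) : SpecSPE := by
  intro κ _ _ A e he he1 hA hgap j
  have h1 : ∀ i, e ≤ |hA.eigenvalues i| ∧ |hA.eigenvalues i| ≤ 1 := by
    intro i
    refine hgap (hA.eigenvalues i) (⇑(hA.eigenvectorBasis i)) ?_ ?_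
    · intro h0
      have := (hA.eigenvectorBasis.orthonormal).ne_zero i
      apply this
      ext k
      exact congrFun h0 k
    · have := hA.mulVec_eigenvectorBasis i
      rw [this]
      ext k
      simp
  have h2 : it A j = Unitary.conjStarAlgAut ℂ (Matrix κ κ ℂ) hA.eigenvectorUnitary
      (Matrix.diagonal fun i => (sj (hA.eigenvalues i) j : ℂ)) := by
    conv_lhs => rw [hA.spectral_theorem]
    rw [it_conj]
    congr 1
    exact it_diag _ j
  rw [h2, trace_conj, Matrix.trace_diagonal]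
  have h3 : ((sgn A : ℤ) : ℂ) = ((∑ i, ((SignType.sign (hA.eigenvalues i) : SignType) : ℝ) : ℝ) : ℂ) := by
    rw [← sgn_eq A hA]
    push_cast
    rfl
  rw [h3, ← Complex.ofReal_sum, ← Complex.ofReal_sub, Complex.norm_real, ← Finset.sum_sub_distrib,
    Real.norm_eq_abs]
  calc |∑ i, (sj (hA.eigenvalues i) j - ((SignType.sign (hA.eigenvalues i) : SignType) : ℝ))|
      ≤ ∑ i, |sj (hA.eigenvalues i) j - ((SignType.sign (hA.eigenvalues i) : SignType) : ℝ)| :=
        Finset.abs_sum_le_sum_abs _ _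
    _ ≤ ∑ _i : κ, del e j :=
        Finset.sum_le_sum fun i _ => (hSCA e he he1).1 _ j (h1 i).1 (h1 i).2
    _ = Fintype.card κ * del e j := by simp

end Pool.Agent.Lib.MP8a3537.SG
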