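import Pool.Agent.Lib.MP_8a3537_gt.SG.Spec

/-!
# MP_8a3537_gt, block SG, module STP: the inductive step (Lemma 3 of the paper)
-/

set_option linter.unusedVariables false

namespace Pool.Agent.Lib.MP8a3537.SG

open scoped BigOperators Pointwise ComplexOrder

namespace STPM

lemma ex_zero : ex 0 = 1 := by
  unfold ex; simp

lemma ex_add_int (x : ℝ) (m : ℤ) : ex (x + m) = ex x := by
  unfold ex
  have : (2 * Real.pi * ((x + m : ℝ) : ℂ) * Complex.I : ℂ) =
      2 * Real.pi * x * Complex.I + m * (2 * Real.pi * Complex.I) := by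
    push_cast; ring
  rw [this, Complex.exp_add, Complex.exp_int_mul_two_pi_mul_I, mul_one]

/-- the values `F T K M p` depend on `p` modulo `M` only -/
lemma F_mod (T : ℤ → ℂ) (K M : ℕ) (hM : 0 < M) (p : ℤ) : F T K M (p % M) = F T K M p := by
  unfold F
  refine Finset.sum_congr rfl fun k _ => ?_
  congr 1
  have hM0 : (M : ℝ) ≠ 0 := by exact_mod_cast hM.ne'
  have h1 : (p : ℝ) = ((p % M : ℤ) : ℝ) + M * ((p / M : ℤ) : ℝ) := by
    have := Int.emod_add_mul_ediv p M
    exact_mod_cast this.symm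
  have h2 : (p : ℝ) * k / M = ((p % M : ℤ) : ℝ) * k / M + ((p / M * k : ℤ) : ℝ) := by
    rw [h1]; push_cast; field_simp
  rw [h2, ex_add_int]

section

variable {N Q : Type} [Group N] [Group Q] {π : N →* Q} {c : N}

lemma c_inj (h : CExt N Q π c) {k l : ℤ} (hkl : c ^ k = c ^ l) : k = l := by
  by_contra hne
  have h1 : c ^ (k - l) = 1 := by rw [zpow_sub, hkl, mul_inv_cancel]
  exact h.inf (k - l) (sub_ne_zero.2 hne) h1

lemma chi_pow (h : CExt N Q π c) (M : ℕ) (p k : ℤ) : chi c M p (c ^ k) = ex (p * k / M) := by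
  unfold chi
  have hex : ∃ l : ℤ, c ^ k = c ^ l := ⟨k, rfl⟩
  rw [dif_pos hex]
  have h1 := hex.choose_spec
  rw [← c_inj h h1]

lemma chi_not (M : ℕ) (p : ℤ) (g : N) (hg : ¬ ∃ k : ℤ, g = c ^ k) : chi c M p g = 0 := by
  unfold chi
  rw [dif_neg hg]

/-- the trace sum as a sum over the powers of `c` -/
lemma sum_chi (h : CExt N Q π c) (M K : ℕ) (p : ℤ) (x : N →₀ ℂ)
    (hx : ∀ k : ℤ, x (c ^ k) ≠ 0 → |k| ≤ K) :
    x.sum (fun g b => b * chi c M p g) =
      ∑ k ∈ Finset.Icc (-(K : ℤ)) K, x (c ^ k) * ex (p * k / M) := by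
  classical
  have hinj : Set.InjOn (fun k : ℤ => c ^ k) (Finset.Icc (-(K : ℤ)) K : Finset ℤ) :=
    fun a _ b _ hab => c_inj h hab
  have e1 : ∑ k ∈ Finset.Icc (-(K : ℤ)) K, x (c ^ k) * ex (p * k / M) =
      ∑ g ∈ (Finset.Icc (-(K : ℤ)) K).image (fun k : ℤ => c ^ k), x g * chi c M p g := by
    rw [Finset.sum_image hinj]
    exact Finset.sum_congr rfl fun k _ => by rw [chi_pow h]
  rw [e1, Finsupp.sum_of_support_subset x
    (Finset.subset_union_left (s₂ := (Finset.Icc (-(K : ℤ)) K).image (fun k : ℤ => c ^ k))) _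
    (fun i _ => by rw [zero_mul])]
  symm
  refine Finset.sum_subset Finset.subset_union_right fun g _ hg => ?_
  by_cases hgc : ∃ k : ℤ, g = c ^ k
  · obtain ⟨k, rfl⟩ := hgc
    by_cases hk : x (c ^ k) = 0
    · rw [hk, zero_mul]
    · exfalso
      apply hg
      rw [Finset.mem_image]
      refine ⟨k, ?_, rfl⟩
      rw [Finset.mem_Icc]
      exact abs_le.1 (hx k hk)
  · rw [chi_not M p g hgc, mul_zero]

/-- the coefficient at `1` of the image in the group ring of the quotient -/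
lemma map_coeff (h : CExt N Q π c) (x : CG N) :
    (mapA π x).coeff 1 = x.coeff.sum (fun g b => b * chi c 1 0 g) := by
  classical
  induction x using MonoidAlgebra.induction_linear with
  | zero =>
    rw [map_zero]
    simp
  | add f g hf hg =>
    rw [map_add]
    have e1 : (f + g).coeff = f.coeff + g.coeff := rfl
    rw [e1, Finsupp.sum_add_index' (fun _ => by rw [zero_mul]) (fun _ _ _ => by rw [add_mul]),
      ← hf, ← hg]
    rfl
  | single g b =>
    have e1 : mapA π (MonoidAlgebra.single g b) = MonoidAlgebra.single (π g) b := by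
      unfold mapA
      simp
    rw [e1]
    have e2 : (MonoidAlgebra.single g b : CG N).coeff = Finsupp.single g b := by
      simp
    have e3 : (MonoidAlgebra.single (π g) b : CG Q).coeff = Finsupp.single (π g) b := by
      simp
    rw [e2, e3, Finsupp.sum_single_index (by rw [zero_mul])]
    by_cases hg : π g = 1
    · obtain ⟨k, hk⟩ := (h.ker g).1 hg
      rw [hg, Finsupp.single_eq_same, hk, chi_pow h]
      simp [ex_zero]
    · rw [Finsupp.single_eq_of_ne (Ne.symm hg), chi_not 1 0 g (fun ⟨k, hk⟩ => hg ((h.ker g).2 ⟨k, hk⟩)),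
        mul_zero]

end

end STPM

open STPM in
/-- **STP**. -/
theorem specSTP (hCLM : SpecCLM) (hTHE : SpecTHE) (hSUP : SpecSUP) (hGPH : SpecGPH)
    (hPUS : SpecPUS) (hREI : SpecREI) : SpecSTP := by
  classical
  intro N Q _ _ π c hE hD hR hPQ hPB ι _ _ a e he he1 hG
  -- the finite set
  let S : Finset N := insert 1 (Finset.univ.biUnion fun i : ι => Finset.univ.biUnion fun j : ι =>
    (a i j).coeff.support)
  have hS1 : (1 : N) ∈ S := Finset.mem_insert_self _ _
  have hSs : ∀ i j, (a i j).coeff.support ⊆ S := by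
    intro i j g hg
    refine Finset.mem_insert_of_mem ?_
    rw [Finset.mem_biUnion]
    refine ⟨i, Finset.mem_univ _, ?_⟩
    rw [Finset.mem_biUnion]
    exact ⟨j, Finset.mem_univ _, hg⟩
  obtain ⟨C₁, r, hC₁, hdist⟩ := hD S
  obtain ⟨C₂, R, hres⟩ := hR
  let C := max C₁ C₂
  have hC : 0 ≤ C := hC₁.trans (le_max_left _ _)
  let K : ℕ → ℕ := fun j => ⌊C * ((3 : ℝ) ^ j) ^ r⌋₊
  have hK : ∀ j, (K j : ℝ) ≤ C * ((3 : ℝ) ^ j) ^ r := fun j => Nat.floor_le (by positivity)
  let T : ℕ → ℤ → ℂ := fun j k => ∑ i, ((it a j) i i).coeff (c ^ k)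
  have hsupp : ∀ j i (k : ℤ), ((it a j) i i).coeff (c ^ k) ≠ 0 → |k| ≤ K j := by
    intro j i k hne
    have h1 : c ^ k ∈ S ^ (3 ^ j) := hSUP N ι a S hS1 hSs j i i (Finsupp.mem_support_iff.2 hne)
    have h2 := hdist (3 ^ j) k (Nat.one_le_pow _ _ (by norm_num)) h1
    push_cast at h2
    have h3 : |(k : ℝ)| ≤ C * ((3 : ℝ) ^ j) ^ r := h2.trans (by
      apply mul_le_mul_of_nonneg_right (le_max_left _ _); positivity)
    have h4 : k.natAbs ≤ K j := by
      apply Nat.le_floor
      rw [Nat.cast_natAbs, Int.cast_abs]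
      exact h3
    rw [Int.abs_eq_natAbs]
    exact_mod_cast h4
  -- the trace sums
  have hsum : ∀ (M : ℕ) (p : ℤ) (j : ℕ), ∑ i, (((it a j) i i).coeff.sum fun g b => b * chi c M p g) =
      F (T j) (K j) M p := by
    intro M p j
    unfold F
    have : ∀ i, (((it a j) i i).coeff.sum fun g b => b * chi c M p g) =
        ∑ k ∈ Finset.Icc (-(K j : ℤ)) (K j), ((it a j) i i).coeff (c ^ k) * ex (p * k / M) :=
      fun i => sum_chi hE M (K j) p _ (hsupp j i)
    rw [Finset.sum_congr rfl fun i _ => this i, Finset.sum_comm]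
    refine Finset.sum_congr rfl fun k _ => ?_
    rw [← Finset.sum_mul]
  have key := hCLM e (Fintype.card ι) C r R T K (sgn (augM a) : ℤ) he he1 (Nat.cast_nonneg _) hC hK
  have hfin := key ?_ ?_
  · intro j
    have h1 := hfin j
    have h2 : T j 0 = tau (it a j) := by
      show ∑ i, ((it a j) i i).coeff (c ^ (0 : ℤ)) = ∑ i, ((it a j) i i).coeff 1
      rw [zpow_zero]
    rw [h2] at h1
    exact_mod_cast h1
  · intro M hM
    obtain ⟨Γ, hΓn, hΓ0, hΓC, hΓM⟩ := hres M hM
    obtain ⟨B, κ, iκ, iκ', hκ0, hκΓ, hΘ⟩ := hTHE N Q π c Γ M hE hΓn hΓ0 hM hΓM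
    choose Θ hAdm hTr using hΘ
    have hκR : (0 : ℝ) < Fintype.card κ := by exact_mod_cast hκ0
    have hκC : (Fintype.card κ : ℂ) ≠ 0 := by exact_mod_cast hκ0.ne'
    refine ⟨fun p => ((sgn (augM (push (Θ (p % M)) a)) : ℤ) : ℝ) / Fintype.card κ, Fintype.card κ, hκ0,
      ?_, ?_, ?_, ?_, ?_⟩
    · have h1 : (Fintype.card κ : ℝ) ≤ Γ.index := by exact_mod_cast hκΓ
      refine h1.trans (hΓC.trans ?_)
      apply mul_le_mul_of_nonneg_right (le_max_right _ _); positivity
    · intro p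
      show ((sgn (augM (push (Θ ((p + M) % M)) a)) : ℤ) : ℝ) / _ = _
      rw [Int.add_emod_right]
    · intro p
      exact ⟨sgn (augM (push (Θ (p % M)) a)), mul_div_cancel₀ _ hκR.ne'⟩
    · intro p
      have h1 := (hREI (ι × κ) (ι × κ) (Equiv.refl _) (augM (push (Θ (p % M)) a))).2
      have h2 : |((sgn (augM (push (Θ (p % M)) a)) : ℤ) : ℝ)| ≤ Fintype.card ι * Fintype.card κ := by
        rw [Fintype.card_prod] at h1
        exact_mod_cast h1
      rw [abs_div, abs_of_pos hκR, div_le_iff₀ hκR]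
      exact h2
    · intro j p
      show ‖F (T j) (K j) M p - ((((sgn (augM (push (Θ (p % M)) a)) : ℤ) : ℝ) / Fintype.card κ : ℝ) : ℂ)‖ ≤ _
      rw [← F_mod (T j) (K j) M hM p]
      set p' := p % M with hp'
      have hGap : Gap (push (Θ p') a) e := hGPH.1 N B ι κ (Θ p') a e (hAdm p') hG
      have h1 := hPB B (ι × κ) (push (Θ p') a) e he he1 hGap j
      rw [← hPUS.1 N ι κ (CG B) (Θ p') a j] at h1
      have h2 : tau (push (Θ p') (it a j)) = Fintype.card κ * F (T j) (K j) M p' := by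
        show ∑ q : ι × κ, ((Θ p' ((it a j) q.1 q.1)) q.2 q.2).coeff 1 = _
        rw [Fintype.sum_prod_type]
        have h3 : ∀ i, ∑ q : κ, ((Θ p' ((it a j) i i)) q q).coeff 1 =
            Fintype.card κ * ((it a j) i i).coeff.sum fun g b => b * chi c M p' g := fun i => hTr p' _
        rw [Finset.sum_congr rfl fun i _ => h3 i, ← Finset.mul_sum, hsum M p' j]
      rw [h2] at h1
      have h4 : (Fintype.card κ : ℂ) * F (T j) (K j) M p' -
          ((sgn (augM (push (Θ p') a)) : ℤ) : ℂ) = (Fintype.card κ : ℂ) *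
          (F (T j) (K j) M p' - ((((sgn (augM (push (Θ p') a)) : ℤ) : ℝ) / Fintype.card κ : ℝ) : ℂ)) := by
        push_cast
        rw [mul_sub, mul_div_cancel₀ _ hκC]
      rw [h4, norm_mul, Complex.norm_natCast, Fintype.card_prod] at h1
      push_cast at h1
      have h5 : (Fintype.card κ : ℝ) *
          ‖F (T j) (K j) M p' - ((((sgn (augM (push (Θ p') a)) : ℤ) : ℝ) / Fintype.card κ : ℝ) : ℂ)‖ ≤
          Fintype.card κ * (Fintype.card ι * del e j) := by
        refine le_trans (le_of_eq ?_) (h1.trans (le_of_eq (by ring)))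
        push_cast
        rfl
      exact le_of_mul_le_mul_left h5 hκR
  · intro j
    have hGap := hGPH.2.1 N Q ι π a e hG
    have h1 := hPQ ι (mapM π a) e he he1 hGap j
    rw [hGPH.2.2 N Q ι π a, ← hPUS.2.1 N Q ι π a j] at h1
    have h2 : tau (mapM π (it a j)) = F (T j) (K j) 1 0 := by
      show ∑ i, (mapA π ((it a j) i i)).coeff 1 = _
      rw [Finset.sum_congr rfl fun i _ => map_coeff hE ((it a j) i i), hsum 1 0 j]
    rw [h2] at h1
    exact_mod_cast h1

end Pool.Agent.Lib.MP8a3537.SG
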