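import Pool.Agent.Lib.MP_8a3537_gt.SG.Spec

/-!
# SUP: supports of the iterates (MP_8a3537_gt, rows SG)
-/

set_option linter.unusedVariables false

namespace Pool.Agent.Lib.MP8a3537.SG.SUPM

open scoped BigOperators Pointwise ComplexOrder
open Pool.Agent.Lib.MP8a3537.SG

variable {G : Type} [Group G] {ι : Type} [Fintype ι] [DecidableEq ι] [DecidableEq G]

/-- the entries have support in `T` -/
def Ok (T : Finset G) (x : Matrix ι ι (CG G)) : Prop := ∀ i j, (x i j).coeff.support ⊆ T

omit [Group G] [Fintype ι] [DecidableEq ι] [DecidableEq G] in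
theorem ok_mono {T T' : Finset G} (h : T ⊆ T') {x : Matrix ι ι (CG G)} (hx : Ok T x) : Ok T' x :=
  fun i j => (hx i j).trans h

omit [Fintype ι] [DecidableEq ι] [DecidableEq G] in
theorem ok_smul {T : Finset G} {x : Matrix ι ι (CG G)} (hx : Ok T x) (z : ℂ) : Ok T (z • x) := by
  intro i j g hg
  apply hx i j
  rw [Finsupp.mem_support_iff] at hg ⊢
  intro h0
  apply hg
  have : ((z • x) i j).coeff g = z * (x i j).coeff g := rfl
  rw [this, h0, mul_zero]

omit [Fintype ι] [DecidableEq ι] [DecidableEq G] in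
theorem ok_sub {T : Finset G} {x y : Matrix ι ι (CG G)} (hx : Ok T x) (hy : Ok T y) :
    Ok T (x - y) := by
  intro i j g hg
  by_contra hgT
  have h1 : (x i j).coeff g = 0 := by
    by_contra h
    exact hgT (hx i j (Finsupp.mem_support_iff.2 h))
  have h2 : (y i j).coeff g = 0 := by
    by_contra h
    exact hgT (hy i j (Finsupp.mem_support_iff.2 h))
  have : ((x - y) i j).coeff g = (x i j).coeff g - (y i j).coeff g := rfl
  rw [Finsupp.mem_support_iff, this, h1, h2, sub_zero] at hg
  exact hg rfl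

omit [DecidableEq ι] in
theorem ok_mul {T U : Finset G} {x y : Matrix ι ι (CG G)} (hx : Ok T x) (hy : Ok U y) :
    Ok (T * U) (x * y) := by
  intro i j g hg
  by_contra hgT
  apply Finsupp.mem_support_iff.1 hg
  rw [Matrix.mul_apply, MonoidAlgebra.coeff_sum, Finsupp.finsetSum_apply]
  refine Finset.sum_eq_zero fun k _ => ?_
  by_contra h
  have h1 := MonoidAlgebra.support_coeff_mul_subset (x i k) (y k j) (Finsupp.mem_support_iff.2 h)
  exact hgT (Finset.mul_subset_mul (hx i k) (hy k j) h1)

end Pool.Agent.Lib.MP8a3537.SG.SUPM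

namespace Pool.Agent.Lib.MP8a3537.SG

open scoped BigOperators Pointwise ComplexOrder
open SUPM

open Classical in
theorem specSUP : SpecSUP := by
  intro G _ ι _ _ a S h1 ha n
  change Ok (S ^ (3 ^ n)) (it a n)
  induction n with
  | zero =>
    rw [pow_zero, pow_one]
    exact ha
  | succ n ih =>
    have hS : S ^ (3 ^ n) ⊆ S ^ (3 ^ (n + 1)) :=
      Finset.pow_subset_pow_right h1 (Nat.pow_le_pow_right (by norm_num) (Nat.le_succ n))
    have h3 : Ok (S ^ (3 ^ (n + 1))) ((it a n) ^ 3) := by
      have e1 : S ^ (3 ^ (n + 1)) = (S ^ (3 ^ n)) * (S ^ (3 ^ n)) * (S ^ (3 ^ n)) := by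
        rw [← pow_add, ← pow_add]
        congr 1
        ring
      rw [e1, pow_succ, pow_two]
      exact ok_mul (ok_mul ih ih) ih
    exact ok_sub (ok_smul (ok_mono hS ih) _) (ok_smul h3 _)

end Pool.Agent.Lib.MP8a3537.SG
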