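import Pool.Agent.Lib.MP_8a3537_gt.SG.SpecN

/-!
# TFG: iterated central extensions by infinite cyclic groups are finitely generated and nilpotent
-/

set_option linter.unusedVariables false

namespace Pool.Agent.Lib.MP8a3537.SG

open scoped BigOperators Pointwise ComplexOrder

namespace TFGM

lemma fg_ext {N Q : Type} [Group N] [Group Q] {π : N →* Q} {c : N} (h : CExt N Q π c) (hQ : Group.FG Q) : Group.FG N := by
  rw [Group.fg_iff] at hQ ⊢
  obtain ⟨S, hS, hfin⟩ := hQ
  refine ⟨insert c (Function.surjInv h.surj '' S), ?_, (hfin.image _).insert c⟩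
  rw [eq_top_iff]
  intro g _
  have h1 : (Subgroup.closure (insert c (Function.surjInv h.surj '' S))).map π = ⊤ := by
    rw [MonoidHom.map_closure, eq_top_iff, ← hS]
    apply Subgroup.closure_mono
    intro s hs
    refine ⟨Function.surjInv h.surj s, ?_, Function.surjInv_eq h.surj s⟩
    exact Set.mem_insert_of_mem _ ⟨s, hs, rfl⟩
  have h2 : π g ∈ (Subgroup.closure (insert c (Function.surjInv h.surj '' S))).map π := by
    rw [h1]; trivial
  obtain ⟨g', hg', he⟩ := h2
  have h3 : π (g'⁻¹ * g) = 1 := by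
    rw [map_mul, map_inv, he]; simp
  obtain ⟨k, hk⟩ := (h.ker _).1 h3
  have h4 : g = g' * c ^ k := by
    rw [← hk]; group
  rw [h4]
  exact Subgroup.mul_mem _ hg' (Subgroup.zpow_mem _ (Subgroup.subset_closure (Set.mem_insert _ _)) k)

lemma nil_ext {N Q : Type} [Group N] [Group Q] {π : N →* Q} {c : N} (h : CExt N Q π c) (hQ : Group.IsNilpotent Q) :
    Group.IsNilpotent N := by
  apply Subgroup.isNilpotent_of_ker_le_center π
  intro g hg
  obtain ⟨k, hk⟩ := (h.ker g).1 hg
  rw [Subgroup.mem_center_iff]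
  intro x
  rw [hk]
  have hc : Commute x c := h.central x
  exact (hc.zpow_right k).eq

end TFGM

theorem specTFG : SpecTFG := by
  intro h
  induction h with
  | zero =>
    intro N iN hN
    have hs : Subsingleton N := hN
    exact ⟨inferInstance, inferInstance⟩
  | succ h ih =>
    intro N iN hN
    obtain ⟨Q, iQ, π, c, hE, hQ⟩ := hN
    obtain ⟨h1, h2⟩ := ih Q hQ
    exact ⟨TFGM.fg_ext hE h1, TFGM.nil_ext hE h2⟩

end Pool.Agent.Lib.MP8a3537.SG
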