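import Pool.Agent.Lib.MP_8a3537_gt.SG.Spec

/-!
# THE: induced monomial representations (MP_8a3537_gt, rows SG)
-/

set_option linter.unusedVariables false

namespace Pool.Agent.Lib.MP8a3537.SG.THEM

open scoped BigOperators ComplexConjugate
open Pool.Agent.Lib.MP8a3537.SG

/-! ### the function `ex` -/

theorem ex_add (x y : ℝ) : ex (x + y) = ex x * ex y := by
  unfold ex
  rw [← Complex.exp_add]
  congr 1
  push_cast
  ring

theorem ex_zero : ex 0 = 1 := by
  unfold ex
  simp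

theorem ex_int (n : ℤ) : ex (n : ℝ) = 1 := by
  unfold ex
  rw [← Complex.exp_int_mul_two_pi_mul_I n]
  congr 1
  push_cast
  ring

theorem ex_neg (x : ℝ) : ex (-x) = conj (ex x) := by
  unfold ex
  rw [← Complex.exp_conj]
  congr 1
  simp only [map_mul, Complex.conj_ofReal, Complex.conj_I, Complex.conj_ofNat]
  push_cast
  ring

theorem ex_congr {M : ℕ} (hM : 0 < M) (p k l : ℤ) (h : (M : ℤ) ∣ k - l) :
    ex (p * k / M) = ex (p * l / M) := by
  obtain ⟨d, hd⟩ := h
  have hk : (k : ℝ) = l + M * d := by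
    have : k = l + M * d := by omega
    exact_mod_cast this
  have hM' : (M : ℝ) ≠ 0 := by exact_mod_cast hM.ne'
  have h1 : (p * k / M : ℝ) = p * l / M + ((p * d : ℤ) : ℝ) := by
    rw [hk]
    push_cast
    field_simp
  rw [h1, ex_add, ex_int, mul_one]

/-! ### induced matrices -/

section Ind

variable {N : Type} [Group N] (H : Subgroup N) {R : Type} [Ring R] [Fintype (N ⧸ H)]
  [DecidableEq (N ⧸ H)]

omit [Fintype (N ⧸ H)] [DecidableEq (N ⧸ H)] in
theorem out_mem (u v : N ⧸ H) : (u.out)⁻¹ * v.out ∈ H ↔ u = v := by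
  rw [← QuotientGroup.eq, QuotientGroup.out_eq', QuotientGroup.out_eq']

omit [Fintype (N ⧸ H)] [DecidableEq (N ⧸ H)] in
theorem out_mem' (g : N) (u v : N ⧸ H) :
    (u.out)⁻¹ * g * v.out ∈ H ↔ u = ((g * v.out : N) : N ⧸ H) := by
  rw [mul_assoc, ← QuotientGroup.eq, QuotientGroup.out_eq']

/-- the induced matrices -/
noncomputable def ind (f : N → R) (h0 : ∀ y, y ∉ H → f y = 0) (h1 : f 1 = 1)
    (hm : ∀ y z, y ∈ H → z ∈ H → f (y * z) = f y * f z) : N →* Matrix (N ⧸ H) (N ⧸ H) R where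
  toFun g := Matrix.of fun u v => f ((u.out)⁻¹ * g * v.out)
  map_one' := by
    ext u v
    rw [Matrix.of_apply, mul_one]
    by_cases huv : u = v
    · subst huv
      rw [inv_mul_cancel, h1, Matrix.one_apply_eq]
    · rw [h0 _ (fun h => huv ((out_mem H u v).1 h)), Matrix.one_apply_ne huv]
  map_mul' g h := by
    ext u v
    rw [Matrix.mul_apply, Matrix.of_apply]
    simp only [Matrix.of_apply]
    rw [Finset.sum_eq_single ((h * v.out : N) : N ⧸ H)]
    · have hw := (out_mem' H h ((h * v.out : N) : N ⧸ H) v).2 rfl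
      generalize ((h * v.out : N) : N ⧸ H) = w at hw
      have hsplit : (u.out)⁻¹ * (g * h) * v.out
          = ((u.out)⁻¹ * g * w.out) * ((w.out)⁻¹ * h * v.out) := by group
      rw [hsplit]
      by_cases hu : (u.out)⁻¹ * g * w.out ∈ H
      · exact hm _ _ hu hw
      · rw [h0 _ hu, zero_mul]
        exact h0 _ fun h' => hu ((H.mul_mem_cancel_right hw).1 h')
    · intro w _ hw
      rw [h0 _ (fun h' => hw ((out_mem' H h w v).1 h')), mul_zero]
    · intro h'
      exact absurd (Finset.mem_univ _) h'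

theorem ind_apply (f : N → R) (h0 : ∀ y, y ∉ H → f y = 0) (h1 : f 1 = 1)
    (hm : ∀ y z, y ∈ H → z ∈ H → f (y * z) = f y * f z) (g : N) (u v : N ⧸ H) :
    ind H f h0 h1 hm g u v = f ((u.out)⁻¹ * g * v.out) := rfl

end Ind

/-! ### the character -/

open Classical in
/-- the character `c^k γ -> e(pk/M)` -/
noncomputable def lam {N : Type} [Group N] (c : N) (Γ : Subgroup N) (M : ℕ) (p : ℤ) (y : N) : ℂ :=
  if h : ∃ k : ℤ, y * c ^ (-k) ∈ Γ then ex (p * h.choose / M) else 0

section Char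

variable {N : Type} [Group N] {c : N} {Γ : Subgroup N} {M : ℕ} (hM : 0 < M)
  (hΓ : ∀ k : ℤ, c ^ k ∈ Γ → (M : ℤ) ∣ k) (hc : ∀ g, g * c = c * g)
include hM hΓ

theorem lam_eq (p : ℤ) {y : N} {k : ℤ} (hy : y * c ^ (-k) ∈ Γ) :
    lam c Γ M p y = ex (p * k / M) := by
  have h : ∃ k : ℤ, y * c ^ (-k) ∈ Γ := ⟨k, hy⟩
  rw [lam, dif_pos h]
  have h2 := h.choose_spec
  apply ex_congr hM
  apply hΓ
  have h3 := Γ.mul_mem (Γ.inv_mem h2) hy
  have h4 : (y * c ^ (-h.choose))⁻¹ * (y * c ^ (-k)) = c ^ (h.choose - k) := by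
    rw [mul_inv_rev, zpow_neg, inv_inv, mul_assoc, inv_mul_cancel_left, ← zpow_add]
    rfl
  rw [h4] at h3
  exact h3

theorem lam_one (p : ℤ) : lam c Γ M p 1 = 1 := by
  rw [lam_eq hM hΓ p (k := 0) (by simp [Γ.one_mem])]
  simp [ex_zero]

include hc

omit hM hΓ in
theorem comm_zpow (g : N) (k : ℤ) : g * c ^ k = c ^ k * g :=
  (Commute.zpow_right (hc g : Commute g c) k)

theorem lam_mul (p : ℤ) {y z : N} {k l : ℤ} (hy : y * c ^ (-k) ∈ Γ) (hz : z * c ^ (-l) ∈ Γ) :
    lam c Γ M p (y * z) = lam c Γ M p y * lam c Γ M p z := by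
  have h1 : y * z * c ^ (-(k + l)) ∈ Γ := by
    have := Γ.mul_mem hy hz
    have h2 : y * c ^ (-k) * (z * c ^ (-l)) = y * z * c ^ (-(k + l)) := by
      rw [neg_add, zpow_add, mul_assoc y, ← mul_assoc (c ^ (-k)), ← comm_zpow hc z (-k)]
      simp only [mul_assoc]
    rw [h2] at this
    exact this
  rw [lam_eq hM hΓ p h1, lam_eq hM hΓ p hy, lam_eq hM hΓ p hz, ← ex_add]
  congr 1
  push_cast
  ring

theorem lam_inv (p : ℤ) {y : N} {k : ℤ} (hy : y * c ^ (-k) ∈ Γ) :
    lam c Γ M p y⁻¹ = conj (lam c Γ M p y) := by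
  have h1 : y⁻¹ * c ^ (-(-k)) ∈ Γ := by
    have := Γ.inv_mem hy
    rw [mul_inv_rev, ← zpow_neg, ← comm_zpow hc] at this
    exact this
  rw [lam_eq hM hΓ p h1, lam_eq hM hΓ p hy, ← ex_neg]
  congr 1
  push_cast
  ring

end Char

/-! ### matrices of matrices -/

/-- `push` as an algebra homomorphism -/
noncomputable def pushA {G : Type} [Group G] (κ l : Type) [Fintype κ] [DecidableEq κ] [Fintype l]
    [DecidableEq l] (Φ : CG G →ₐ[ℂ] Matrix l l ℂ) :
    Matrix κ κ (CG G) →ₐ[ℂ] Matrix (κ × l) (κ × l) ℂ :=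
  ((Matrix.compAlgEquiv κ l ℂ ℂ).toAlgHom).comp Φ.mapMatrix

theorem pushA_apply {G : Type} [Group G] (κ l : Type) [Fintype κ] [DecidableEq κ] [Fintype l]
    [DecidableEq l] (Φ : CG G →ₐ[ℂ] Matrix l l ℂ) (x : Matrix κ κ (CG G)) :
    pushA κ l Φ x = push Φ x := rfl

theorem repA_single {G : Type} [Group G] {l : Type} [Fintype l] [DecidableEq l]
    (σ : G →* Matrix.unitaryGroup l ℂ) (g : G) (z : ℂ) :
    repA σ (MonoidAlgebra.single g z) = z • (σ g : Matrix l l ℂ) := by
  unfold repA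
  rw [MonoidAlgebra.lift_single]
  rfl

theorem repA_star {G : Type} [Group G] {l : Type} [Fintype l] [DecidableEq l]
    (σ : G →* Matrix.unitaryGroup l ℂ) (g : G) (z : ℂ) :
    star (repA σ (MonoidAlgebra.single g z)) = repA σ (MonoidAlgebra.single g⁻¹ (conj z)) := by
  rw [repA_single, repA_single, star_smul, map_inv]
  rfl

end Pool.Agent.Lib.MP8a3537.SG.THEM

namespace Pool.Agent.Lib.MP8a3537.SG

open scoped BigOperators ComplexConjugate
open THEM

open Classical in
theorem specTHE : SpecTHE := by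
  intro N Q _ _ π c Γ M hE hN hfin hM hΓ
  have hc := hE.central
  let B : Subgroup Q := Γ.map π
  let H : Subgroup N := B.comap π
  have hΓH : Γ ≤ H := Subgroup.le_comap_map π Γ
  have hHi : H.index ∣ Γ.index := Subgroup.index_dvd_of_le hΓH
  have hH0 : H.index ≠ 0 := fun h => hfin (Nat.eq_zero_of_zero_dvd (h ▸ hHi))
  have : Finite (N ⧸ H) := Subgroup.index_ne_zero_iff_finite.1 hH0
  have : Fintype (N ⧸ H) := Fintype.ofFinite _
  have hcard : Fintype.card (N ⧸ H) = H.index := by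
    rw [Subgroup.index_eq_card, Nat.card_eq_fintype_card]
  have hmem : ∀ y : N, π y ∈ B ↔ ∃ k : ℤ, y * c ^ (-k) ∈ Γ := by
    intro y
    constructor
    · rintro ⟨γ, hγ, hπ⟩
      have h1 : π (y * γ⁻¹) = 1 := by rw [map_mul, map_inv, hπ, mul_inv_cancel]
      obtain ⟨k, hk⟩ := (hE.ker _).1 h1
      refine ⟨k, ?_⟩
      have h2 : y = c ^ k * γ := by rw [← hk, inv_mul_cancel_right]
      rw [h2, ← comm_zpow hc, mul_assoc, zpow_neg, mul_inv_cancel, mul_one]
      exact hγ
    · rintro ⟨k, hk⟩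
      have h1 : π (c ^ (-k)) = 1 := (hE.ker _).2 ⟨-k, rfl⟩
      refine ⟨y * c ^ (-k), hk, ?_⟩
      rw [map_mul, h1, mul_one]
  refine ⟨B, N ⧸ H, inferInstance, inferInstance, ?_, ?_, ?_⟩
  · rw [hcard]
    exact Nat.pos_of_ne_zero hH0
  · rw [hcard]
    exact Nat.le_of_dvd (Nat.pos_of_ne_zero hfin) hHi
  intro p
  let f : N → CG B := fun y =>
    if h : π y ∈ B then MonoidAlgebra.single (⟨π y, h⟩ : B) (lam c Γ M p y) else 0
  have f_pos : ∀ (y : N) (h : π y ∈ B),
      f y = MonoidAlgebra.single (⟨π y, h⟩ : B) (lam c Γ M p y) := fun y h => dif_pos h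
  have f_neg : ∀ (y : N), π y ∉ B → f y = 0 := fun y h => dif_neg h
  have h0 : ∀ y, y ∉ H → f y = 0 := fun y hy => f_neg y hy
  have h1 : f 1 = 1 := by
    have h : π 1 ∈ B := by rw [map_one]; exact B.one_mem
    rw [f_pos 1 h, lam_one hM hΓ, MonoidAlgebra.one_def]
    congr 1
    exact Subtype.ext (map_one π)
  have hm : ∀ y z, y ∈ H → z ∈ H → f (y * z) = f y * f z := by
    intro y z hy hz
    have hyz : π (y * z) ∈ B := by rw [map_mul]; exact B.mul_mem hy hz
    obtain ⟨k, hk⟩ := (hmem y).1 hy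
    obtain ⟨l, hl⟩ := (hmem z).1 hz
    rw [f_pos _ hyz, f_pos y hy, f_pos z hz, MonoidAlgebra.single_mul_single,
      lam_mul hM hΓ hc p hk hl]
    congr 1
    exact Subtype.ext (map_mul π y z)
  let θ : N →* Matrix (N ⧸ H) (N ⧸ H) (CG B) := ind H f h0 h1 hm
  have hθ : ∀ g u v, θ g u v = f ((u.out)⁻¹ * g * v.out) := fun g u v => rfl
  let Θ : CG N →ₐ[ℂ] Matrix (N ⧸ H) (N ⧸ H) (CG B) := MonoidAlgebra.lift ℂ _ N θ
  have hΘ : ∀ g z, Θ (MonoidAlgebra.single g z) = z • θ g := fun g z =>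
    MonoidAlgebra.lift_single θ g z
  refine ⟨Θ, ?_, ?_⟩
  · intro l _ _ σ
    let R : N →* Matrix ((N ⧸ H) × l) ((N ⧸ H) × l) ℂ :=
      ((pushA (N ⧸ H) l (repA σ)) : Matrix (N ⧸ H) (N ⧸ H) (CG B) →* _).comp θ
    have hR : ∀ g, R g = push (repA σ) (θ g) := fun g => rfl
    have hf : ∀ y, star (repA σ (f y)) = repA σ (f y⁻¹) := by
      intro y
      by_cases hy : π y ∈ B
      · have hy' : π y⁻¹ ∈ B := by rw [map_inv]; exact B.inv_mem hy
        obtain ⟨k, hk⟩ := (hmem y).1 hy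
        rw [f_pos y hy, f_pos _ hy', repA_star, lam_inv hM hΓ hc p hk]
        congr 2
        exact Subtype.ext (map_inv π y).symm
      · have hy' : π y⁻¹ ∉ B := by rw [map_inv]; exact fun h => hy (by simpa using B.inv_mem h)
        rw [f_neg y hy, f_neg _ hy', map_zero, star_zero]
    have hstar : ∀ g, star (R g) = R g⁻¹ := by
      intro g
      ext ⟨u, i⟩ ⟨v, j⟩
      have e1 : (star (R g)) (u, i) (v, j)
          = (star (repA σ (f ((v.out)⁻¹ * g * u.out)))) i j := rfl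
      have e2 : (R g⁻¹) (u, i) (v, j) = repA σ (f ((u.out)⁻¹ * g⁻¹ * v.out)) i j := rfl
      rw [e1, e2, hf]
      group
    have hU : ∀ g, R g ∈ Matrix.unitaryGroup ((N ⧸ H) × l) ℂ := by
      intro g
      rw [Matrix.mem_unitaryGroup_iff, hstar, ← map_mul, mul_inv_cancel, map_one]
    refine ⟨R.codRestrict _ hU, ?_⟩
    intro x
    have hh : repA (R.codRestrict _ hU) = (pushA (N ⧸ H) l (repA σ)).comp Θ := by
      refine MonoidAlgebra.algHom_ext ?_ (Subsingleton.elim _ _)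
      intro g
      rw [repA_single, one_smul, AlgHom.comp_apply, hΘ, one_smul]
      rfl
    rw [hh]
    rfl
  · have key : ∀ g (u : N ⧸ H), ((θ g) u u).coeff 1 = chi c M p g := by
      intro g u
      rw [hθ]
      by_cases hg : ∃ k : ℤ, g = c ^ k
      · rw [chi, dif_pos hg]
        have hk := hg.choose_spec
        generalize hg.choose = k at hk
        have h3 : (u.out)⁻¹ * g * u.out = c ^ k := by
          rw [hk, mul_assoc, ← comm_zpow hc, inv_mul_cancel_left]
        have hπ : π (c ^ k) = 1 := (hE.ker _).2 ⟨k, rfl⟩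
        have hB : π (c ^ k) ∈ B := by rw [hπ]; exact B.one_mem
        have hkk : c ^ k * c ^ (-k) ∈ Γ := by
          rw [zpow_neg, mul_inv_cancel]
          exact Γ.one_mem
        have hone : (⟨π (c ^ k), hB⟩ : B) = 1 := Subtype.ext hπ
        rw [h3, f_pos _ hB, lam_eq hM hΓ p hkk, hone, MonoidAlgebra.coeff_single,
          Finsupp.single_eq_same]
      · rw [chi, dif_neg hg]
        by_cases hB : π ((u.out)⁻¹ * g * u.out) ∈ B
        · rw [f_pos _ hB, MonoidAlgebra.coeff_single, Finsupp.single_eq_of_ne]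
          intro h4
          have h5 : π ((u.out)⁻¹ * g * u.out) = 1 := by
            have := congrArg Subtype.val h4
            first
            | exact this
            | exact this.symm
          obtain ⟨k, hk⟩ := (hE.ker _).1 h5
          refine hg ⟨k, ?_⟩
          have h6 : g = u.out * c ^ k * (u.out)⁻¹ := by rw [← hk]; group
          rw [h6, comm_zpow hc, mul_inv_cancel_right]
        · rw [f_neg _ hB]
          rfl
    intro x
    have hx : Θ x = x.coeff.sum fun g b => b • θ g := MonoidAlgebra.lift_apply θ x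
    have h4 : ∀ u : N ⧸ H, ((Θ x) u u).coeff 1 = x.coeff.sum fun g b => b * chi c M p g := by
      intro u
      rw [hx, Finsupp.sum, Matrix.sum_apply, MonoidAlgebra.coeff_sum, Finsupp.finsetSum_apply,
        Finsupp.sum]
      refine Finset.sum_congr rfl fun g _ => ?_
      rw [← key g u]
      rfl
    rw [Finset.sum_congr rfl fun u _ => h4 u, Finset.sum_const, Finset.card_univ, nsmul_eq_mul]

end Pool.Agent.Lib.MP8a3537.SG
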