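import Pool.Agent.Lib.MP_8a3537_gt.SG.SpecN

set_option autoImplicit false

namespace Pool.Agent.Lib.MP8a3537.SG

theorem specTKZ : SpecTKZ := by
  intro h
  induction h with
  | zero =>
    intro N iN hN
    obtain ⟨Q, iQ, π, c, hE, hQ⟩ := hN
    have hQ' : Subsingleton Q := hQ
    have hall : ∀ g : N, ∃ k : ℤ, g = c ^ k := fun g => (hE.ker g).1 (Subsingleton.elim _ _)
    have hbij : Function.Bijective (zpowersHom N c) := by
      constructor
      · rw [injective_iff_map_eq_one]
        intro a ha
        rw [zpowersHom_apply] at ha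
        by_contra hne
        exact hE.inf (Multiplicative.toAdd a) (fun h0 => hne (Multiplicative.toAdd.injective h0)) ha
      · intro g
        obtain ⟨k, hk⟩ := hall g
        exact ⟨Multiplicative.ofAdd k, by rw [zpowersHom_apply, toAdd_ofAdd]; exact hk.symm⟩
    let e : Multiplicative ℤ ≃* N := MulEquiv.ofBijective (zpowersHom N c) hbij
    refine ⟨e.symm.toMonoidHom, e.symm.surjective, ?_⟩
    show Subsingleton _
    constructor
    rintro ⟨a, ha⟩ ⟨b, hb⟩
    rw [MonoidHom.mem_ker] at ha hb
    apply Subtype.ext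
    exact e.symm.injective (ha.trans hb.symm)
  | succ h ih =>
    intro N iN hN
    obtain ⟨Q, iQ, π, c, hE, hQ⟩ := hN
    obtain ⟨fQ, hsurj, hT⟩ := ih Q hQ
    have hπc : π c = 1 := (hE.ker c).2 ⟨1, (zpow_one c).symm⟩
    refine ⟨fQ.comp π, hsurj.comp hE.surj, fQ.ker, inferInstance,
      (π.comp (fQ.comp π).ker.subtype).codRestrict fQ.ker ?_,
      ⟨c, ?_⟩, ?_, hT⟩
    · rintro ⟨g, hg⟩
      exact hg
    · rw [MonoidHom.mem_ker, MonoidHom.comp_apply, hπc, map_one]
    · refine ⟨?_, ?_, ?_, ?_⟩
      · rintro ⟨q, hq⟩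
        obtain ⟨g, rfl⟩ := hE.surj q
        exact ⟨⟨g, hq⟩, Subtype.ext rfl⟩
      · rintro ⟨g, hg⟩
        constructor
        · intro h1
          have h2 : π g = 1 := congrArg Subtype.val h1
          obtain ⟨k, hk⟩ := (hE.ker g).1 h2
          exact ⟨k, Subtype.ext (by rw [SubgroupClass.coe_zpow]; exact hk)⟩
        · rintro ⟨k, hk⟩
          have h2 : g = c ^ k := by
            have h3 := congrArg Subtype.val hk
            rw [SubgroupClass.coe_zpow] at h3
            exact h3
          exact Subtype.ext ((hE.ker g).2 ⟨k, h2⟩)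
      · rintro ⟨g, hg⟩
        exact Subtype.ext (hE.central g)
      · intro k hk h1
        have h3 := congrArg Subtype.val h1
        rw [SubgroupClass.coe_zpow] at h3
        exact hE.inf k hk h3

end Pool.Agent.Lib.MP8a3537.SG
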