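import Pool.Agent.Lib.MP_8a3537_gt.SG.SpecN

/-!
# MP_8a3537_gt, row SG, module TOR : finitely generated torsion-free nilpotent groups are TFN
-/

set_option autoImplicit false

namespace Pool.Agent.Lib.MP8a3537.SG

namespace TORM

/-- a subgroup which is the normal closure of a finite set of central elements is finitely
generated -/
theorem fg_of_central {N : Type} [Group N] (A : Subgroup N) (hA : A ≤ Subgroup.center N)
    (S : Finset N) (hS : Subgroup.normalClosure (S : Set N) = A) : A.FG := by
  refine ⟨S, ?_⟩
  apply le_antisymm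
  · rw [← hS]
    exact Subgroup.closure_le_normalClosure
  · rw [← hS]
    have hSA : (S : Set N) ⊆ Subgroup.center N := by
      intro x hx
      apply hA
      rw [← hS]
      exact Subgroup.subset_normalClosure hx
    have hcl : Subgroup.closure (S : Set N) ≤ Subgroup.center N :=
      (Subgroup.closure_le _).2 hSA
    have hn : (Subgroup.closure (S : Set N)).Normal := by
      constructor
      intro n hn g
      have h1 : n ∈ Subgroup.center N := hcl hn
      have h2 : g * n * g⁻¹ = n := by
        rw [Subgroup.mem_center_iff.1 h1 g, mul_inv_cancel_right]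
      rw [h2]
      exact hn
    exact Subgroup.normalClosure_le_normal Subgroup.subset_closure

end TORM

theorem specTOR (hROO : SpecROO) (hKNC : SpecKNC) (hCEX : SpecCEX) : SpecTOR := by
  intro N iN hfg hnil
  revert hfg
  have := hnil
  refine Group.nilpotent_center_quotient_ind
    (P := fun G _ _ => Group.FG G → (∀ x : G, ∀ n : ℕ, 0 < n → x ^ n = 1 → x = 1) →
      ∃ h, TFN h G inferInstance) N ?_ ?_
  · intro G _ hsub _ _
    exact ⟨0, hsub⟩
  · intro G _ hG ih hfg htf
    have hfgq : Group.FG (G ⧸ Subgroup.center G) := inferInstance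
    have htfq : ∀ x : G ⧸ Subgroup.center G, ∀ n : ℕ, 0 < n → x ^ n = 1 → x = 1 := by
      intro x n hn hx
      obtain ⟨g, rfl⟩ := QuotientGroup.mk_surjective x
      have h1 : g ^ n ∈ Subgroup.center G := by
        rw [← QuotientGroup.eq_one_iff, QuotientGroup.mk_pow]
        exact hx
      rw [QuotientGroup.eq_one_iff, Subgroup.mem_center_iff]
      intro y
      have h2 : (y * g * y⁻¹) ^ n = g ^ n := by
        rw [conj_pow, Subgroup.mem_center_iff.1 h1 y, mul_inv_cancel_right]
      have h3 := hROO G hG htf _ _ n hn h2
      calc y * g = (y * g * y⁻¹) * y := by group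
        _ = g * y := by rw [h3]
    obtain ⟨h, hh⟩ := ih hfgq htfq
    obtain ⟨S, hS⟩ := hKNC h (G ⧸ Subgroup.center G) hh G (QuotientGroup.mk' (Subgroup.center G)) hfg
      (QuotientGroup.mk'_surjective _)
    rw [QuotientGroup.ker_mk'] at hS
    have hZfg : (Subgroup.center G).FG := TORM.fg_of_central _ le_rfl S hS
    exact hCEX G (Subgroup.center G) le_rfl hZfg (fun x _ n hn hx => htf x n hn hx) h hh

end Pool.Agent.Lib.MP8a3537.SG
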