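import Pool.Agent.Lib.MP_8a3537_gt.SG.Spec

/-!
# TRI: trigonometric sums
-/

set_option linter.unusedVariables false

namespace Pool.Agent.Lib.MP8a3537.SG

open scoped BigOperators Pointwise ComplexOrder

namespace TRIM

lemma ex_add (x y : ℝ) : ex (x + y) = ex x * ex y := by
  unfold ex
  rw [← Complex.exp_add]
  congr 1
  push_cast
  ring

lemma ex_norm (x : ℝ) : ‖ex x‖ = 1 := by
  unfold ex
  rw [show (2 * (Real.pi : ℂ) * (x : ℂ) * Complex.I) = ((2 * Real.pi * x : ℝ) : ℂ) * Complex.I by
    push_cast; ring]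
  exact Complex.norm_exp_ofReal_mul_I _

lemma ex_sub_one (x : ℝ) : ‖ex x - 1‖ ≤ 2 * Real.pi * |x| := by
  unfold ex
  rw [show (2 * (Real.pi : ℂ) * (x : ℂ) * Complex.I) = Complex.I * ((2 * Real.pi * x : ℝ) : ℂ) by
    push_cast; ring]
  have h := Real.norm_exp_I_mul_ofReal_sub_one_le (x := 2 * Real.pi * x)
  refine h.trans (le_of_eq ?_)
  rw [Real.norm_eq_abs, abs_mul, abs_of_pos Real.two_pi_pos]

lemma ex_int (k : ℤ) : ex k = 1 := by
  unfold ex
  rw [show (2 * (Real.pi : ℂ) * ((k : ℝ) : ℂ) * Complex.I) = (k : ℂ) * (2 * Real.pi * Complex.I) by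
    push_cast; ring]
  exact Complex.exp_int_mul_two_pi_mul_I k

/-- the iterated difference of a character -/
lemma diff_term (t : ℂ) (k : ℤ) (M : ℕ) (R : ℕ) :
    (fwdDiff (1 : ℤ))^[R] (fun p : ℤ => t * ex (p * k / M)) =
      fun p : ℤ => t * (ex ((k : ℝ) / M) - 1) ^ R * ex (p * k / M) := by
  induction R with
  | zero => funext p; simp
  | succ R ih =>
    rw [Function.iterate_succ_apply', ih]
    funext p
    unfold fwdDiff
    have h1 : ex (((p + 1 : ℤ) : ℝ) * k / M) = ex (p * k / M) * ex ((k : ℝ) / M) := by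
      rw [← ex_add]
      congr 1
      push_cast
      ring
    beta_reduce
    rw [h1, pow_succ]
    ring

lemma diff_sum {ι : Type} (s : Finset ι) (f : ι → ℤ → ℂ) (R : ℕ) :
    (fwdDiff (1 : ℤ))^[R] (fun p : ℤ => ∑ i ∈ s, f i p) =
      fun p : ℤ => ∑ i ∈ s, (fwdDiff (1 : ℤ))^[R] (f i) p := by
  induction R with
  | zero => rfl
  | succ R ih =>
    rw [Function.iterate_succ_apply', ih]
    funext p
    unfold fwdDiff
    rw [← Finset.sum_sub_distrib]
    refine Finset.sum_congr rfl fun i _ => ?_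
    rw [Function.iterate_succ_apply']

lemma orth (M : ℕ) (hM : 0 < M) (l : ℤ) (hl : |l| < M) :
    ∑ p ∈ Finset.range M, ex ((p : ℝ) * l / M) = if l = 0 then (M : ℂ) else 0 := by
  have hM0 : (M : ℝ) ≠ 0 := by exact_mod_cast hM.ne'
  split_ifs with h
  · subst h
    have : ∀ p ∈ Finset.range M, ex ((p : ℝ) * ((0 : ℤ) : ℝ) / M) = 1 := by
      intro p _
      have := ex_int 0
      simpa using this
    rw [Finset.sum_congr rfl this]
    simp
  · have hpow : ∀ p ∈ Finset.range M, ex ((p : ℝ) * l / M) = (ex ((l : ℝ) / M)) ^ p := by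
      intro p _
      induction p with
      | zero =>
        have := ex_int 0
        simpa using this
      | succ p ih =>
        have ih' : ex ((p : ℝ) * l / M) = (ex ((l : ℝ) / M)) ^ p := by
          clear * - ih hM0
          unfold ex
          rw [← Complex.exp_nat_mul]
          congr 1
          push_cast
          ring
        rw [pow_succ, ← ih', ← ex_add]
        congr 1
        push_cast
        ring
    rw [Finset.sum_congr rfl hpow]
    have hne : ex ((l : ℝ) / M) ≠ 1 := by
      intro h1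
      unfold ex at h1
      rw [Complex.exp_eq_one_iff] at h1
      obtain ⟨n, hn⟩ := h1
      have h2 : ((l : ℝ) / M : ℂ) = (n : ℂ) := by
        have h3 : (2 * (Real.pi : ℂ) * Complex.I) ≠ 0 := Complex.two_pi_I_ne_zero
        have h4 : (2 * (Real.pi : ℂ) * Complex.I) * (((l : ℝ) / M : ℝ) : ℂ) =
            (2 * (Real.pi : ℂ) * Complex.I) * (n : ℂ) := by
          rw [mul_comm _ (n : ℂ), ← hn]
          ring
        have h5 := mul_left_cancel₀ h3 h4
        push_cast at h5 ⊢
        exact h5
      have h6 : (l : ℝ) = n * M := by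
        have h7 : ((l : ℝ) / M : ℝ) = (n : ℝ) := by exact_mod_cast h2
        rw [div_eq_iff hM0] at h7
        exact h7
      have h8 : l = n * M := by exact_mod_cast h6
      rw [h8, abs_mul] at hl
      have h9 : n ≠ 0 := by
        rintro rfl
        apply h
        rw [h8]
        simp
      have h10 : (1 : ℤ) ≤ |n| := Int.one_le_abs h9
      have h11 : |(M : ℤ)| = M := abs_of_nonneg (by positivity)
      rw [h11] at hl
      nlinarith [hM]
    rw [geom_sum_eq hne]
    have h12 : (ex ((l : ℝ) / M)) ^ M = 1 := by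
      have h13 : (ex ((l : ℝ) / M)) ^ M = ex l := by
        unfold ex
        rw [← Complex.exp_nat_mul]
        congr 1
        push_cast
        have : (M : ℂ) ≠ 0 := by exact_mod_cast hM.ne'
        field_simp
      rw [h13, ex_int]
    rw [h12]
    simp

end TRIM

open TRIM in
theorem specTRI : SpecTRI := by
  intro T K M R B hM hB
  have hM0 : (M : ℝ) ≠ 0 := by exact_mod_cast hM.ne'
  have hMp : (0 : ℝ) < M := by exact_mod_cast hM
  constructor
  · intro hT p
    have h1 : (fwdDiff (1 : ℤ))^[R] (F T K M) p =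
        ∑ k ∈ Finset.Icc (-(K : ℤ)) K, T k * (ex ((k : ℝ) / M) - 1) ^ R * ex (p * k / M) := by
      have h2 : F T K M = fun p : ℤ => ∑ k ∈ Finset.Icc (-(K : ℤ)) K, T k * ex (p * k / M) := rfl
      rw [h2, diff_sum]
      refine Finset.sum_congr rfl fun k _ => ?_
      rw [diff_term]
    rw [h1]
    refine (norm_sum_le _ _).trans ?_
    have h3 : ∀ k ∈ Finset.Icc (-(K : ℤ)) K,
        ‖T k * (ex ((k : ℝ) / M) - 1) ^ R * ex (p * k / M)‖ ≤
          B * (2 * Real.pi * K / M) ^ R := by
      intro k hk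
      rw [norm_mul, norm_mul, ex_norm, mul_one, norm_pow]
      have h4 : ‖ex ((k : ℝ) / M) - 1‖ ≤ 2 * Real.pi * K / M := by
        refine (ex_sub_one _).trans ?_
        rw [abs_div, abs_of_pos hMp, mul_div_assoc]
        rw [Finset.mem_Icc] at hk
        have h5 : |(k : ℝ)| ≤ K := by
          rw [abs_le]
          exact ⟨by exact_mod_cast hk.1, by exact_mod_cast hk.2⟩
        have h6 : |(k : ℝ)| / M ≤ (K : ℝ) / M := by gcongr
        have h7 : (0 : ℝ) ≤ 2 * Real.pi := Real.two_pi_pos.le
        exact mul_le_mul_of_nonneg_left h6 h7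
      exact mul_le_mul (hT k hk) (pow_le_pow_left₀ (norm_nonneg _) h4 R) (by positivity) hB
    refine (Finset.sum_le_sum h3).trans ?_
    rw [Finset.sum_const, Int.card_Icc, nsmul_eq_mul]
    have h8 : (((K : ℤ) + 1 - -(K : ℤ)).toNat : ℝ) = 2 * K + 1 := by
      have : ((K : ℤ) + 1 - -(K : ℤ)).toNat = 2 * K + 1 := by omega
      rw [this]
      push_cast
      ring
    rw [h8, ← mul_assoc]
  · intro hK k hk
    have h1 : ∑ p ∈ Finset.range M, F T K M p * ex (-((p : ℝ) * k / M)) =
        ∑ m ∈ Finset.Icc (-(K : ℤ)) K, T m * ∑ p ∈ Finset.range M, ex ((p : ℝ) * ((m - k : ℤ) : ℝ) / M) := by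
      simp only [F, Finset.sum_mul]
      rw [Finset.sum_comm]
      refine Finset.sum_congr rfl fun m _ => ?_
      rw [Finset.mul_sum]
      refine Finset.sum_congr rfl fun p _ => ?_
      rw [mul_assoc, ← ex_add]
      congr 2
      push_cast
      ring
    have h2 : ∀ m ∈ Finset.Icc (-(K : ℤ)) K,
        T m * ∑ p ∈ Finset.range M, ex ((p : ℝ) * ((m - k : ℤ) : ℝ) / M) =
          if m = k then T m * M else 0 := by
      intro m hm
      rw [Finset.mem_Icc] at hm hk
      rw [orth M hM (m - k) (by rw [abs_lt]; constructor <;> omega)]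
      by_cases h : m = k
      · rw [if_pos h, if_pos (by omega)]
      · rw [if_neg h, if_neg (by omega), mul_zero]
    rw [h1, Finset.sum_congr rfl h2, Finset.sum_ite_eq' , if_pos hk]
    have : (M : ℂ) ≠ 0 := by exact_mod_cast hM.ne'
    field_simp

end Pool.Agent.Lib.MP8a3537.SG
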