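import Pool.Agent.Lib.MP_8a3537_gt.SG.Spec

/-!
# TRV: the trivial group has property P
-/

set_option linter.unusedVariables false

namespace Pool.Agent.Lib.MP8a3537.SG

open scoped BigOperators Pointwise ComplexOrder

namespace TRVM

lemma aug_eq {G : Type} [Group G] [Subsingleton G] (x : CG G) : aug x = x.coeff 1 := by
  induction x using MonoidAlgebra.induction_linear with
  | zero => simp
  | add x y hx hy => rw [map_add, hx, hy]; simp
  | single g b =>
    unfold aug
    rw [MonoidAlgebra.lift_single]
    have hg : g = 1 := Subsingleton.elim _ _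
    subst hg
    simp

end TRVM

open TRVM in
theorem specTRV (hSPE : SpecSPE) (hAUG : SpecAUG) (hPUS : SpecPUS) : SpecTRV := by
  intro G _ hG ι _ _ a e he he1 hgap j
  obtain ⟨h1, h2⟩ := hAUG G ι a e hgap
  have h3 := hSPE ι (augM a) e he he1 h1 h2 j
  have h4 : tau (it a j) = (it (augM a) j).trace := by
    rw [← hPUS.2.2 G ι a j]
    unfold tau Matrix.trace
    refine Finset.sum_congr rfl fun i _ => ?_
    exact (aug_eq _).symm
  rw [h4]
  exact h3

end Pool.Agent.Lib.MP8a3537.SG
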