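import Pool.Agent.Lib.MP_8a3537_gt.SG.SpecN

/-!
# TSB: subgroups of iterated central extensions by infinite cyclic groups (MP_8a3537_gt, rows SG)
-/

set_option linter.unusedVariables false

namespace Pool.Agent.Lib.MP8a3537.SG.TSBM

open Pool.Agent.Lib.MP8a3537.SG

/-- transport along an isomorphism -/
theorem tfn_iso (h : ℕ) {N N' : Type} [iN : Group N] [iN' : Group N'] (e : N ≃* N')
    (hN : TFN h N iN) : TFN h N' iN' := by
  cases h with
  | zero =>
    have : Subsingleton N := hN
    exact e.symm.toEquiv.subsingleton
  | succ h =>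
    obtain ⟨Q, iQ, π, c, hE, hQ⟩ := hN
    refine ⟨Q, iQ, π.comp e.symm.toMonoidHom, e c, ⟨?_, ?_, ?_, ?_⟩, hQ⟩
    · intro q
      obtain ⟨n, hn⟩ := hE.surj q
      exact ⟨e n, by simpa using hn⟩
    · intro g
      have h1 : (π.comp e.symm.toMonoidHom) g = π (e.symm g) := rfl
      rw [h1, hE.ker]
      constructor
      · rintro ⟨k, hk⟩
        refine ⟨k, ?_⟩
        rw [← map_zpow, ← hk, MulEquiv.apply_symm_apply]
      · rintro ⟨k, hk⟩
        refine ⟨k, ?_⟩
        rw [hk, map_zpow, MulEquiv.symm_apply_apply]
    · intro g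
      have := hE.central (e.symm g)
      have h2 := congrArg e this
      rw [map_mul, map_mul, MulEquiv.apply_symm_apply] at h2
      exact h2
    · intro k hk h1
      rw [← map_zpow] at h1
      exact hE.inf k hk ((map_eq_one_iff e e.injective).1 h1)

end Pool.Agent.Lib.MP8a3537.SG.TSBM

namespace Pool.Agent.Lib.MP8a3537.SG

open TSBM

theorem specTSB : SpecTSB := by
  intro h
  induction h with
  | zero =>
    intro N iN hN H
    have : Subsingleton N := hN
    exact ⟨0, le_rfl, show Subsingleton H from inferInstance⟩
  | succ h ih =>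
    intro N iN hN H
    obtain ⟨Q, iQ, π, c, hE, hQ⟩ := hN
    obtain ⟨h', hh', hK⟩ := ih Q hQ (H.map π)
    have hsurj : Function.Surjective (π.subgroupMap H) := π.subgroupMap_surjective H
    have hval : ∀ x : H, ((π.subgroupMap H x : H.map π) : Q) = π x := fun x => rfl
    have hone : ∀ x : H, π.subgroupMap H x = 1 ↔ π (x : N) = 1 := by
      intro x
      rw [← hval, Subtype.ext_iff]
      rfl
    by_cases hc : ∀ k : ℤ, c ^ k ∈ H → k = 0
    · refine ⟨h', by omega, ?_⟩
      have hinj : Function.Injective (π.subgroupMap H) := by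
        rw [injective_iff_map_eq_one]
        intro x hx
        obtain ⟨k, hk⟩ := (hE.ker x).1 ((hone x).1 hx)
        have h0 := hc k (hk ▸ x.2)
        rw [h0, zpow_zero] at hk
        exact Subtype.ext hk
      exact tfn_iso h' (MulEquiv.ofBijective (π.subgroupMap H) ⟨hinj, hsurj⟩).symm hK
    · push Not at hc
      obtain ⟨k, hkH, hk0⟩ := hc
      have hex : ∃ e : ℕ, 0 < e ∧ c ^ e ∈ H := by
        refine ⟨k.natAbs, Int.natAbs_pos.2 hk0, ?_⟩
        rcases Int.natAbs_eq k with h1 | h1
        · rw [← zpow_natCast, ← h1]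
          exact hkH
        · have : c ^ (-(k.natAbs : ℤ)) ∈ H := by
            rw [← h1]
            exact hkH
          rw [zpow_neg, inv_mem_iff, zpow_natCast] at this
          exact this
      classical
      obtain ⟨he0, heH⟩ := Nat.find_spec hex
      have hmin : ∀ m : ℕ, 0 < m → c ^ m ∈ H → Nat.find hex ≤ m := fun m h1 h2 =>
        Nat.find_min' hex ⟨h1, h2⟩
      generalize Nat.find hex = e at he0 heH hmin
      refine ⟨h' + 1, by omega, ⟨H.map π, inferInstance, π.subgroupMap H, ⟨c ^ e, heH⟩,
        ⟨hsurj, ?_, ?_, ?_⟩, hK⟩⟩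
      · intro g
        rw [hone, hE.ker]
        constructor
        · rintro ⟨l, hl⟩
          have he' : (e : ℤ) ≠ 0 := by exact_mod_cast he0.ne'
          have hr0 : 0 ≤ l % e := Int.emod_nonneg l he'
          have hre : l % e < e := Int.emod_lt_of_pos l (by exact_mod_cast he0)
          have hsplit : l = e * (l / e) + l % e := (Int.mul_ediv_add_emod l e).symm
          have hq : (c ^ e) ^ (l / e) ∈ H := H.zpow_mem heH _
          have hmul : c ^ l = (c ^ e) ^ (l / e) * c ^ (l % e) := by
            conv_lhs => rw [hsplit]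
            rw [zpow_add, zpow_mul, zpow_natCast]
          have hrH : c ^ (l % e) ∈ H := by
            have hlH : c ^ l ∈ H := hl ▸ g.2
            rw [hmul] at hlH
            exact (H.mul_mem_cancel_left hq).1 hlH
          have hr : l % e = 0 := by
            by_contra hne
            obtain ⟨m, hm⟩ := Int.eq_ofNat_of_zero_le hr0
            rw [hm] at hrH hne hre
            rw [zpow_natCast] at hrH
            have := hmin m (by omega) hrH
            omega
          refine ⟨l / e, Subtype.ext ?_⟩
          rw [hl, hmul, hr, zpow_zero, mul_one]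
          rfl
        · rintro ⟨l, hl⟩
          refine ⟨e * l, ?_⟩
          rw [hl, zpow_mul, zpow_natCast]
          rfl
      · intro g
        refine Subtype.ext ?_
        have h1 : Commute (g : N) c := hE.central g
        exact h1.pow_right e
      · intro l hl h1
        have h2 : (c ^ e) ^ l = 1 := congrArg Subtype.val h1
        rw [← zpow_natCast, ← zpow_mul] at h2
        exact hE.inf _ (mul_ne_zero (by exact_mod_cast he0.ne') hl) h2

end Pool.Agent.Lib.MP8a3537.SG
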