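import Pool.Agent.Lib.MP_8a3537_gt.SG.SpecN

/-! # UNI: unipotent endomorphisms act unipotently on the powers of the augmentation ideal -/

namespace Pool.Agent.Lib.MP8a3537.SG.UNIM

open scoped BigOperators Pointwise commutatorElement

variable {K : Type} [Group K]

lemma lin_single (θ : K →* K) (g : K) (r : ℤ) :
    lin θ (MonoidAlgebra.single g r) = MonoidAlgebra.single (θ g) r := by
  simp [lin]

lemma dlin_apply (θ : K →* K) (x : ZG K) : dlin θ x = lin θ x - x := rfl

lemma lin_dg (θ : K →* K) (g : K) : lin θ (dg g) = dg (θ g) := by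
  simp [dg, lin_single]

lemma single_mul_dg (g k : K) : (MonoidAlgebra.single g (1 : ℤ)) * dg k = dg (g * k) - dg g := by
  simp [dg, mul_sub, MonoidAlgebra.single_mul_single]

lemma dg_mul (g k : K) : dg (g * k) = dg g + dg k + dg g * dg k := by
  have h := single_mul_dg g k
  have h2 : (MonoidAlgebra.single g (1 : ℤ)) = dg g + 1 := by simp [dg]
  rw [h2, add_mul, one_mul] at h
  have : dg (g * k) = dg g + (dg g * dg k + dg k) := by rw [h]; abel
  rw [this]; abel

lemma dg_one : dg (1 : K) = 0 := by
  simp [dg, MonoidAlgebra.one_def]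

lemma lin_aI (θ : K →* K) (n : ZG K) (hn : n ∈ aI K) : lin θ n ∈ aI K := by
  unfold aI at hn ⊢
  induction hn using Submodule.span_induction with
  | mem x hx =>
    obtain ⟨g, rfl⟩ := hx
    simp only [lin_dg]
    exact Submodule.subset_span ⟨θ g, rfl⟩
  | zero => rw [map_zero]; exact Submodule.zero_mem _
  | add x y _ _ h1 h2 => rw [map_add]; exact Submodule.add_mem _ h1 h2
  | smul a x _ h1 => rw [map_smul]; exact Submodule.smul_mem _ _ h1

lemma lin_pw (θ : K →* K) : ∀ j, ∀ x ∈ pw K j, lin θ x ∈ pw K j := by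
  intro j
  induction j with
  | zero => intro x _; exact Submodule.mem_top
  | succ j ih =>
    intro x hx
    have hx' : x ∈ pw K j * aI K := hx
    change lin θ x ∈ pw K j * aI K
    clear hx
    induction hx' using Submodule.mul_induction_on' with
    | mem_mul_mem m hm n hn =>
      rw [map_mul]
      refine Submodule.mul_mem_mul (ih m hm) ?_
      exact lin_aI θ n hn
    | add x hx y hy h1 h2 => rw [map_add]; exact Submodule.add_mem _ h1 h2

lemma dlin_pw (θ : K →* K) (j : ℕ) (x : ZG K) (hx : x ∈ pw K j) : dlin θ x ∈ pw K j := by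
  rw [dlin_apply]
  exact Submodule.sub_mem _ (lin_pw θ j x hx) hx

lemma dpow_pw (θ : K →* K) (j : ℕ) (r : ℕ) (x : ZG K) (hx : x ∈ pw K j) :
    ((dlin θ) ^ r) x ∈ pw K j := by
  induction r with
  | zero => simpa using hx
  | succ r ih =>
    rw [pow_succ', Module.End.mul_apply]
    exact dlin_pw θ j _ ih

lemma dlin_mul (θ : K →* K) (x y : ZG K) :
    dlin θ (x * y) = dlin θ x * y + x * dlin θ y + dlin θ x * dlin θ y := by
  simp only [dlin_apply, map_mul]
  noncomm_ring

lemma dpow_mul (θ : K →* K) (W : Submodule ℤ (ZG K)) (n : ℕ) : ∀ x y : ZG K,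
    (∀ a b, n ≤ a + b → ((dlin θ) ^ a) x * ((dlin θ) ^ b) y ∈ W) → ((dlin θ) ^ n) (x * y) ∈ W := by
  induction n with
  | zero =>
    intro x y h
    simpa using h 0 0 le_rfl
  | succ n ih =>
    intro x y h
    rw [pow_succ, Module.End.mul_apply, dlin_mul, map_add, map_add]
    refine Submodule.add_mem _ (Submodule.add_mem _ ?_ ?_) ?_
    · refine ih _ _ fun a b hab => ?_
      have := h (a + 1) b (by omega)
      rwa [pow_succ, Module.End.mul_apply] at this
    · refine ih _ _ fun a b hab => ?_
      have := h a (b + 1) (by omega)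
      rwa [pow_succ (dlin θ) b, Module.End.mul_apply] at this
    · refine ih _ _ fun a b hab => ?_
      have := h (a + 1) (b + 1) (by omega)
      rwa [pow_succ, pow_succ (dlin θ) b, Module.End.mul_apply, Module.End.mul_apply] at this

lemma pw_one_le : pw K 1 ≤ aI K := by
  change (⊤ : Submodule ℤ (ZG K)) * aI K ≤ aI K
  rw [Submodule.mul_le]
  intro m _ n hn
  unfold aI at hn ⊢
  induction hn using Submodule.span_induction with
  | mem x hx =>
    obtain ⟨k, rfl⟩ := hx
    simp only
    induction m using MonoidAlgebra.induction_linear with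
    | zero => rw [zero_mul]; exact Submodule.zero_mem _
    | add f g hf hg => rw [add_mul]; exact Submodule.add_mem _ (hf trivial) (hg trivial)
    | single g r =>
      have h1 : (MonoidAlgebra.single g r : ZG K) = r • MonoidAlgebra.single g 1 := by
        simp
      rw [h1, smul_mul_assoc, single_mul_dg]
      exact Submodule.smul_mem _ _ (Submodule.sub_mem _ (Submodule.subset_span ⟨_, rfl⟩)
        (Submodule.subset_span ⟨_, rfl⟩))
  | zero => rw [mul_zero]; exact Submodule.zero_mem _
  | add x y _ _ h1 h2 => rw [mul_add]; exact Submodule.add_mem _ h1 h2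
  | smul a x _ h1 => rw [mul_smul_comm]; exact Submodule.smul_mem _ _ h1

lemma dg_mul_dg (hP : SpecPWM) (g k : K) : dg g * dg k ∈ pw K 2 := by
  obtain ⟨h1, h2, h3⟩ := hP K
  have := Submodule.mul_mem_mul (h3 g) (h3 k)
  rwa [h1 1 1] at this

/-- the subgroup of the elements with `g - 1` in the square of the augmentation ideal -/
def sub2 (hP : SpecPWM) (K : Type) [Group K] : Subgroup K where
  carrier := {g | dg g ∈ pw K 2}
  mul_mem' := by
    intro a b ha hb
    simp only [Set.mem_ofPred_eq] at *
    rw [dg_mul]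
    exact Submodule.add_mem _ (Submodule.add_mem _ ha hb) (dg_mul_dg hP a b)
  one_mem' := by
    simp only [Set.mem_ofPred_eq, dg_one]
    exact Submodule.zero_mem _
  inv_mem' := by
    intro a ha
    simp only [Set.mem_ofPred_eq] at *
    have h := dg_mul a⁻¹ a
    rw [inv_mul_cancel, dg_one] at h
    have h2 : dg a⁻¹ = - (dg a + dg a⁻¹ * dg a) := by
      rw [eq_neg_iff_add_eq_zero, h]; abel
    rw [h2]
    exact Submodule.neg_mem _ (Submodule.add_mem _ ha (dg_mul_dg hP _ _))

lemma commutator_le (hP : SpecPWM) : commutator K ≤ sub2 hP K := by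
  rw [commutator_def, Subgroup.commutator_le]
  intro a _ b _
  change dg ⁅a, b⁆ ∈ pw K 2
  have e : ⁅a, b⁆ * (b * a) = a * b := by
    rw [commutatorElement_def]; group
  have h := dg_mul ⁅a, b⁆ (b * a)
  rw [e, dg_mul a b, dg_mul b a] at h
  have h2 : dg ⁅a, b⁆ = dg a * dg b - dg b * dg a
      - (dg ⁅a, b⁆ * (dg b + dg a + dg b * dg a)) := by
    have : dg a + dg b + dg a * dg b - (dg b + dg a + dg b * dg a)
      - dg ⁅a, b⁆ * (dg b + dg a + dg b * dg a) = dg ⁅a, b⁆ := by
      rw [h]; abel
    rw [← this]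
    conv_rhs => rw [this]
    abel
  rw [h2]
  refine Submodule.sub_mem _ (Submodule.sub_mem _ (dg_mul_dg hP _ _) (dg_mul_dg hP _ _)) ?_
  rw [← dg_mul b a]
  exact dg_mul_dg hP _ _

lemma dlin_dg (θ : K →* K) (k : K) :
    dlin θ (dg k) = dg (k⁻¹ * θ k) + dg k * dg (k⁻¹ * θ k) := by
  rw [dlin_apply, lin_dg]
  have h := dg_mul k (k⁻¹ * θ k)
  rw [mul_inv_cancel_left] at h
  rw [h]; abel

lemma dpow_dg (hP : SpecPWM) (θ : K →* K) (s : ℕ) : ∀ k : K,
    ((dlin θ) ^ s) (dg k) - dg (((fun k => k⁻¹ * θ k)^[s]) k) ∈ pw K 2 := by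
  induction s with
  | zero => intro k; simp
  | succ s ih =>
    intro k
    rw [pow_succ, Module.End.mul_apply, dlin_dg, map_add, Function.iterate_succ_apply]
    have h1 := ih (k⁻¹ * θ k)
    have h2 := dpow_pw θ 2 s _ (dg_mul_dg hP k (k⁻¹ * θ k))
    have := Submodule.add_mem _ h1 h2
    convert this using 1
    abel

end Pool.Agent.Lib.MP8a3537.SG.UNIM

namespace Pool.Agent.Lib.MP8a3537.SG

open UNIM in
theorem specUNI (hP : SpecPWM) : SpecUNI := by
  intro K _ θ s hs
  have h1 : ∀ x ∈ pw K 1, ((dlin θ) ^ s) x ∈ pw K 2 := by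
    intro x hx
    have hx' := pw_one_le hx
    unfold aI at hx'
    clear hx
    induction hx' using Submodule.span_induction with
    | mem x hx =>
      obtain ⟨k, rfl⟩ := hx
      simp only
      have a1 := dpow_dg hP θ s k
      have a2 : dg (((fun k => k⁻¹ * θ k)^[s]) k) ∈ pw K 2 := commutator_le hP (hs k)
      have := Submodule.add_mem _ a1 a2
      rwa [sub_add_cancel] at this
    | zero => rw [map_zero]; exact Submodule.zero_mem _
    | add x y _ _ h1 h2 => rw [map_add]; exact Submodule.add_mem _ h1 h2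
    | smul a x _ h1 => rw [map_smul]; exact Submodule.smul_mem _ _ h1
  have key : ∀ j, ∃ r : ℕ, ∀ x ∈ pw K (j + 1), ((dlin θ) ^ r) x ∈ pw K (j + 2) := by
    intro j
    induction j with
    | zero => exact ⟨s, h1⟩
    | succ j ih =>
      obtain ⟨r, hr⟩ := ih
      refine ⟨r + s, ?_⟩
      intro x hx
      obtain ⟨m1, m2, m3⟩ := hP K
      rw [← m1 (j + 1) 1] at hx
      induction hx using Submodule.mul_induction_on' with
      | mem_mul_mem x hx y hy =>
        refine dpow_mul θ _ _ x y fun a b hab => ?_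
        rcases le_or_gt r a with h | h
        · obtain ⟨d, rfl⟩ := Nat.exists_eq_add_of_le' h
          rw [pow_add, Module.End.mul_apply]
          have := Submodule.mul_mem_mul (dpow_pw θ (j + 2) d _ (hr x hx)) (dpow_pw θ 1 b y hy)
          rwa [m1] at this
        · have hb : s ≤ b := by omega
          obtain ⟨d, rfl⟩ := Nat.exists_eq_add_of_le' hb
          rw [pow_add (dlin θ) d s, Module.End.mul_apply]
          have := Submodule.mul_mem_mul (dpow_pw θ (j + 1) a _ hx) (dpow_pw θ 2 d _ (h1 y hy))
          rwa [m1] at this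
      | add x hx y hy h1 h2 => rw [map_add]; exact Submodule.add_mem _ h1 h2
  intro j
  cases j with
  | succ j => exact key j
  | zero =>
    refine ⟨1, fun x _ => ?_⟩
    rw [pow_one]
    obtain ⟨m1, m2, m3⟩ := hP K
    induction x using MonoidAlgebra.induction_linear with
    | zero => rw [map_zero]; exact Submodule.zero_mem _
    | add f g hf hg =>
      rw [map_add]
      exact Submodule.add_mem _ (hf trivial) (hg trivial)
    | single g r =>
      have h1 : (MonoidAlgebra.single g r : ZG K) = r • (dg g + 1) := by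
        simp [dg]
      rw [h1, map_smul, map_add]
      refine Submodule.smul_mem _ _ (Submodule.add_mem _ (dlin_pw θ 1 _ (m3 g)) ?_)
      rw [dlin_apply, map_one, sub_self]
      exact Submodule.zero_mem _

end Pool.Agent.Lib.MP8a3537.SG
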