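import Pool.Agent.Lib.MP_8a3537_gt.SG.CEF
import Pool.Agent.Lib.MP_8a3537_gt.SG.DIF
import Pool.Agent.Lib.MP_8a3537_gt.SG.SGN
import Pool.Agent.Lib.MP_8a3537_gt.SG.AUG
import Pool.Agent.Lib.MP_8a3537_gt.SG.CEX
import Pool.Agent.Lib.MP_8a3537_gt.SG.CHO
import Pool.Agent.Lib.MP_8a3537_gt.SG.CLM
import Pool.Agent.Lib.MP_8a3537_gt.SG.DIS
import Pool.Agent.Lib.MP_8a3537_gt.SG.EXT
import Pool.Agent.Lib.MP_8a3537_gt.SG.GEN
import Pool.Agent.Lib.MP_8a3537_gt.SG.GPH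
import Pool.Agent.Lib.MP_8a3537_gt.SG.HGA
import Pool.Agent.Lib.MP_8a3537_gt.SG.KNC
import Pool.Agent.Lib.MP_8a3537_gt.SG.MNA
import Pool.Agent.Lib.MP_8a3537_gt.SG.MNB
import Pool.Agent.Lib.MP_8a3537_gt.SG.OPX
import Pool.Agent.Lib.MP_8a3537_gt.SG.PGR
import Pool.Agent.Lib.MP_8a3537_gt.SG.PTF
import Pool.Agent.Lib.MP_8a3537_gt.SG.PUS
import Pool.Agent.Lib.MP_8a3537_gt.SG.PWM
import Pool.Agent.Lib.MP_8a3537_gt.SG.REI
import Pool.Agent.Lib.MP_8a3537_gt.SG.RES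
import Pool.Agent.Lib.MP_8a3537_gt.SG.RFG
import Pool.Agent.Lib.MP_8a3537_gt.SG.RFI
import Pool.Agent.Lib.MP_8a3537_gt.SG.ROO
import Pool.Agent.Lib.MP_8a3537_gt.SG.SCA
import Pool.Agent.Lib.MP_8a3537_gt.SG.SEP
import Pool.Agent.Lib.MP_8a3537_gt.SG.SGE
import Pool.Agent.Lib.MP_8a3537_gt.SG.SGS
import Pool.Agent.Lib.MP_8a3537_gt.SG.SPE
import Pool.Agent.Lib.MP_8a3537_gt.SG.STP
import Pool.Agent.Lib.MP_8a3537_gt.SG.SUP
import Pool.Agent.Lib.MP_8a3537_gt.SG.TEN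
import Pool.Agent.Lib.MP_8a3537_gt.SG.TFG
import Pool.Agent.Lib.MP_8a3537_gt.SG.THE
import Pool.Agent.Lib.MP_8a3537_gt.SG.TKZ
import Pool.Agent.Lib.MP_8a3537_gt.SG.TOR
import Pool.Agent.Lib.MP_8a3537_gt.SG.TRI
import Pool.Agent.Lib.MP_8a3537_gt.SG.TRV
import Pool.Agent.Lib.MP_8a3537_gt.SG.TSB
import Pool.Agent.Lib.MP_8a3537_gt.SG.UNI

/-!
# Assembly of the rows SG of MP_8a3537_gt
-/

namespace Pool.Agent.Lib.MP8a3537.SG

section
variable (hDIF : SpecDIF) (hCEF : SpecCEF) (hSGN : SpecSGN)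

include hDIF in
theorem all_STP : SpecSTP :=
  specSTP (specCLM specSCA (specCHO specSCA) hDIF specTRI) specTHE specSUP specGPH specPUS specREI

include hDIF hCEF in
theorem all_PTF : SpecPTF :=
  specPTF (specTRV (specSPE specSCA) specAUG specPUS) (all_STP hDIF) specTSB specTFG
    (specSEP specTKZ specTFG (specEXT specPWM (specUNI specPWM))) hCEF (specDIS specPWM)
    (specRES specPWM (specGEN specPWM))

include hDIF hCEF in
theorem all_PGR : SpecPGR :=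
  specPGR specRFI (specTOR specROO specKNC specCEX) (all_PTF hDIF hCEF) specPUS specGPH

include hDIF hCEF in
theorem all_MNA : SpecMNA :=
  specMNA (all_PGR hDIF hCEF) specHGA specRFG specSGS specTEN specPUS specGPH specSCA

include hDIF hCEF hSGN in
theorem all_MNB : SpecMNB :=
  specMNB (all_PGR hDIF hCEF) specHGA specRFG specSGS specOPX specSGE hSGN specPUS specGPH specSCA

end

end Pool.Agent.Lib.MP8a3537.SG
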