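import Pool.Agent.Lib.MP_8a3537_gt.SG.Spec

/-!
# GPH: the gap property is inherited by `push Φ a` and by `mapM π a`
-/

namespace Pool.Agent.Lib.MP8a3537.SG

open scoped BigOperators Pointwise ComplexOrder

namespace GPHM

/-- transport of the gap conditions along a bijection of the index sets -/
theorem transport {α β : Type} [Fintype α] [DecidableEq α] [Fintype β] [DecidableEq β]
    (f : α ≃ β) (A : Matrix α α ℂ) (B : Matrix β β ℂ) (e : ℝ)
    (hAB : ∀ p q, A p q = B (f p) (f q))
    (hB : B.IsHermitian ∧ ∀ (μ : ℝ) (v : β → ℂ), v ≠ 0 → B.mulVec v = (μ : ℂ) • v →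
      e ≤ |μ| ∧ |μ| ≤ 1) :
    A.IsHermitian ∧ ∀ (μ : ℝ) (v : α → ℂ), v ≠ 0 → A.mulVec v = (μ : ℂ) • v →
      e ≤ |μ| ∧ |μ| ≤ 1 := by
  have hA : A = B.submatrix f f := by
    ext p q
    exact hAB p q
  refine ⟨?_, ?_⟩
  · rw [hA]
    exact hB.1.submatrix f
  · intro μ v hv hvA
    apply hB.2 μ (v ∘ f.symm)
    · intro h
      apply hv
      funext p
      have := congrFun h (f p)
      simpa using this
    · funext b
      have h1 := congrFun hvA (f.symm b)
      rw [hA] at h1
      simp only [Matrix.mulVec, dotProduct, Matrix.submatrix_apply, Equiv.apply_symm_apply,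
        Pi.smul_apply, smul_eq_mul] at h1
      simp only [Matrix.mulVec, dotProduct, Function.comp_apply, Pi.smul_apply, smul_eq_mul]
      rw [← h1]
      refine (Fintype.sum_equiv f _ _ ?_).symm
      intro x
      simp

/-- the twist by a composition -/
theorem twist_comp {G H : Type} [Group G] [Group H] {κ : Type} [Fintype κ] [DecidableEq κ]
    (π : G →* H) (σ : H →* Matrix.unitaryGroup κ ℂ) (x : CG G) :
    repA (σ.comp π) x = repA σ (mapA π x) := by
  have : repA (σ.comp π) = (repA σ).comp (mapA π) := by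
    apply MonoidAlgebra.algHom_ext
    · intro g
      simp [repA, mapA]
    · exact Subsingleton.elim _ _
  rw [this]
  rfl

theorem aug_mapA {G H : Type} [Group G] [Group H] (π : G →* H) (x : CG G) :
    aug (mapA π x) = aug x := by
  have : (aug : CG H →ₐ[ℂ] ℂ).comp (mapA π) = aug := by
    apply MonoidAlgebra.algHom_ext
    · intro g
      simp [aug, mapA]
    · exact Subsingleton.elim _ _
  rw [← this]
  rfl

end GPHM

open GPHM in
theorem specGPH : SpecGPH := by
  refine ⟨?_, ?_, ?_⟩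
  · intro G H _ _ ι κ _ _ _ _ Φ a e hΦ ha l _ _ σ
    obtain ⟨ρ, hρ⟩ := hΦ l σ
    refine transport (Equiv.prodAssoc ι κ l) _ _ e ?_ (ha (κ × l) ρ)
    rintro ⟨⟨i, k⟩, m⟩ ⟨⟨j, k'⟩, m'⟩
    show repA σ (Φ (a i j) k k') m m' = repA ρ (a i j) (k, m) (k', m')
    rw [hρ]
    rfl
  · intro G H _ _ ι _ _ π a e ha l _ _ σ
    have h : twist σ (mapM π a) = twist (σ.comp π) a := by
      ext p q
      show repA σ (mapA π (a p.1 q.1)) p.2 q.2 = repA (σ.comp π) (a p.1 q.1) p.2 q.2
      rw [twist_comp]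
    rw [h]
    exact ha l (σ.comp π)
  · intro G H _ _ ι π a
    ext i j
    exact aug_mapA π (a i j)

end Pool.Agent.Lib.MP8a3537.SG
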