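import Pool.Agent.Lib.MP_8a3537_gt.SG.Spec

/-!
# TEN: the tensor product homomorphism `C[G] -> M_κ(C[G])` of a unitary representation
-/

namespace Pool.Agent.Lib.MP8a3537.SG

open scoped BigOperators Pointwise ComplexOrder Kronecker

namespace TENM

variable {G : Type} [Group G] {κ : Type} [Fintype κ] [DecidableEq κ]

/-- the monoid homomorphism `g -> ((rho g) i j • g)` -/
noncomputable def th (ρ : G →* Matrix.unitaryGroup κ ℂ) : G →* Matrix κ κ (CG G) where
  toFun g := Matrix.of fun i j => MonoidAlgebra.single g ((ρ g : Matrix κ κ ℂ) i j)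
  map_one' := by
    ext i j : 2
    simp only [map_one, Matrix.of_apply, Matrix.UnitaryGroup.one_val, Matrix.one_apply]
    split_ifs
    · rfl
    · simp
  map_mul' g h := by
    refine Matrix.ext fun i j => ?_
    simp only [map_mul, Matrix.of_apply, Matrix.UnitaryGroup.mul_val, Matrix.mul_apply,
      MonoidAlgebra.single_mul_single]
    exact map_sum (MonoidAlgebra.singleAddHom (R := ℂ) (g * h)) _ _

/-- its linear extension -/
noncomputable def Th (ρ : G →* Matrix.unitaryGroup κ ℂ) : CG G →ₐ[ℂ] Matrix κ κ (CG G) :=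
  MonoidAlgebra.lift ℂ (Matrix κ κ (CG G)) G (th ρ)

lemma Th_single (ρ : G →* Matrix.unitaryGroup κ ℂ) (g : G) (b : ℂ) (i j : κ) :
    (Th ρ (MonoidAlgebra.single g b)) i j
      = MonoidAlgebra.single g (b * (ρ g : Matrix κ κ ℂ) i j) := by
  simp [Th, th, MonoidAlgebra.lift_single]

lemma repA_single (ρ : G →* Matrix.unitaryGroup κ ℂ) (g : G) (b : ℂ) :
    repA ρ (MonoidAlgebra.single g b) = b • (ρ g : Matrix κ κ ℂ) := by
  simp [repA, MonoidAlgebra.lift_single]

lemma Th_coeff (ρ : G →* Matrix.unitaryGroup κ ℂ) (x : CG G) (i j : κ) (g : G) :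
    ((Th ρ x) i j).coeff g = x.coeff g * (ρ g : Matrix κ κ ℂ) i j := by
  classical
  induction x using MonoidAlgebra.induction_linear with
  | zero => simp
  | add x y hx hy =>
    simp only [map_add, Matrix.add_apply, MonoidAlgebra.coeff_add, Finsupp.add_apply] at hx hy ⊢
    rw [hx, hy, add_mul]
  | single h b =>
    rw [Th_single, MonoidAlgebra.coeff_single, MonoidAlgebra.coeff_single, Finsupp.single_apply,
      Finsupp.single_apply]
    split_ifs with h1
    · rw [h1]
    · simp

lemma aug_Th (ρ : G →* Matrix.unitaryGroup κ ℂ) (x : CG G) (i j : κ) :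
    aug ((Th ρ x) i j) = repA ρ x i j := by
  induction x using MonoidAlgebra.induction_linear with
  | zero => simp
  | add x y hx hy => simp only [map_add, Matrix.add_apply, hx, hy]
  | single h b =>
    rw [Th_single, repA_single]
    simp [aug, MonoidAlgebra.lift_single]

/-- the Kronecker product of two unitary representations -/
noncomputable def kr {l : Type} [Fintype l] [DecidableEq l] (ρ : G →* Matrix.unitaryGroup κ ℂ)
    (σ : G →* Matrix.unitaryGroup l ℂ) : G →* Matrix.unitaryGroup (κ × l) ℂ where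
  toFun g := ⟨(ρ g : Matrix κ κ ℂ) ⊗ₖ (σ g : Matrix l l ℂ),
    Matrix.kronecker_mem_unitary (ρ g).2 (σ g).2⟩
  map_one' := by
    refine Subtype.ext ?_
    show ((ρ 1 : Matrix κ κ ℂ) ⊗ₖ (σ 1 : Matrix l l ℂ)) = 1
    rw [map_one, map_one, Matrix.UnitaryGroup.one_val, Matrix.UnitaryGroup.one_val,
      Matrix.one_kronecker_one]
  map_mul' g h := by
    refine Subtype.ext ?_
    show ((ρ (g * h) : Matrix κ κ ℂ) ⊗ₖ (σ (g * h) : Matrix l l ℂ))
      = ((ρ g : Matrix κ κ ℂ) ⊗ₖ (σ g : Matrix l l ℂ))
        * ((ρ h : Matrix κ κ ℂ) ⊗ₖ (σ h : Matrix l l ℂ))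
    rw [map_mul, map_mul, Matrix.UnitaryGroup.mul_val, Matrix.UnitaryGroup.mul_val,
      Matrix.mul_kronecker_mul]

lemma adm (ρ : G →* Matrix.unitaryGroup κ ℂ) : Adm (Th ρ) := by
  intro l _ _ σ
  refine ⟨kr ρ σ, fun x => ?_⟩
  induction x using MonoidAlgebra.induction_linear with
  | zero =>
    ext p q
    simp [twist, push]
  | add x y hx hy =>
    rw [map_add, hx, hy]
    ext p q
    simp [twist, push]
  | single h b =>
    rw [repA_single]
    ext p q
    rw [twist, push, Matrix.of_apply, Th_single, repA_single]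
    simp [kr, mul_assoc]

end TENM

open TENM in
theorem specTEN : SpecTEN := by
  intro G _ κ _ _ ρ
  refine ⟨Th ρ, adm ρ, fun ι _ a => ?_, fun ι a => ?_⟩
  · simp only [tau, push, Matrix.of_apply, Fintype.sum_prod_type, Th_coeff, map_one,
      Matrix.UnitaryGroup.one_val, Matrix.one_apply_eq, mul_one]
    simp [Finset.mul_sum]
  · ext p q
    rw [augM, Matrix.of_apply, push, Matrix.of_apply, aug_Th]
    rfl

end Pool.Agent.Lib.MP8a3537.SG
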