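import Pool.Agent.Lib.MP_8a3537_gt.SG.SpecN

/-!
# MP_8a3537_gt, signatures, module CEF
-/

set_option autoImplicit false

namespace Pool.Agent.Lib.MP8a3537.SG
namespace CEFM

lemma anti (hP : SpecPWM) {N : Type} [Group N] {i j : ℕ} (h : i ≤ j) : pw N j ≤ pw N i := by
  induction h with
  | refl => exact le_rfl
  | step _ ih => exact ((hP N).2.1 _).trans ih

lemma central {N : Type} [Group N] (c : N) (hc : ∀ g, g * c = c * g) (x : ZG N) :
    x * dg c = dg c * x := by
  have h : ∀ x : ZG N, x * MonoidAlgebra.single c 1 = MonoidAlgebra.single c 1 * x := by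
    intro x
    induction x using MonoidAlgebra.induction_linear with
    | zero => simp
    | add f g hf hg => rw [add_mul, mul_add, hf, hg]
    | single a b => rw [MonoidAlgebra.single_mul_single, MonoidAlgebra.single_mul_single, hc, mul_one, one_mul]
  rw [dg, mul_sub, sub_mul, h, mul_one, one_mul]

end CEFM

open CEFM in
theorem specCEF (hPWM : SpecPWM) : SpecCEF := by
  classical
  intro N _ c hc d f hf hne
  obtain ⟨hmul, hle, hdg⟩ := hPWM N
  let S : ℕ → Prop := fun j => ∃ y ∈ pw N j, f (dg c * y) ≠ 0
  have h0 : S 0 := ⟨1, by trivial, by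
    rw [mul_one, dg, map_sub]
    intro h
    exact hne (sub_eq_zero.1 h)⟩
  have hd : ∀ j, d ≤ j → ¬ S j := by
    rintro j hj ⟨y, hy, hn⟩
    apply hn
    apply hf
    have h1 : dg c * y ∈ pw N (1 + j) := by
      rw [← hmul]
      exact Submodule.mul_mem_mul (hdg c) hy
    exact anti hPWM (by omega) h1
  have hS : S (Nat.findGreatest S d) := Nat.findGreatest_spec (P := S) (Nat.zero_le d) h0
  set j := Nat.findGreatest S d with hj
  have hS1 : ¬ S (j + 1) := by
    by_cases h1 : j + 1 ≤ d
    · exact Nat.findGreatest_is_greatest (P := S) (Nat.lt_succ_self _) h1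
    · exact hd _ (by omega)
  obtain ⟨y, hy, hn⟩ := hS
  refine ⟨f ∘ₗ LinearMap.mulLeft ℤ y, f (dg c * y), ?_, hn, ?_⟩
  · intro x hx
    rw [LinearMap.comp_apply, LinearMap.mulLeft_apply]
    apply hf
    have h1 : y * x ∈ pw N (j + (d + 1)) := by
      rw [← hmul]
      exact Submodule.mul_mem_mul hy hx
    exact anti hPWM (by omega) h1
  · intro u
    simp only [LinearMap.comp_apply, LinearMap.mulLeft_apply]
    have e1 : (MonoidAlgebra.single (u * c) 1 : ZG N) =
        MonoidAlgebra.single u 1 + dg c + dg u * dg c := by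
      have e2 : (MonoidAlgebra.single u 1 : ZG N) = 1 + dg u := by
        rw [dg]; abel
      have e3 : (MonoidAlgebra.single (u * c) 1 : ZG N) =
          MonoidAlgebra.single u 1 * MonoidAlgebra.single c 1 := by
        rw [MonoidAlgebra.single_mul_single, mul_one]
      have e4 : (MonoidAlgebra.single c 1 : ZG N) = 1 + dg c := by
        rw [dg]; abel
      rw [e3, e2, e4]
      noncomm_ring
    rw [e1, mul_add, mul_add, map_add, map_add]
    have e5 : y * dg c = dg c * y := central c hc y
    have e6 : y * (dg u * dg c) = dg c * (y * dg u) := by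
      rw [← mul_assoc, central c hc]
    have h7 : f (dg c * (y * dg u)) = 0 := by
      by_contra h8
      apply hS1
      refine ⟨y * dg u, ?_, h8⟩
      rw [← hmul]
      exact Submodule.mul_mem_mul hy (hdg u)
    rw [e5, e6, h7, add_zero]

end Pool.Agent.Lib.MP8a3537.SG
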