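import Mathlib

/-!
# Definitions for the signature theorem (MP_8a3537_gt, rows SG)

Paper proof: /team-store/MP_8a3537_gt_SIGNATURES.md
-/

set_option linter.unusedVariables false

namespace Pool.Agent.Lib.MP8a3537.SG

open scoped BigOperators Pointwise ComplexOrder

/-- the complex group ring -/
abbrev CG (G : Type) := MonoidAlgebra ℂ G

/-- the iterates of `s(x) = (3x - x^3)/2` -/
noncomputable def sj (x : ℝ) : ℕ → ℝ
  | 0 => x
  | j + 1 => (3 * sj x j - (sj x j) ^ 3) / 2

/-- the error after `j` iterations -/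
noncomputable def del (e : ℝ) (j : ℕ) : ℝ := 1 - sj e j

/-- the same iteration in a complex algebra -/
noncomputable def it {A : Type*} [Ring A] [Algebra ℂ A] (a : A) : ℕ → A
  | 0 => a
  | j + 1 => (3 / 2 : ℂ) • it a j - (1 / 2 : ℂ) • (it a j) ^ 3

/-- `e(x) = exp (2 pi i x)` -/
noncomputable def ex (x : ℝ) : ℂ := Complex.exp (2 * Real.pi * x * Complex.I)

open Classical in
/-- number of positive minus number of negative eigenvalues of a hermitian matrix (0 for other
matrices) -/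
noncomputable def sgn {κ : Type} [Fintype κ] [DecidableEq κ] (A : Matrix κ κ ℂ) : ℤ :=
  if h : A.IsHermitian then
    ((Finset.univ.filter fun i => 0 < h.eigenvalues i).card : ℤ)
      - ((Finset.univ.filter fun i => h.eigenvalues i < 0).card : ℤ)
  else 0

/-- apply an algebra homomorphism `C[G] -> M_κ(B)` to the entries of a matrix -/
noncomputable def push {G : Type} [Group G] {ι κ : Type} [Fintype κ] [DecidableEq κ] {B : Type} [Ring B]
    [Algebra ℂ B] (Φ : CG G →ₐ[ℂ] Matrix κ κ B) (x : Matrix ι ι (CG G)) :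
    Matrix (ι × κ) (ι × κ) B :=
  Matrix.of fun p q => Φ (x p.1 q.1) p.2 q.2

/-- the extension of a finite dimensional unitary representation to the group ring -/
noncomputable def repA {G : Type} [Group G] {κ : Type} [Fintype κ] [DecidableEq κ]
    (ρ : G →* Matrix.unitaryGroup κ ℂ) : CG G →ₐ[ℂ] Matrix κ κ ℂ :=
  MonoidAlgebra.lift ℂ (Matrix κ κ ℂ) G ((Submonoid.subtype (Matrix.unitaryGroup κ ℂ)).comp ρ)

/-- `rho(x)` for a matrix `x` over the group ring -/
noncomputable def twist {G : Type} [Group G] {ι κ : Type} [Fintype κ] [DecidableEq κ]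
    (ρ : G →* Matrix.unitaryGroup κ ℂ) (x : Matrix ι ι (CG G)) : Matrix (ι × κ) (ι × κ) ℂ :=
  push (repA ρ) x

/-- the augmentation -/
noncomputable def aug {G : Type} [Group G] : CG G →ₐ[ℂ] ℂ := MonoidAlgebra.lift ℂ ℂ G 1

/-- the augmentation of a matrix -/
noncomputable def augM {G : Type} [Group G] {ι : Type} (x : Matrix ι ι (CG G)) : Matrix ι ι ℂ :=
  Matrix.of fun i j => aug (x i j)

/-- the canonical trace: coefficient of `1` of the trace -/
noncomputable def tau {G : Type} [Group G] {ι : Type} [Fintype ι] (x : Matrix ι ι (CG G)) : ℂ :=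
  ∑ i, (x i i).coeff 1

/-- GAP(G, a, e): in all finite dimensional unitary representations the matrix is hermitian and its
eigenvalues satisfy `e <= |mu| <= 1` -/
def Gap {G : Type} [Group G] {ι : Type} [Fintype ι] [DecidableEq ι] (a : Matrix ι ι (CG G))
    (e : ℝ) : Prop :=
  ∀ (κ : Type) [Fintype κ] [DecidableEq κ] (ρ : G →* Matrix.unitaryGroup κ ℂ),
    (twist ρ a).IsHermitian ∧
    ∀ (μ : ℝ) (v : ι × κ → ℂ), v ≠ 0 → (twist ρ a).mulVec v = (μ : ℂ) • v → e ≤ |μ| ∧ |μ| ≤ 1

/-- the property P -/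
def P (G : Type) [Group G] : Prop :=
  ∀ (ι : Type) [Fintype ι] [DecidableEq ι] (a : Matrix ι ι (CG G)) (e : ℝ), 0 < e → e ≤ 1 →
    Gap a e → ∀ j : ℕ, ‖tau (it a j) - ((sgn (augM a) : ℤ) : ℂ)‖ ≤ Fintype.card ι * del e j

/-- admissible homomorphisms `C[G] -> M_κ(C[H])`: they turn finite dimensional unitary
representations of `H` into such representations of `G` -/
def Adm {G H : Type} [Group G] [Group H] {κ : Type} [Fintype κ] [DecidableEq κ]
    (Φ : CG G →ₐ[ℂ] Matrix κ κ (CG H)) : Prop :=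
  ∀ (l : Type) [Fintype l] [DecidableEq l] (σ : H →* Matrix.unitaryGroup l ℂ),
    ∃ ρ : G →* Matrix.unitaryGroup (κ × l) ℂ, ∀ x : CG G, repA ρ x = twist σ (Φ x)

/-- the homomorphism of group rings induced by a homomorphism of groups -/
noncomputable def mapA {G H : Type} [Group G] [Group H] (π : G →* H) : CG G →ₐ[ℂ] CG H :=
  MonoidAlgebra.lift ℂ (CG H) G ((MonoidAlgebra.of ℂ H).comp π)

/-- the same for matrices -/
noncomputable def mapM {G H : Type} [Group G] [Group H] {ι : Type} (π : G →* H)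
    (x : Matrix ι ι (CG G)) : Matrix ι ι (CG H) :=
  Matrix.of fun i j => mapA π (x i j)

/-- `Q` is the quotient of `N` by the infinite cyclic central subgroup generated by `c` -/
structure CExt (N Q : Type) [Group N] [Group Q] (π : N →* Q) (c : N) : Prop where
  surj : Function.Surjective π
  ker : ∀ g, π g = 1 ↔ ∃ k : ℤ, g = c ^ k
  central : ∀ g, g * c = c * g
  inf : ∀ k : ℤ, k ≠ 0 → c ^ k ≠ 1

/-- the class function `c^k -> e(pk/M)`, zero outside the powers of `c` -/
noncomputable def chi {N : Type} [Group N] (c : N) (M : ℕ) (p : ℤ) (g : N) : ℂ :=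
  open Classical in if h : ∃ k : ℤ, g = c ^ k then ex (p * h.choose / M) else 0

open Classical in
/-- polynomial distortion -/
def D2 (N : Type) [Group N] (c : N) : Prop :=
  ∀ F : Finset N, ∃ (C : ℝ) (r : ℕ), 0 ≤ C ∧
    ∀ (L : ℕ) (k : ℤ), 1 ≤ L → c ^ k ∈ F ^ L → |(k : ℝ)| ≤ C * (L : ℝ) ^ r

/-- polynomial residual finiteness along `c` -/
def R2 (N : Type) [Group N] (c : N) : Prop :=
  ∃ (C : ℝ) (r : ℕ), ∀ m : ℕ, 0 < m → ∃ Γ : Subgroup N, Γ.Normal ∧ Γ.index ≠ 0 ∧
    (Γ.index : ℝ) ≤ C * (m : ℝ) ^ r ∧ ∀ k : ℤ, c ^ k ∈ Γ → (m : ℤ) ∣ k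

/-- iterated central extensions by infinite cyclic groups -/
def TFN : ℕ → (N : Type) → Group N → Prop
  | 0, N, _ => Subsingleton N
  | h + 1, N, _ => ∃ (Q : Type) (iQ : Group Q) (π : N →* Q) (c : N), CExt N Q π c ∧ TFN h Q iQ

/-- the integral group ring -/
abbrev ZG (N : Type) := MonoidAlgebra ℤ N

/-- `g - 1` -/
noncomputable def dg {N : Type} [Group N] (g : N) : ZG N := MonoidAlgebra.single g 1 - 1

/-- the augmentation ideal -/
noncomputable def aI (N : Type) [Group N] : Submodule ℤ (ZG N) :=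
  Submodule.span ℤ (Set.range fun g : N => dg g)

/-- its powers, with zeroth power the whole ring -/
noncomputable def pw (N : Type) [Group N] : ℕ → Submodule ℤ (ZG N)
  | 0 => ⊤
  | j + 1 => pw N j * aI N

/-- polynomial functions of degree `<= d` -/
def IsPol {N : Type} [Group N] {A : Type} [AddCommGroup A] (d : ℕ) (f : ZG N →ₗ[ℤ] A) : Prop :=
  ∀ x ∈ pw N (d + 1), f x = 0

/-- products of `j` elements `t - 1`, `t` in `T` -/
def words {N : Type} [Group N] (T : Set N) (j : ℕ) : Set (ZG N) :=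
  {x | ∃ l : List N, l.length = j ∧ (∀ t ∈ l, t ∈ T) ∧ x = (l.map dg).prod}

/-- residually torsion-free nilpotent -/
def RTFN (G : Type) [Group G] : Prop :=
  ∀ g : G, g ≠ 1 → ∃ K : Subgroup G, ∃ _ : K.Normal, g ∉ K ∧ Group.IsNilpotent (G ⧸ K) ∧
    ∀ x : G ⧸ K, ∀ n : ℕ, 0 < n → x ^ n = 1 → x = 1

/-- hermitian matrices over the complex group ring, `(sum a_g g)^* = sum conj(a_g) g^-1` -/
def IsHerm {G : Type} [Group G] {ι : Type} (h : Matrix ι ι (CG G)) : Prop :=
  ∀ i j g, (h j i).coeff g = (starRingEnd ℂ) ((h i j).coeff g⁻¹)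

/-- the Hilbert space `l^2(G)^n` -/
noncomputable abbrev L2 (ι G : Type) := lp (fun _ : ι × G => ℂ) 2

open Classical in
/-- the standard orthonormal basis of `l^2(G)^n` -/
noncomputable def bv {ι G : Type} (p : ι × G) : L2 ι G := lp.single 2 p (1 : ℂ)

/-- `H` is the operator of left multiplication by the matrix `h` on `l^2(G)^n` -/
def IsOp {G : Type} [Group G] {ι : Type} (h : Matrix ι ι (CG G)) (H : L2 ι G →L[ℂ] L2 ι G) :
    Prop :=
  ∀ i j g u, (H (bv (j, u)) : ι × G → ℂ) (i, g) = (h i j).coeff (g * u⁻¹)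

/-- `S` is the sign of the operator `H` -/
def IsSignOp {ι G : Type} (H S : L2 ι G →L[ℂ] L2 ι G) : Prop :=
  IsSelfAdjoint S ∧ S * S = 1 ∧ S * H = H * S ∧ (S * H).IsPositive

end Pool.Agent.Lib.MP8a3537.SG
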