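import Pool.Agent.Lib.MP_8a3537_gt.SG.SpecN

/-!
# MP_8a3537_gt, SG, module RES: polynomial residual finiteness
-/

set_option autoImplicit false

namespace Pool.Agent.Lib.MP8a3537.SG

open scoped BigOperators

namespace RESM

variable {N : Type} [Group N]

/-- the value of `h` at a group element -/
noncomputable def ev (h : ZG N →ₗ[ℤ] ℤ) (g : N) : ℤ := h (MonoidAlgebra.single g 1)

theorem ev_zpow (c : N) (h : ZG N →ₗ[ℤ] ℤ) (e : ℤ) (hh : ∀ u : N, ev h (u * c) = ev h u + e) :
    ∀ k : ℤ, ev h (c ^ k) = ev h 1 + k * e := by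
  intro k
  induction k using Int.induction_on with
  | zero => simp
  | succ i ih => rw [zpow_add_one, hh, ih]; ring
  | pred i ih =>
      have h1 := hh (c ^ (-(i : ℤ) - 1))
      have h2 : c ^ (-(i : ℤ) - 1) * c = c ^ (-(i : ℤ)) := by
        rw [← zpow_add_one, sub_add_cancel]
      rw [h2, ih] at h1
      linear_combination -h1

/-- the subgroup `Γ` -/
def Gam (h : ZG N →ₗ[ℤ] ℤ) (M : ℕ) : Subgroup N where
  carrier := {g | ∀ u v : N, ((ev h (u * g * v) : ℤ) : ZMod M) = ((ev h (u * v) : ℤ) : ZMod M)}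
  one_mem' := by
    intro u v
    rw [mul_one]
  mul_mem' := by
    intro a b ha hb u v
    have h1 := hb (u * a) v
    rw [ha u v] at h1
    rw [← mul_assoc u a b]
    exact h1
  inv_mem' := by
    intro a ha u v
    have h1 := ha (u * a⁻¹) v
    rw [inv_mul_cancel_right] at h1
    exact h1.symm

theorem gam_normal (h : ZG N →ₗ[ℤ] ℤ) (M : ℕ) : (Gam h M).Normal := by
  constructor
  intro n hn g u v
  have h1 := hn (u * g) (g⁻¹ * v)
  have e1 : u * (g * n * g⁻¹) * v = u * g * n * (g⁻¹ * v) := by group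
  have e2 : u * g * (g⁻¹ * v) = u * v := by group
  rw [e1, h1, e2]

/-- the bilinear form `(x, y) -> h (x z y) mod M` -/
noncomputable def bil (h : ZG N →ₗ[ℤ] ℤ) (M : ℕ) (z : ZG N) : ZG N →ₗ[ℤ] ZG N →ₗ[ℤ] ZMod M :=
  LinearMap.mk₂ ℤ (fun x y => ((h (x * z * y) : ℤ) : ZMod M))
    (fun x x' y => by rw [add_mul, add_mul, map_add, Int.cast_add])
    (fun a x y => by rw [smul_mul_assoc, smul_mul_assoc, map_smul, smul_eq_mul, Int.cast_mul,
      zsmul_eq_mul])
    (fun x y y' => by rw [mul_add, map_add, Int.cast_add])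
    (fun a x y => by rw [mul_smul_comm, map_smul, smul_eq_mul, Int.cast_mul, zsmul_eq_mul])

theorem bil_apply (h : ZG N →ₗ[ℤ] ℤ) (M : ℕ) (z x y : ZG N) :
    bil h M z x y = ((h (x * z * y) : ℤ) : ZMod M) := rfl

theorem words_finite {T : Set N} (hT : T.Finite) (j : ℕ) : (words T j).Finite := by
  have h1 : {l : List N | l.length = j ∧ ∀ t ∈ l, t ∈ T}.Finite := by
    have h2 := List.finite_length_eq (α := hT.toFinset) j
    have h3 : {l : List N | l.length = j ∧ ∀ t ∈ l, t ∈ T} ⊆
        (fun l : List hT.toFinset => l.map Subtype.val) '' {l | l.length = j} := by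
      rintro l ⟨hl, hlt⟩
      refine ⟨l.attach.map (fun t => ⟨t.1, by simpa using hlt t.1 t.2⟩), ?_, ?_⟩
      · show (List.map _ l.attach).length = j
        rw [List.length_map, List.length_attach, hl]
      · show List.map Subtype.val (List.map _ l.attach) = l
        rw [List.map_map]
        exact List.attach_map_subtype_val l
    exact (h2.image _).subset h3
  refine (h1.image (fun l => (l.map dg).prod)).subset ?_
  rintro x ⟨l, hl, ht, rfl⟩
  exact ⟨l, ⟨hl, ht⟩, rfl⟩

end RESM

open RESM

theorem specRES (hPWM : SpecPWM) (hGEN : SpecGEN) : SpecRES := by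
  intro N _ c d h e hfg hpol he hh
  obtain ⟨S, hS⟩ := Group.fg_def.1 hfg
  let T : Set N := (S : Set N) ∪ (S : Set N)⁻¹
  have hT : T.Finite := S.finite_toSet.union S.finite_toSet.inv
  have hTc : Submonoid.closure T = ⊤ := by
    rw [← Subgroup.closure_toSubmonoid, hS, Subgroup.top_toSubmonoid]
  have hW : (⋃ j ∈ Finset.range (d + 1), words T j).Finite :=
    Set.Finite.biUnion (Finset.finite_toSet _) (fun j _ => words_finite hT j)
  let W : Finset (ZG N) := hW.toFinset
  have hev : ∀ u : N, ev h (u * c) = ev h u + e := hh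
  have hle : ∀ i, d + 1 ≤ i → pw N i ≤ pw N (d + 1) := by
    intro i hi
    induction i, hi using Nat.le_induction with
    | base => exact le_rfl
    | succ i _ ih => exact ((hPWM N).2.1 i).trans ih
  refine ⟨((e.natAbs : ℝ)) ^ (W.card * W.card), W.card * W.card, ?_⟩
  intro m hm
  let M : ℕ := m * e.natAbs
  have hM : 0 < M := Nat.mul_pos hm (Int.natAbs_pos.2 he)
  have : NeZero M := ⟨hM.ne'⟩
  -- the map into the finite set
  let f : N → (W × W → ZMod M) := fun g p =>
    bil h M (MonoidAlgebra.single g 1) p.1.1 p.2.1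
  have hf : ∀ g g' : N, f g = f g' → g⁻¹ * g' ∈ Gam h M := by
    intro g g' hgg
    have h0 : bil h M (MonoidAlgebra.single g 1) - bil h M (MonoidAlgebra.single g' 1) = 0 := by
      apply (hGEN N T hTc).2.2 (ZMod M) d
      · intro i j hij x hx y hy
        have hz : ∀ z : ZG N, bil h M z x y = 0 := by
          intro z
          rw [bil_apply]
          have h1 : x * z ∈ pw N i := by
            have := (hPWM N).1 i 0
            rw [add_zero] at this
            rw [← this]
            exact Submodule.mul_mem_mul hx (Submodule.mem_top)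
          have h2 : x * z * y ∈ pw N (i + j) := by
            rw [← (hPWM N).1 i j]
            exact Submodule.mul_mem_mul h1 hy
          rw [hpol _ (hle _ hij h2), Int.cast_zero]
        rw [LinearMap.sub_apply, LinearMap.sub_apply, hz, hz, sub_zero]
      · intro i j hij x hx y hy
        have hxW : x ∈ W := by
          rw [Set.Finite.mem_toFinset]
          exact Set.mem_biUnion (by simp; omega : i ∈ (Finset.range (d + 1) : Set ℕ)) hx
        have hyW : y ∈ W := by
          rw [Set.Finite.mem_toFinset]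
          exact Set.mem_biUnion (by simp; omega : j ∈ (Finset.range (d + 1) : Set ℕ)) hy
        rw [LinearMap.sub_apply, LinearMap.sub_apply, sub_eq_zero]
        exact congrFun hgg (⟨x, hxW⟩, ⟨y, hyW⟩)
    intro u v
    have h1 := LinearMap.congr_fun₂ h0 (MonoidAlgebra.single (u * g⁻¹) 1) (MonoidAlgebra.single v 1)
    rw [LinearMap.sub_apply, LinearMap.sub_apply, bil_apply, bil_apply,
      MonoidAlgebra.single_mul_single, MonoidAlgebra.single_mul_single,
      MonoidAlgebra.single_mul_single, MonoidAlgebra.single_mul_single, LinearMap.zero_apply,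
      LinearMap.zero_apply, sub_eq_zero, inv_mul_cancel_right, mul_one, mul_one] at h1
    rw [← mul_assoc]
    exact h1.symm
  let q : N ⧸ Gam h M → (W × W → ZMod M) := fun x => f x.out
  have hq : Function.Injective q := by
    intro x y hxy
    have h1 := hf _ _ hxy
    rw [← QuotientGroup.out_eq' x, ← QuotientGroup.out_eq' y]
    exact QuotientGroup.eq.2 h1
  have hfin : Finite (N ⧸ Gam h M) := Finite.of_injective q hq
  refine ⟨Gam h M, gam_normal h M, ?_, ?_, ?_⟩
  · exact Nat.card_pos.ne'
  · have h1 : (Gam h M).index ≤ M ^ (W.card * W.card) := by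
      have h2 := Nat.card_le_card_of_injective q hq
      have h3 : Nat.card (W × W → ZMod M) = M ^ (W.card * W.card) := by
        rw [Nat.card_fun, Nat.card_zmod, Nat.card_prod, Nat.card_eq_fintype_card,
          Fintype.card_coe]
      rw [h3] at h2
      exact h2
    calc ((Gam h M).index : ℝ) ≤ ((M ^ (W.card * W.card) : ℕ) : ℝ) := Nat.cast_le.2 h1
      _ = _ := by
        rw [Nat.cast_pow, Nat.cast_mul, mul_pow, mul_comm]
  · intro k hk
    have h1 := hk 1 1
    rw [one_mul, mul_one, mul_one, ev_zpow c h e hev, Int.cast_add] at h1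
    have h2 : ((k * e : ℤ) : ZMod M) = 0 := by
      have h3 : ((ev h 1 : ℤ) : ZMod M) + ((k * e : ℤ) : ZMod M) = ((ev h 1 : ℤ) : ZMod M) + 0 := by
        rw [h1, add_zero]
      exact add_left_cancel h3
    rw [ZMod.intCast_zmod_eq_zero_iff_dvd] at h2
    have h4 : ((M : ℕ) : ℤ) ∣ (m : ℤ) * e := by
      show (((m * e.natAbs : ℕ)) : ℤ) ∣ (m : ℤ) * e
      rw [Nat.cast_mul]
      exact mul_dvd_mul_left _ (Int.natAbs_dvd.2 dvd_rfl)
    have h5 : (m : ℤ) * e ∣ k * e := by
      refine dvd_trans ?_ h2
      show (m : ℤ) * e ∣ (((m * e.natAbs : ℕ)) : ℤ)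
      rw [Nat.cast_mul]
      exact mul_dvd_mul_left _ (Int.dvd_natAbs.2 dvd_rfl)
    exact (mul_dvd_mul_iff_right he).1 h5

end Pool.Agent.Lib.MP8a3537.SG
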