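import Pool.Agent.Lib.MP_8a3537_gt.SG.Defs

/-!
# Specs of the signature theorem (MP_8a3537_gt, rows SG)

Paper: /team-store/MP_8a3537_gt_SIGNATURES.md.  Every proof is in the docstring.  One module = one file
Pool/Agent/Lib/MP_8a3537_gt/SG/XXX.lean, theorem specXXX (hYYY : SpecYYY) ... : SpecXXX.
-/

set_option linter.unusedVariables false

namespace Pool.Agent.Lib.MP8a3537.SG

open scoped BigOperators Pointwise ComplexOrder

/-! ## Block A: scalars -/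

/-- **SCA** [100 lines].  `s(x) = (3x-x^3)/2` is odd, `0 <= s(x) <= 1` and `s` is increasing on `[0,1]`
(`s(y)-s(x) = (y-x)(3-x^2-xy-y^2)/2`), `s(x) >= x` there.  So for `e <= |x| <= 1`, `sign x * sj x j = sj |x| j` lies in
`[sj e j, 1]`: first claim.  `1 - s(x) = (1-x)^2 (2+x)/2` gives everything else: `sj e j` is increasing in `j`;
`1 - s(x) <= (1 - e/2)(1-x)` for `x >= e`, so `del e j -> 0`; once `(3/2) del <= 1/2`, `(3/2)(1-s(x)) <= ((3/2)(1-x))^2`, so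
`(3/2) del e (j0+i) <= (1/2)^(2^i)`. -/
def SpecSCA : Prop := ∀ e : ℝ, 0 < e → e ≤ 1 →
  (∀ (x : ℝ) (j : ℕ), e ≤ |x| → |x| ≤ 1 → |sj x j - (SignType.sign x : ℝ)| ≤ del e j) ∧
  (∀ j, 0 ≤ del e j ∧ del e j ≤ 1 ∧ del e (j + 1) ≤ del e j) ∧
  (∃ j0 : ℕ, ∀ i : ℕ, del e (j0 + i) ≤ (1 / 2 : ℝ) ^ (2 ^ i))

/-- **CHO** [150 lines, uses SCA].  Choose `i` = least with `2^i >= (R+2) log_2 M`, `j = j0 + i`.  Then
`del e j <= M^(-R-2)`, and `2^i <= 2 (R+2) log_2 M`, `3^i <= (2^i)^2`, so `C (3^j)^r <= C 3^(j0 r) (2(R+2) log_2 M)^(2r)` =: `K(M)`, a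
polylogarithmic quantity: `K(M) < M` and `C M^R (2^(R+1) n M^(-R-2) + (2K+1) 2n (2 pi K)^(R+1) M^(-R-1)) -> 0`. -/
def SpecCHO : Prop := ∀ (e n C : ℝ) (r R : ℕ), 0 < e → e ≤ 1 → 0 ≤ n → 0 ≤ C →
  ∃ M0 : ℕ, 0 < M0 ∧ ∀ M : ℕ, M0 ≤ M → ∃ j : ℕ,
    C * ((3 : ℝ) ^ j) ^ r < M ∧
    C * (M : ℝ) ^ R * (2 ^ (R + 1) * (n * del e j)
      + (2 * (C * ((3 : ℝ) ^ j) ^ r) + 1) * (2 * n) *
        (2 * Real.pi * (C * ((3 : ℝ) ^ j) ^ r) / M) ^ (R + 1)) < 1

/-- **DIF** [100 lines].  `(fwdDiff 1)^[R+1] v` times `I` is an integer (fwdDiff_iter_eq_sum_shift) of absolute value `< 1`, so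
`(fwdDiff 1)^[R+1] v = 0`.  If `w` is periodic with period `M > 0` and `fwdDiff 1 w = 0` then `w` is constant; a constant
function of the form `fwdDiff 1 w'` with `w'` periodic has zero sum over a period, so it is `0`.  Downward induction: all
`(fwdDiff 1)^[k] v`, `k >= 1`, vanish, and `v` is constant. -/
def SpecDIF : Prop := ∀ (M R I : ℕ) (v : ℤ → ℝ), 0 < M → 0 < I → (∀ p, v (p + M) = v p) →
  (∀ p, ∃ z : ℤ, (I : ℝ) * v p = z) → (∀ p, (I : ℝ) * |(fwdDiff (1 : ℤ))^[R + 1] v p| < 1) →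
  ∀ p, v p = v 0

/-- the trigonometric polynomial with coefficients `T` at the `M`-th roots of unity -/
noncomputable def F (T : ℤ → ℂ) (K M : ℕ) (p : ℤ) : ℂ :=
  ∑ k ∈ Finset.Icc (-(K : ℤ)) K, T k * ex (p * k / M)

/-- **TRI** [150 lines].  (1) `fwdDiff 1` of `p -> ex(pk/M)` is `(ex(k/M) - 1) ex(pk/M)` and `|ex x - 1| <= 2 pi |x|`, so every term of the
`R`-th difference is at most `B (2 pi K/M)^R`; there are `2K+1` terms.  (2) orthogonality of characters: for integers `l` with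
`|l| < M`, `sum_{p<M} ex(p l/M) = 0` unless `l = 0` (geometric sum). -/
def SpecTRI : Prop := ∀ (T : ℤ → ℂ) (K M R : ℕ) (B : ℝ), 0 < M → 0 ≤ B →
  ((∀ k ∈ Finset.Icc (-(K : ℤ)) K, ‖T k‖ ≤ B) →
    ∀ p, ‖(fwdDiff (1 : ℤ))^[R] (F T K M) p‖ ≤ (2 * K + 1) * B * (2 * Real.pi * K / M) ^ R) ∧
  (2 * K < M → ∀ k ∈ Finset.Icc (-(K : ℤ)) K,
    T k = (1 / M : ℂ) * ∑ p ∈ Finset.range M, F T K M p * ex (-((p : ℝ) * k / M)))

/-- **CLM** [200 lines, uses SCA CHO DIF TRI], section 3 of the paper without groups.  (1) `v_M(0) = σ` for all `M`: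
`F T_j K_j M 0 = F T_j K_j 1 0`, both are within `n del e j -> 0`.  (2) `‖F T_j K_j M p‖ <= n + n del e j <= 2n`, so by TRI (2) with `M > 2K_j`:
`‖T_j k‖ <= 2n` for `|k| <= K_j`.  (3) for `M >= M0` of CHO (C replaced by max(C,0)) and its `j`: `(fwdDiff 1)^[R+1] v_M` =
`(fwdDiff 1)^[R+1] (v_M - F) + (fwdDiff 1)^[R+1] F`, the first part is at most `2^(R+1) n del e j`, the second by TRI (1) with `B = 2n`; so
`I_M |(fwdDiff 1)^[R+1] v_M(p)| < 1` and by DIF `v_M` is constant `= σ`.  (4) Given `j`, take `M >= M0`, `M > 2 K_j`: TRI (2) with `k = 0`: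
`T_j 0 = (1/M) sum_{p<M} F(p)` and each `F(p)` is within `n del e j` of `v_M(p) = σ`. -/
def SpecCLM : Prop := ∀ (e n C : ℝ) (r R : ℕ) (T : ℕ → ℤ → ℂ) (K : ℕ → ℕ) (σ : ℝ),
  0 < e → e ≤ 1 → 0 ≤ n → 0 ≤ C → (∀ j, (K j : ℝ) ≤ C * ((3 : ℝ) ^ j) ^ r) →
  (∀ M : ℕ, 0 < M → ∃ (v : ℤ → ℝ) (I : ℕ), 0 < I ∧ (I : ℝ) ≤ C * (M : ℝ) ^ R ∧
    (∀ p, v (p + M) = v p) ∧ (∀ p, ∃ z : ℤ, (I : ℝ) * v p = z) ∧ (∀ p, |v p| ≤ n) ∧
    ∀ j p, ‖F (T j) (K j) M p - (v p : ℂ)‖ ≤ n * del e j) →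
  (∀ j, ‖F (T j) (K j) 1 0 - (σ : ℂ)‖ ≤ n * del e j) →
  ∀ j, ‖T j 0 - (σ : ℂ)‖ ≤ n * del e j

/-! ## Block B: matrices over group rings -/

/-- **SPE** [120 lines, uses SCA].  Spectral theorem: `A = U diag(λ) U*` (Matrix.IsHermitian.spectral_theorem), `it A j = U diag(sj λ_i j) U*`,
trace `= sum sj λ_i j`; every `λ_i` satisfies `e <= |λ_i| <= 1` (eigenvectors), and `sgn A = sum sign λ_i`. -/
def SpecSPE : Prop := ∀ (κ : Type) [Fintype κ] [DecidableEq κ] (A : Matrix κ κ ℂ) (e : ℝ), 0 < e → e ≤ 1 →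
  A.IsHermitian → (∀ (μ : ℝ) (v : κ → ℂ), v ≠ 0 → A.mulVec v = (μ : ℂ) • v → e ≤ |μ| ∧ |μ| ≤ 1) →
  ∀ j, ‖(it A j).trace - ((sgn A : ℤ) : ℂ)‖ ≤ Fintype.card κ * del e j

/-- **REI** [60 lines].  The characteristic polynomials agree (Matrix.charpoly_reindex), its roots are the eigenvalues with multiplicity
(Matrix.IsHermitian.roots_charpoly_eq_eigenvalues or similar).  Second part: `|sgn A| <= card`. -/
def SpecREI : Prop := ∀ (κ κ' : Type) [Fintype κ] [DecidableEq κ] [Fintype κ'] [DecidableEq κ'] (f : κ ≃ κ')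
  (A : Matrix κ κ ℂ), sgn (Matrix.reindex f f A) = sgn A ∧ |sgn A| ≤ (Fintype.card κ : ℤ)

/-- **PUS** [80 lines].  `push Φ` is an algebra homomorphism (it is `Φ` applied to the entries followed by the identification of
matrices of matrices with matrices), so it commutes with `it`.  The same for `mapM π` and `augM`. -/
def SpecPUS : Prop :=
  (∀ (G : Type) [Group G] (ι κ : Type) [Fintype ι] [DecidableEq ι] [Fintype κ] [DecidableEq κ] (B : Type) [Ring B]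
    [Algebra ℂ B] (Φ : CG G →ₐ[ℂ] Matrix κ κ B) (a : Matrix ι ι (CG G)) (j : ℕ), push Φ (it a j) = it (push Φ a) j) ∧
  (∀ (G H : Type) [Group G] [Group H] (ι : Type) [Fintype ι] [DecidableEq ι] (π : G →* H) (a : Matrix ι ι (CG G)) (j : ℕ),
    mapM π (it a j) = it (mapM π a) j) ∧
  (∀ (G : Type) [Group G] (ι : Type) [Fintype ι] [DecidableEq ι] (a : Matrix ι ι (CG G)) (j : ℕ),
    augM (it a j) = it (augM a) j)

/-- **GPH** [100 lines].  (1) For a finite dimensional unitary `σ` of `H` take `ρ` from `Adm Φ`; `twist σ (push Φ a)` is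
`twist ρ a` reindexed along `(ι × κ) × l ≃ ι × (κ × l)`; hermitian matrices and eigenvectors are transported.
(2) `σ.comp π` is a unitary representation of `G` with `twist (σ.comp π) a = twist σ (mapM π a)`. (3) `aug (mapA π x) = aug x`. -/
def SpecGPH : Prop :=
  (∀ (G H : Type) [Group G] [Group H] (ι κ : Type) [Fintype ι] [DecidableEq ι] [Fintype κ] [DecidableEq κ]
    (Φ : CG G →ₐ[ℂ] Matrix κ κ (CG H)) (a : Matrix ι ι (CG G)) (e : ℝ), Adm Φ → Gap a e → Gap (push Φ a) e) ∧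
  (∀ (G H : Type) [Group G] [Group H] (ι : Type) [Fintype ι] [DecidableEq ι] (π : G →* H) (a : Matrix ι ι (CG G)) (e : ℝ),
    Gap a e → Gap (mapM π a) e) ∧
  (∀ (G H : Type) [Group G] [Group H] (ι : Type) (π : G →* H) (a : Matrix ι ι (CG G)), augM (mapM π a) = augM a)

/-- **AUG** [60 lines, uses REI].  `augM a` is `twist 1 a` for the trivial one-dimensional representation, reindexed along
`ι × Unit ≃ ι`: if `Gap a e` then `augM a` is hermitian, with the eigenvector property. -/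
def SpecAUG : Prop := ∀ (G : Type) [Group G] (ι : Type) [Fintype ι] [DecidableEq ι] (a : Matrix ι ι (CG G)) (e : ℝ),
  Gap a e → (augM a).IsHermitian ∧
    ∀ (μ : ℝ) (v : ι → ℂ), v ≠ 0 → (augM a).mulVec v = (μ : ℂ) • v → e ≤ |μ| ∧ |μ| ≤ 1

/-- **TRV** [60 lines, uses SPE AUG PUS].  For the trivial group `(x i i).coeff 1 = aug (x i i)`, so `tau (it a j) = (it (augM a) j).trace`. -/
def SpecTRV : Prop := ∀ (G : Type) [Group G], Subsingleton G → P G

/-- **ISO** [60 lines, uses PUS GPH].  Transport along an isomorphism `f : G ≃* H` by `mapM f.toMonoidHom`: `tau (mapM f x) = tau x`. -/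
def SpecISO : Prop := ∀ (G H : Type) [Group G] [Group H], (G ≃* H) → P H → P G

/-- **TEN** [120 lines].  `Φ` = lift of `g -> (matrix ρ(g)) times of g`, i.e. `Φ (of g) i j = (ρ g) i j • of g`.  Adm: for `σ` take the
Kronecker product `g -> ρ(g) ⊗ σ(g)` on `κ × l`, a unitary matrix.  tau: the coefficient at `1` of `Φ(x) i i` is `x.coeff 1 * (ρ 1) i i`.
augM: linear in `x`, check on `of g`. -/
def SpecTEN : Prop := ∀ (G : Type) [Group G] (κ : Type) [Fintype κ] [DecidableEq κ] (ρ : G →* Matrix.unitaryGroup κ ℂ),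
  ∃ Φ : CG G →ₐ[ℂ] Matrix κ κ (CG G), Adm Φ ∧
    (∀ (ι : Type) [Fintype ι] (a : Matrix ι ι (CG G)), tau (push Φ a) = Fintype.card κ * tau a) ∧
    (∀ (ι : Type) (a : Matrix ι ι (CG G)), augM (push Φ a) = twist ρ a)

/-- **THE** [250 lines].  `Γ' = <c> Γ`, `B = π(Γ')`, `κ = N ⧸ Γ'` (finite, `card <= [N : Γ]`), representatives `t_u = u.out`.  `Γ'` consists of
the `c^k γ`; `χ(c^k γ) = ex(pk/M)` is a well defined homomorphism `Γ' -> ℂ^×` (if `c^k γ = c^l γ'` then `c^(k-l) ∈ Γ`, so `M | k-l`).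
`Θ(of g) u v = χ(t_u⁻¹ g t_v) of(π(t_u⁻¹ g t_v))` if `t_u⁻¹ g t_v ∈ Γ'`, else `0`: multiplicative because for given `g`, `v` exactly one `u` gives
a nonzero entry.  Adm: for `σ` the matrix `[χ(t_u⁻¹ g t_v) σ(π(t_u⁻¹ g t_v))]` is block monomial with unitary blocks, so unitary.
Trace: linear in `x`; for `x = of g` the `(u,u)` entry has coefficient `χ(t_u⁻¹ g t_u)` at `1` if `t_u⁻¹ g t_u ∈ Γ'` and `π(t_u⁻¹ g t_u) = 1`, i.e. if
`g` is a power `c^k` (central), and then it is `ex(pk/M)`. -/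
def SpecTHE : Prop := ∀ (N Q : Type) [Group N] [Group Q] (π : N →* Q) (c : N) (Γ : Subgroup N) (M : ℕ),
  CExt N Q π c → Γ.Normal → Γ.index ≠ 0 → 0 < M → (∀ k : ℤ, c ^ k ∈ Γ → (M : ℤ) ∣ k) →
  ∃ (B : Subgroup Q) (κ : Type) (_ : Fintype κ) (_ : DecidableEq κ), 0 < Fintype.card κ ∧ Fintype.card κ ≤ Γ.index ∧
    ∀ p : ℤ, ∃ Θ : CG N →ₐ[ℂ] Matrix κ κ (CG B), Adm Θ ∧
      ∀ x : CG N, ∑ i, ((Θ x) i i).coeff 1 = Fintype.card κ * x.coeff.sum fun g b => b * chi c M p g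

open Classical in
/-- **SUP** [60 lines].  Induction on `n`: the support of a product is contained in the product of the supports, and
`F^(3^n) ⊆ F^(3^(n+1))` because `1 ∈ F`. -/
def SpecSUP : Prop := ∀ (G : Type) [Group G] (ι : Type) [Fintype ι] [DecidableEq ι] (a : Matrix ι ι (CG G)) (S : Finset G),
  1 ∈ S → (∀ i j, (a i j).coeff.support ⊆ S) → ∀ n i j, ((it a n) i j).coeff.support ⊆ S ^ (3 ^ n)

/-- **STP** [250 lines, uses CLM THE SUP GPH PUS REI SCA], Lemma 3 of the paper.  Given `a`, `e`, Gap.  `n = card ι`, `T_j k = sum_i (it a j i i).coeff (c^k)`, `S` = union of the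
supports and `1`, by D2 and SUP: `T_j k = 0` unless `|k| <= C (3^j)^r` (S^(3^j)); put `K_j = floor(C (3^j)^r)`.  For `M`: Γ from R2, then `B`, `κ`, `Θ_p` from THE,
`I = card κ`, `v(p) = sgn (augM (push Θ_p a)) / I`, but choose it for `p mod M` only: `v(p) := v(p % M)` (the values `F T_j K_j M p` are periodic in `p`).
`P B` for `push Θ_p a` (GPH), PUS, and the trace formula of THE: `tau (push Θ_p (it a j)) = I * F T_j K_j M p`.  So `|F - v| <= n del e j` (the number of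
rows of `push Θ_p a` is `n I`), `|v| <= n` by REI.  σ = `sgn (augM a)`: `P Q` for `mapM π a`: `tau (mapM π (it a j)) = sum_k T_j k = F T_j K_j 1 0`.  CLM gives
`|T_j 0 - σ| <= n del e j`, and `T_j 0 = tau (it a j)`.  In CLM take the maximum of the constants. -/
def SpecSTP : Prop := ∀ (N Q : Type) [Group N] [Group Q] (π : N →* Q) (c : N), CExt N Q π c → D2 N c → R2 N c →
  P Q → (∀ B : Subgroup Q, P B) → P N

end Pool.Agent.Lib.MP8a3537.SG
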