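import Pool.Agent.Lib.MP_8a3537_gt.SG.Spec

/-!
# Specs of the signature theorem, second part: nilpotent groups, polynomial functions, conclusion

Paper: /team-store/MP_8a3537_gt_SIGNATURES.md, sections 4 and 5.
-/

set_option linter.unusedVariables false

namespace Pool.Agent.Lib.MP8a3537.SG

open scoped BigOperators Pointwise ComplexOrder

/-! ## Block D: nilpotent groups -/

/-- **TSB** [120 lines].  Induction on `h`.  `H ≤ N`, `π : N → Q` with kernel `<c>`.  By induction the subgroup `π(H)` of `Q` is TFN of some length.  If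
`H ∩ <c> = 1` then `H ≃* π(H)` (TFN is invariant under isomorphisms: induction, compose `π` with the isomorphism).  Otherwise `H ∩ <c>` is generated by `c^e`
with `e` the least positive exponent, and `H → π(H)` is a CExt with the element `c^e`. -/
def SpecTSB : Prop := ∀ (h : ℕ) (N : Type) [iN : Group N], TFN h N iN → ∀ H : Subgroup N, ∃ h' ≤ h, TFN h' H inferInstance

/-- **TFG** [100 lines].  Induction on `h`: an extension with central kernel `<c>` of a nilpotent group is nilpotent (e.g. `Group.isNilpotent_of_ker_le_center`), and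
an extension of finitely generated groups is finitely generated (lift generators of `Q` and add `c`). -/
def SpecTFG : Prop := ∀ (h : ℕ) (N : Type) [iN : Group N], TFN h N iN → Group.FG N ∧ Group.IsNilpotent N

/-- **TKZ** [150 lines].  `h = 0`: `Q` is trivial, `N = <c>` is infinite cyclic, `f(c^k) = k`, trivial kernel.  `h + 1`: `f = f_Q ∘ π`, where `f_Q : Q → ℤ` is from induction;
its kernel is `π⁻¹(ker f_Q)`, and `π` restricts to a CExt `ker f → ker f_Q` with the same `c`. -/
def SpecTKZ : Prop := ∀ (h : ℕ) (N : Type) [iN : Group N], TFN (h + 1) N iN →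
  ∃ f : N →* Multiplicative ℤ, Function.Surjective f ∧ TFN h f.ker inferInstance

/-- **ROO** [200 lines].  Roots in torsion-free nilpotent groups are unique.  Induction on the nilpotency class `s`.  `s <= 1`: commutative, `(x y⁻¹)^k = 1`.  `s >= 2`:
`x^k = y^k =: z` commutes with `y` and `x`, so `x` and `y⁻¹ x y` have the same `k`-th power `z`, and both lie in `H = <x> [N,N]`, a nilpotent group
of class `<= s - 1` (`[H,H] ≤ [[N,N],N]`, then `γ_i(H) ≤ γ_(i+1)(N)` for `i >= 2` in the numbering `γ_1 = N`); by induction `x = y⁻¹ x y`; so `x`, `y` commute and `(x y⁻¹)^k = 1`. -/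
def SpecROO : Prop := ∀ (N : Type) [Group N], Group.IsNilpotent N → (∀ x : N, ∀ n : ℕ, 0 < n → x ^ n = 1 → x = 1) →
  ∀ (x y : N) (k : ℕ), 0 < k → x ^ k = y ^ k → x = y

/-- **KNC** [150 lines].  `φ : N → Q` onto, `N` finitely generated, `Q` TFN: `ker φ` is the normal closure of a finite set.  Induction on `h` (all `N`, `φ`).  `h = 0`: `ker φ = N`, take generators of `N`.
`h + 1`: `Q → Q'` with kernel `<c>`; by induction `L = ker(N → Q')` is the normal closure of a finite set `l_1..l_m`, and `φ(L) = <c>`, `φ(l_i) = c^(e_i)`; take `l` in `L` with `φ(l) = c`; `R` = normal closure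
of all `l_i l^(-e_i)` and all commutators `[t, l]`, `t` in a finite generating set of `N`.  `R ≤ ker φ`.  Modulo `R` the element `l` is central and `L/R` is generated by `l` (it is the normal closure of the `l_i`, powers of the central `l`), so an element of `ker φ`
is `l^k` modulo `R`, and `c^k = 1` gives `k = 0`: `ker φ = R`. -/
def SpecKNC : Prop := ∀ (h : ℕ) (Q : Type) [iQ : Group Q], TFN h Q iQ → ∀ (N : Type) [Group N] (φ : N →* Q), Group.FG N →
  Function.Surjective φ → ∃ S : Finset N, Subgroup.normalClosure (S : Set N) = φ.ker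

/-- **CEX** [200 lines].  `A` central, finitely generated, torsion-free, `N/A` TFN: then `N` is TFN.  `A` is a finitely generated torsion-free
abelian group, so `A` has a basis `b_1..b_r` (free ℤ-module of rank `r`).  Induction on `r`: `r = 0`: `A = 1`.  `r + 1`: `c = b_1`, `N' = N/<c>`, `A' = A/<c>` is central
in `N'`, free of rank `r`, `N'/A' ≃* N/A`. -/
def SpecCEX : Prop := ∀ (N : Type) [iN : Group N] (A : Subgroup N) [A.Normal], A ≤ Subgroup.center N → A.FG →
  (∀ x ∈ A, ∀ n : ℕ, 0 < n → x ^ n = 1 → x = 1) → ∀ h : ℕ, TFN h (N ⧸ A) inferInstance → ∃ h', TFN h' N iN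

/-- **TOR** [150 lines, uses ROO KNC CEX].  Strong induction on the class.  Centre `Z` (torsion-free).  `N/Z` is nilpotent of smaller class (if `N` is nontrivial),
finitely generated, and torsion-free: if `x^k ∈ Z`, then for all `y`, `x^k = y⁻¹ x^k y = (y⁻¹ x y)^k`, so `x = y⁻¹ x y` by ROO.  So `N/Z` is TFN by induction; by KNC `Z` is the normal closure of a finite set of central elements,
hence the subgroup generated by it: `Z.FG`.  CEX with `A = Z`. -/
def SpecTOR : Prop := ∀ (N : Type) [iN : Group N], Group.FG N → Group.IsNilpotent N →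
  (∀ x : N, ∀ n : ℕ, 0 < n → x ^ n = 1 → x = 1) → ∃ h, TFN h N iN

/-! ## Block E: polynomial functions -/

/-- **PWM** [100 lines].  The augmentation ideal is two-sided: `⊤ * aI = aI = aI * ⊤` (`g (k - 1) = (gk - 1) - (g - 1)`), so `pw i * pw j = pw (i + j)`;
`pw (i+1) ≤ pw i`.  `dg g ∈ pw 1`. -/
def SpecPWM : Prop := ∀ (N : Type) [Group N], (∀ i j, pw N i * pw N j = pw N (i + j)) ∧ (∀ i, pw N (i + 1) ≤ pw N i) ∧
  (∀ g : N, dg g ∈ pw N 1)

/-- **GEN** [150 lines, uses PWM].  `T` generates `N` as a monoid.  (1) `pw j ≤ span (words T j) ⊔ pw (j+1)`: `j = 0`: `x = (aug x) 1 + (x - aug x)`;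
`j = 1`: `dg (st) = dg s + dg t + dg s * dg t`, induction over products of generators; `j + 1`: multiply.
(2) so `f` vanishing on `pw (d+1)` and on all words of length `<= d` vanishes.  (3) bilinear version: write both arguments modulo `pw (d+1)` as combinations of words of lengths
`i, j <= d`; if `i + j >= d + 1` the value is `0` by assumption, otherwise by the assumption on words. -/
def SpecGEN : Prop := ∀ (N : Type) [Group N] (T : Set N), Submonoid.closure T = ⊤ →
  (∀ j, pw N j ≤ Submodule.span ℤ (words T j) ⊔ pw N (j + 1)) ∧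
  (∀ (A : Type) [AddCommGroup A] (d : ℕ) (f : ZG N →ₗ[ℤ] A), IsPol d f → (∀ j ≤ d, ∀ x ∈ words T j, f x = 0) → f = 0) ∧
  (∀ (A : Type) [AddCommGroup A] (d : ℕ) (f : ZG N →ₗ[ℤ] ZG N →ₗ[ℤ] A),
    (∀ i j, d + 1 ≤ i + j → ∀ x ∈ pw N i, ∀ y ∈ pw N j, f x y = 0) →
    (∀ i j, i + j ≤ d → ∀ x ∈ words T i, ∀ y ∈ words T j, f x y = 0) → f = 0)

/-- the linear extension of an endomorphism of a group to the group ring -/
noncomputable def lin {K : Type} [Group K] (θ : K →* K) : ZG K →ₐ[ℤ] ZG K :=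
  MonoidAlgebra.lift ℤ (ZG K) K ((MonoidAlgebra.of ℤ K).comp θ)

/-- `D = θ - 1` on the group ring -/
noncomputable def dlin {K : Type} [Group K] (θ : K →* K) : ZG K →ₗ[ℤ] ZG K := (lin θ).toLinearMap - LinearMap.id

/-- **UNI** [150 lines, uses PWM].  `θ` acts unipotently on `K^ab` in the form: the `s`-th iterate of `k -> k⁻¹ θ(k)` maps `K` into the commutator subgroup.  Then for
every `j` some power of `D = θ - 1` maps `pw j` into `pw (j+1)`.  `D` maps every `pw j` into itself.  `j = 0`: `D` kills `1`, so `D ⊤ ≤ pw 1`.  `j = 1`: `D(dg k) = θ(k) - k = k dg(k⁻¹ θ k) ≡ dg(k⁻¹ θ k)` mod `pw 2`, and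
`dg c ∈ pw 2` for `c` a commutator (`[a,b] - 1 = a⁻¹ b⁻¹ (dg a dg b - dg b dg a)`), so `D^s pw 1 ≤ pw 2`.  `j + 1`: `D(xy) = Dx · y + x · Dy + Dx · Dy`; `D^n (xy)` is a sum of
terms `D^a x · D^b y` with `a + b >= n`; for `x ∈ pw j`, `y ∈ pw 1`, `n = r_j + r_1` each term lies in `pw (j+2)`. -/
def SpecUNI : Prop := ∀ (K : Type) [Group K] (θ : K →* K) (s : ℕ),
  (∀ k : K, ((fun k => k⁻¹ * θ k)^[s]) k ∈ commutator K) →
  ∀ j, ∃ r : ℕ, ∀ x ∈ pw K j, ((dlin θ) ^ r) x ∈ pw K (j + 1)

/-- **EXT** [300 lines, uses PWM UNI].  Extension of polynomial functions from `K = ker f` to `N = <x> K`.  `f x = 1`.  `θ(k) = x⁻¹ k x` (an automorphism of `K`); `k⁻¹ θ(k)` is a commutator of `N`, so the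
`s`-th iterate of `k -> k⁻¹ x⁻¹ k x` is `1` for `s >=` class of `N` (it lies in the `s`-th term of the lower central series), UNI applies.  `pr : N → K`, `pr(n) = x^(-f n) n`, extended linearly.
For `k ∈ K`: `pr(y k) = pr(y) k`; `pr(y x) = θ(pr y)` (also `pr(y x⁻¹) = θ⁻¹(pr y)`).  Filtration `U_(j,i) = pw (j+1) ⊔ D^i (pw j)`, `0 <= i <= r_j`, `U_(j,r_j) = pw (j+1) = U_(j+1,0)`... (`U_(j,0) = pw j`).
CLAIM: `pr y ∈ U_(j,i)` implies `pr(y (n-1)) ∈ U_(j,i+1)` for `n = x^a k`: `y(n-1) = y x^a (k-1) + y(x^a - 1)`; `pr(y x^a (k-1)) = θ^a(pr y)(k-1) ∈ pw (j+1)`; `pr(y(x^a - 1)) = (θ^a - 1) pr y`, and `θ^a - 1 = D · (a polynomial in θ, θ⁻¹)`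
maps `D^i pw j` into `D^(i+1) pw j` and `pw (j+1)` into itself.  Hence `pr(pw N m) ≤ pw K (d+1)` for `m = r_0 + ... + r_d`, and `F = f0 ∘ pr` is polynomial; `F = f0` on `K`. -/
def SpecEXT : Prop := ∀ (N : Type) [Group N] (f : N →* Multiplicative ℤ), Function.Surjective f → Group.IsNilpotent N →
  ∀ (d : ℕ) (f0 : ZG f.ker →ₗ[ℤ] ℤ), IsPol d f0 → ∃ (D : ℕ) (F : ZG N →ₗ[ℤ] ℤ), IsPol D F ∧
    ∀ u : f.ker, F (MonoidAlgebra.single (u : N) 1) = f0 (MonoidAlgebra.single u 1)

/-- **SEP** [100 lines, uses TKZ TFG EXT].  Induction on `h`; `h = 0` is empty.  `f : N → ℤ` with kernel `K` TFN `h` (TKZ).  If `f g ≠ 0` take the linear extension of `f : N → ℤ`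
(additive: vanishes on `pw 2` because `f(dg a dg b) = 0`; `f 1 = 0`), `d = 1`.  Otherwise `g ∈ K`, induction and EXT. -/
def SpecSEP : Prop := ∀ (h : ℕ) (N : Type) [iN : Group N], TFN h N iN → ∀ g : N, g ≠ 1 →
  ∃ (d : ℕ) (f : ZG N →ₗ[ℤ] ℤ), IsPol d f ∧ f (MonoidAlgebra.single g 1) ≠ f 1

/-- **CEF** [100 lines, uses PWM].  `c` central, `f` polynomial of degree `d` with `f c ≠ f 1`.  Let `j` be maximal with `f((c-1) pw j) ≠ 0` (true for `j = 0`, false for `j = d`, because
`(c-1) pw d ≤ pw (d+1)`), `y ∈ pw j` with `e = f((c-1) y) ≠ 0`, `h(u) = f(y u)`.  `h(uc) - h(u) = f(y u (c-1)) = f((c-1) y) + f((c-1) y (u-1)) = e + 0`, because `y(u-1) ∈ pw (j+1)`. -/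
def SpecCEF : Prop := ∀ (N : Type) [Group N] (c : N), (∀ g, g * c = c * g) → ∀ (d : ℕ) (f : ZG N →ₗ[ℤ] ℤ), IsPol d f →
  f (MonoidAlgebra.single c 1) ≠ f 1 → ∃ (h : ZG N →ₗ[ℤ] ℤ) (e : ℤ), IsPol d h ∧ e ≠ 0 ∧
    ∀ u : N, h (MonoidAlgebra.single (u * c) 1) = h (MonoidAlgebra.single u 1) + e

/-- **DIS** [120 lines, uses PWM].  `g_1 ... g_L = prod (1 + dg g_i)`; expand: `h(g_1...g_L) = sum over increasing i_1 < .. < i_m, m <= d, of h(dg g_(i_1) ... dg g_(i_m))` (longer products are in `pw (d+1)`;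
induction on `L` is convenient: for all `x`, `|h(x g_1...g_L)|` bounded by `B L^d`).  With `B` = maximum over words in `S` of length `<= d`: `|h(c^k)| <= (d+1) B L^d` for `c^k ∈ S^L`, and `h(c^k) = h(1) + k e`, so `|k| <= |k e| <= C L^d`. -/
def SpecDIS : Prop := ∀ (N : Type) [Group N] (c : N) (d : ℕ) (h : ZG N →ₗ[ℤ] ℤ) (e : ℤ), IsPol d h → e ≠ 0 →
  (∀ u : N, h (MonoidAlgebra.single (u * c) 1) = h (MonoidAlgebra.single u 1) + e) → D2 N c

/-- **RES** [200 lines, uses PWM GEN].  Given `m`, `M = m |e|`, `Γ = {g | for all u v, h(u g v) ≡ h(u v) mod M}`, a normal subgroup.  `c^k ∈ Γ` implies (u = v = 1) `M | k e`, so `m | k`.  Index: for `g ∈ N` let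
`F_g(x,y) = h(x g y) mod M`, a bilinear map with values in `ZMod M`, zero on `pw i × pw j` for `i + j >= d + 1`; `F_g = F_g'` implies `g⁻¹ g' ∈ Γ`.  By GEN (3) `F_g` is determined by its values on pairs of words in a finite set `T` (generators and inverses)
of lengths `i + j <= d`: at most `W` pairs, `W` independent of `m`; so the index is at most `M^W = |e|^W m^W` (finite). -/
def SpecRES : Prop := ∀ (N : Type) [Group N] (c : N) (d : ℕ) (h : ZG N →ₗ[ℤ] ℤ) (e : ℤ), Group.FG N → IsPol d h → e ≠ 0 →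
  (∀ u : N, h (MonoidAlgebra.single (u * c) 1) = h (MonoidAlgebra.single u 1) + e) → R2 N c

/-- **PTF** [80 lines, uses TRV STP TSB TFG SEP CEF DIS RES].  Strong induction on `h`: `h = 0` is TRV.  `h + 1`: `c ≠ 1` central, SEP for `g = c`, CEF, DIS, RES, STP; `Q` and its subgroups are TFN of length `<= h` (TSB). -/
def SpecPTF : Prop := ∀ (h : ℕ) (N : Type) [iN : Group N], TFN h N iN → P N

/-! ## Block F: residually torsion-free nilpotent groups -/

/-- **RFI** [120 lines].  For a finite subset `S` of an RTFN group `G` there is a normal `K` with `G/K` nilpotent and torsion-free, `S ∩ K ⊆ {1}`: intersect finitely many; `G/(K ⊓ K')` embeds in the product. -/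
def SpecRFI : Prop := ∀ (G : Type) [Group G], RTFN G → ∀ S : Finset G, ∃ K : Subgroup G, ∃ _ : K.Normal, (∀ g ∈ S, g ∈ K → g = 1) ∧
  Group.IsNilpotent (G ⧸ K) ∧ ∀ x : G ⧸ K, ∀ n : ℕ, 0 < n → x ^ n = 1 → x = 1

/-- **PGR** [120 lines, uses RFI TOR PTF PUS GPH].  Given `a e j`, `S` = union of the supports of the entries `(it a j) i i`, `K` from RFI, `π : G → G/K`.  `tau (mapM π (it a j)) = tau (it a j)` (the coefficient of `mapA π x` at `1` is the
sum of the coefficients of `x` over `K`).  `P (G/K)` by TOR, PTF (quotients of finitely generated groups are finitely generated); `augM (mapM π a) = augM a`. -/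
def SpecPGR : Prop := ∀ (G : Type) [Group G], Group.FG G → RTFN G → P G

/-- **HGA** [150 lines].  `‖twist ρ h‖ <= B` := 1 + sum of the norms of all coefficients of all entries (operator norm on `ℓ²`; the block `(i,j)` is `sum coeff ρ(g)`), the same `B'` for the inverse `h'`; `twist ρ` is
multiplicative, so for an eigenvector `v` of `twist ρ h` with eigenvalue `μ`: `|μ| <= B`, `v = μ (twist ρ h') v`, `1 <= |μ| B'`.  Hermitian: `ρ(g)* = ρ(g⁻¹)`.  `a = (1/B) h`, `e = 1/(B B')`. -/
def SpecHGA : Prop := ∀ (G : Type) [Group G] (ι : Type) [Fintype ι] [DecidableEq ι] (h h' : Matrix ι ι (CG G)), IsHerm h →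
  h * h' = 1 → h' * h = 1 → ∃ (b e : ℝ), 0 < b ∧ 0 < e ∧ e ≤ 1 ∧ Gap ((b : ℂ) • h) e

/-- **RFG** [150 lines].  Reduction to a finitely generated subgroup `G0` (generated by the supports of `h`, `h'`): `h`, `h'` come from matrices `h0`, `h0'` over `C[G0]`; `C[G0] → C[G]` is injective, so `h0 h0' = 1`, `h0` is hermitian.  A subgroup of an RTFN group is RTFN. -/
def SpecRFG : Prop := ∀ (G : Type) [Group G] (ι : Type) [Fintype ι] [DecidableEq ι] (h h' : Matrix ι ι (CG G)), RTFN G → IsHerm h →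
  h * h' = 1 → h' * h = 1 → ∃ (G0 : Subgroup G) (h0 h0' : Matrix ι ι (CG G0)), Group.FG G0 ∧ RTFN G0 ∧ IsHerm h0 ∧ h0 * h0' = 1 ∧ h0' * h0 = 1 ∧
    mapM G0.subtype h0 = h ∧ (∀ (x : Matrix ι ι (CG G0)), tau (mapM G0.subtype x) = tau x)

/-- **SGS** [80 lines].  Positive scalars do not change the signature: eigenvectors are the same, eigenvalues are multiplied by `b > 0` (compare characteristic polynomials or use a spectral decomposition). -/
def SpecSGS : Prop := ∀ (κ : Type) [Fintype κ] [DecidableEq κ] (A : Matrix κ κ ℂ) (b : ℝ), 0 < b → sgn ((b : ℂ) • A) = sgn A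

/-- **MNA** [150 lines, uses PGR HGA RFG SGS TEN PUS GPH SCA], the theorem for unitary representations.  Restrict to `G0` (RFG; `twist ρ h = twist (ρ.comp G0.subtype) h0`, `augM h = augM h0`).  `a = b h0`, Gap.  `Φ` from TEN, `P G0` for `a` and for `push Φ a` (Gap by GPH):
`|tau (it a j) - sgn (augM a)| <= n del`, `|card κ tau (it a j) - sgn (twist ρ a)| <= n card κ del`; `del → 0` (SCA), so `sgn (twist ρ a) = card κ * sgn (augM a)`; SGS. -/
def SpecMNA : Prop := ∀ (G : Type) [Group G], RTFN G → ∀ (ι : Type) [Fintype ι] [DecidableEq ι] (h : Matrix ι ι (CG G)), IsHerm h → IsUnit h →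
  ∀ (κ : Type) [Fintype κ] [DecidableEq κ] (ρ : G →* Matrix.unitaryGroup κ ℂ), sgn (twist ρ h) = Fintype.card κ * sgn (augM h)

/-- **OPX** [200 lines].  Every matrix `x` over `C[G]` has exactly one operator (`IsOp`); the operator `U_(i,j,s)` : `e_(j,u) -> e_(i, s u)`, zero on the other coordinates, is a partial isometry; take `sum coeff • U`.  `IsOp` is multiplicative and linear
(`Op x * Op y = Op (x y)`), `Op` of a hermitian matrix is self-adjoint, `Op 1 = 1`. -/
def SpecOPX : Prop := ∀ (G : Type) [Group G] (ι : Type) [Fintype ι] [DecidableEq ι],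
  ∃ Op : Matrix ι ι (CG G) →ₐ[ℂ] (L2 ι G →L[ℂ] L2 ι G), (∀ x, IsOp x (Op x)) ∧ (∀ x H, IsOp x H → H = Op x) ∧ (∀ x, IsHerm x → IsSelfAdjoint (Op x))

/-- **SGE** [120 lines].  Existence of the sign: `H` self-adjoint and invertible, `S = cfc sign H` (sign is continuous on the spectrum, which does not contain `0`); `S² = 1`, `S H = |H| >= 0`. -/
def SpecSGE : Prop := ∀ (ι G : Type) (H : L2 ι G →L[ℂ] L2 ι G), IsSelfAdjoint H → IsUnit H → ∃ S, IsSignOp H S

/-- **SGN** [200 lines, uses SCA].  `A` self-adjoint, `‖A‖ <= 1`, `A A' = A' A = 1` with `‖A'‖ <= 1/e`, `S` a sign of `A`.  `X = S A` is positive with spectrum in `[e, 1]`, `it A j = S (sj_j X)` (S commutes with A, `S² = 1`, only odd powers),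
so `it A j - S = S (sj_j(X) - 1)` has norm `<= del e j` (functional calculus, or induction on `j`: `1 - s(X) = (1-X)² (2+X)/2`). -/
def SpecSGN : Prop := ∀ (ι G : Type) (A A' S : L2 ι G →L[ℂ] L2 ι G) (e : ℝ), 0 < e → e ≤ 1 → IsSelfAdjoint A → ‖A‖ ≤ 1 → A * A' = 1 → A' * A = 1 →
  ‖A'‖ ≤ 1 / e → IsSignOp A S → ∀ j, ‖it A j - S‖ ≤ del e j

/-- **MNB** [200 lines, uses PGR HGA RFG SGS OPX SGE SGN PUS SCA], the theorem on the `L²`-signature.  Existence: OPX, SGE.  For any `H`, `S`: `H = Op h`; with `b > 0` small (`b <= 1/‖Op h‖`, and the `b` of HGA: shrinking `b` keeps a Gap with a smaller `e`) `A = b H`, `IsSignOp A S`;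
`Op (it a j) = it A j`, its `(i,1),(i,1)` entries sum to `tau (it a j)`; `|sum_i (S e_i)_i - tau (it a j)| <= n del e j`, `|tau (it a j) - sgn| <= n del` (P G0 and RFG); `j → ∞`. -/
def SpecMNB : Prop := ∀ (G : Type) [Group G], RTFN G → ∀ (ι : Type) [Fintype ι] [DecidableEq ι] (h : Matrix ι ι (CG G)), IsHerm h → IsUnit h →
  (∃ H S, IsOp h H ∧ IsSignOp H S) ∧ ∀ H S, IsOp h H → IsSignOp H S →
    ∑ i, ((S (bv (i, (1 : G)))) : ι × G → ℂ) (i, 1) = ((sgn (augM h) : ℤ) : ℂ)

end Pool.Agent.Lib.MP8a3537.SG
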